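import Pool.Agent.WallR.Targets

/-!
BASE: level 0 of the wall algorithm is a walker.
-/

open scoped BigOperators

namespace Pool.Agent.WallR

open Prog

namespace Base_

variable {S : Set Rect} {n : ℝ}

/-- The program ends deterministically with the outcome `o`, at cost `c`. -/
structure Ends (S : Set Rect) (n : ℝ) (P : Prog (Option Pt)) (p : Pt)
    (o : Option (Option Pt × Pt)) (c : ℝ) : Prop where
  ex : ∀ φ, ex S n P p φ = φ o
  sure : ∀ Q, sure S n P p Q ↔ Q o
  co : co S n P p = c

/-- The program reduces deterministically to another one, at cost `c`. -/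
structure Red (S : Set Rect) (n : ℝ) (P : Prog (Option Pt)) (p : Pt)
    (P' : Prog (Option Pt)) (p' : Pt) (c : ℝ) : Prop where
  ex : ∀ φ, ex S n P p φ = ex S n P' p' φ
  sure : ∀ Q, sure S n P p Q ↔ sure S n P' p' Q
  co : co S n P p = c + co S n P' p'

lemma Red.ends {P P' : Prog (Option Pt)} {p p' : Pt} {c c' : ℝ}
    {o : Option (Option Pt × Pt)} (h : Red S n P p P' p' c) (h' : Ends S n P' p' o c') :
    Ends S n P p o (c + c') :=
  ⟨fun φ => by rw [h.ex, h'.ex], fun Q => by rw [h.sure, h'.sure], by rw [h.co, h'.co]⟩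

lemma Red.trans {P P' P'' : Prog (Option Pt)} {p p' p'' : Pt} {c c' : ℝ}
    (h : Red S n P p P' p' c) (h' : Red S n P' p' P'' p'' c') :
    Red S n P p P'' p'' (c + c') :=
  ⟨fun φ => by rw [h.ex, h'.ex], fun Q => by rw [h.sure, h'.sure],
    by rw [h.co, h'.co, add_assoc]⟩

lemma red_move {q : Pt} {g : Pt → Set Rect → Prog (Option Pt)} {p p' : Pt}
    (h : stopAt S n p q = p') (hn : p'.1 < n) :
    Red S n (move q g) p (g p' (touched S p p')) p' (len p p') := by
  subst h
  refine ⟨fun φ => ?_, fun Q => ?_, ?_⟩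
  · rw [ex_move, if_neg (not_le.2 hn)]
  · rw [sure_move, if_neg (not_le.2 hn)]
  · rw [co_move, if_neg (not_le.2 hn)]

lemma ends_move {q : Pt} {g : Pt → Set Rect → Prog (Option Pt)} {p p' : Pt}
    (h : stopAt S n p q = p') (hn : n ≤ p'.1) :
    Ends S n (move q g) p none (len p p') := by
  subst h
  refine ⟨fun φ => ?_, fun Q => ?_, ?_⟩
  · rw [ex_move, if_pos hn]
  · rw [sure_move, if_pos hn]
  · rw [co_move, if_pos hn, add_zero]

lemma ends_ret (a : Option Pt) (p : Pt) : Ends S n (ret a) p (some (a, p)) 0 :=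
  ⟨fun _ => rfl, fun _ => Iff.rfl, rfl⟩

lemma len_h (x x' y : ℝ) : len (x, y) (x', y) = |x' - x| := by
  unfold len
  simp only [sub_self, ne_eq, OfNat.ofNat_ne_zero, not_false_eq_true, zero_pow, add_zero]
  rw [Real.sqrt_sq_eq_abs, abs_sub_comm]

lemma len_v (x y y' : ℝ) : len (x, y) (x, y') = |y' - y| := by
  unfold len
  simp only [sub_self, ne_eq, OfNat.ofNat_ne_zero, not_false_eq_true, zero_pow, zero_add]
  rw [Real.sqrt_sq_eq_abs, abs_sub_comm]

lemma hblock_none {T : Set Rect} {p' : Pt}
    (h : ∀ O ∈ T, ¬ (O.x1 = p'.1 ∧ O.y1 < p'.2 ∧ p'.2 < O.y2)) : hblock T p' = none := by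
  unfold hblock
  rw [dif_neg]
  rintro ⟨O, hO, h'⟩
  exact h O hO h'

lemma hblock_some {T : Set Rect} {p' : Pt}
    (h : ∃ O ∈ T, O.x1 = p'.1 ∧ O.y1 < p'.2 ∧ p'.2 < O.y2) :
    ∃ O ∈ T, O.x1 = p'.1 ∧ O.y1 < p'.2 ∧ p'.2 < O.y2 ∧ hblock T p' = some O := by
  unfold hblock
  rw [dif_pos h]
  exact ⟨_, h.choose_spec.1, h.choose_spec.2.1, h.choose_spec.2.2.1, h.choose_spec.2.2.2, rfl⟩

/-- The detour around an obstacle at the ordinate `y`. -/
noncomputable def det (a b : ℝ) (O : Rect) (y R : ℝ) (k : ℕ) : Prog (Option Pt) :=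
  move (O.x1, y) fun _ _ =>
    if O.x2 ≤ R then move (O.x2, y) fun p'' _ => base a b R k p''
    else move (R, y) fun _ _ => ret none

lemma base_succ (a b R : ℝ) (k : ℕ) (p : Pt) : base a b R (k + 1) p =
    move (R, p.2) fun p' T =>
      match hblock T p' with
      | none => ret none
      | some O =>
        if O.y2 ≤ b then det a b O O.y2 R k
        else if a ≤ O.y1 then det a b O O.y1 R k
        else ret (some p') := rfl

lemma det_first (h3 : tSlide) (hS : IsScene S) {a b : ℝ} {O : Rect} (hO : O ∈ S) {y y0 : ℝ}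
    (hy : y = O.y1 ∨ y = O.y2) (h1 : O.y1 < y0) (h2 : y0 < O.y2) (hxn : O.x1 < n) (R : ℝ)
    (k : ℕ) :
    Red S n (det a b O y R k) (O.x1, y0)
      (if O.x2 ≤ R then move (O.x2, y) fun p'' _ => base a b R k p''
        else move (R, y) fun _ _ => ret none) (O.x1, y) |y - y0| := by
  have ht := hS.tall O hO
  have hst : stopAt S n (O.x1, y0) (O.x1, y) = (O.x1, y) := by
    refine (h3 S n hS O hO).2.2.1 _ _ _ (Or.inl rfl) hxn.le h1.le h2.le ?_ ?_
    · rcases hy with rfl | rfl
      · exact le_rfl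
      · linarith
    · rcases hy with rfl | rfl
      · linarith
      · exact le_rfl
  have := red_move (g := fun _ _ =>
    if O.x2 ≤ R then move (O.x2, y) fun p'' _ => base a b R k p''
    else move (R, y) fun _ _ => ret none) hst hxn
  rw [len_v] at this
  exact this

lemma det_lt (h3 : tSlide) (hS : IsScene S) {a b : ℝ} {O : Rect} (hO : O ∈ S) {y y0 : ℝ}
    (hy : y = O.y1 ∨ y = O.y2) (h1 : O.y1 < y0) (h2 : y0 < O.y2) (hxn : O.x1 < n)
    (hl : |y - y0| ≤ b - a) {R : ℝ} (hR : O.x1 ≤ R) (hRn : R ≤ n)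
    (hc : R < O.x2 ∨ n ≤ O.x2) (k : ℕ) :
    ∃ q c, c ≤ (R - O.x1) + (b - a) ∧
      Ends S n (det a b O y R k) (O.x1, y0) (if n ≤ R then none else some (none, q)) c := by
  have hw := hS.wide O hO
  have hf := det_first (n := n) (a := a) (b := b) h3 hS hO hy h1 h2 hxn R k
  by_cases h : O.x2 ≤ R
  · have hn : n ≤ O.x2 := by
      rcases hc with hc | hc
      · linarith
      · exact hc
    have hRn' : n ≤ R := le_trans hn h
    rw [if_pos h] at hf
    have hst : stopAt S n (O.x1, y) (O.x2, y) = (O.x2, y) :=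
      (h3 S n hS O hO).2.2.2 _ _ _ hy le_rfl (by linarith) (by linarith) le_rfl hxn.le
        (by linarith)
    have he := hf.ends (ends_move (g := fun p'' _ => base a b R k p'') hst hn)
    rw [len_h, abs_of_nonneg (show 0 ≤ O.x2 - O.x1 by linarith)] at he
    refine ⟨(0, 0), _, ?_, by rw [if_pos hRn']; exact he⟩
    linarith
  · rw [if_neg h] at hf
    rw [not_le] at h
    have hst : stopAt S n (O.x1, y) (R, y) = (R, y) :=
      (h3 S n hS O hO).2.2.2 _ _ _ hy le_rfl (by linarith) hR h.le hxn.le hRn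
    by_cases hn : n ≤ R
    · have he := hf.ends (ends_move (g := fun _ _ => ret none) hst hn)
      rw [len_h, abs_of_nonneg (show 0 ≤ R - O.x1 by linarith)] at he
      refine ⟨(0, 0), _, ?_, by rw [if_pos hn]; exact he⟩
      linarith
    · have he := hf.ends ((red_move (g := fun _ _ => ret none) hst (not_le.1 hn)).ends
        (ends_ret none (R, y)))
      rw [len_h, abs_of_nonneg (show 0 ≤ R - O.x1 by linarith)] at he
      refine ⟨(R, y), _, ?_, by rw [if_neg hn]; exact he⟩
      linarith

lemma det_ge (h3 : tSlide) (hS : IsScene S) {a b : ℝ} {O : Rect} (hO : O ∈ S) {y y0 : ℝ}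
    (hy : y = O.y1 ∨ y = O.y2) (h1 : O.y1 < y0) (h2 : y0 < O.y2) (hxn : O.x1 < n)
    (hl : |y - y0| ≤ b - a) {R : ℝ} (hR : O.x2 ≤ R) (hx2 : O.x2 < n) (k : ℕ) :
    ∃ c, c ≤ (O.x2 - O.x1) + (b - a) ∧
      Red S n (det a b O y R k) (O.x1, y0) (base a b R k (O.x2, y)) (O.x2, y) c := by
  have hw := hS.wide O hO
  have hf := det_first (n := n) (a := a) (b := b) h3 hS hO hy h1 h2 hxn R k
  rw [if_pos hR] at hf
  have hst : stopAt S n (O.x1, y) (O.x2, y) = (O.x2, y) :=
    (h3 S n hS O hO).2.2.2 _ _ _ hy le_rfl (by linarith) (by linarith) le_rfl hxn.le hx2.le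
  have he := hf.trans (red_move (g := fun p'' _ => base a b R k p'') hst hx2)
  rw [len_h, abs_of_nonneg (show 0 ≤ O.x2 - O.x1 by linarith)] at he
  exact ⟨_, by linarith, he⟩

/-- One step of level 0. -/
lemma step (h2 : tStopH) (h3 : tSlide) (hS : IsScene S) {a b : ℝ} {p : Pt}
    (hab : a ≤ b) (hp : Dom S n a b p) :
    ∃ Z : ℝ, p.1 ≤ Z ∧
      (∀ (R : ℝ) (k : ℕ), p.1 ≤ R → R ≤ n → R < Z → ∃ q c, c ≤ (R - p.1) + (b - a) ∧
        Ends S n (base a b R (k + 1) p) p (if n ≤ R then none else some (none, q)) c) ∧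
      (n < Z ∨
        (∃ P : Pt, P.1 = Z ∧ Dom S n a b P ∧
          (∃ O ∈ S, O.x1 = P.1 ∧ O.y1 < a ∧ b < O.y2) ∧
          ∀ (R : ℝ) (k : ℕ), Z ≤ R → R ≤ n →
            Ends S n (base a b R (k + 1) p) p (some (some P, P)) (Z - p.1)) ∨
        (∃ P : Pt, P.1 = Z ∧ Dom S n a b P ∧ p.1 + 1 ≤ Z ∧
          ∀ (R : ℝ) (k : ℕ), Z ≤ R → R ≤ n → ∃ c, c ≤ (Z - p.1) + (b - a) ∧
            Red S n (base a b R (k + 1) p) p (base a b R k P) P c)) := by
  obtain ⟨hA, hB⟩ := h2 S n hS p hp.free hp.xn
  obtain ⟨hy, hx1, hx2, hbl, hmin⟩ := hA n hp.xn.le le_rfl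
  have hst : ∀ R, p.1 ≤ R → R ≤ n →
      stopAt S n p (R, p.2) = (min R (stopAt S n p (n, p.2)).1, p.2) :=
    fun R hR hRn => hB R n hR hRn le_rfl
  have hpe : (p.1, p.2) = p := rfl
  have hXe : stopAt S n p (n, p.2) = ((stopAt S n p (n, p.2)).1, p.2) :=
    Prod.ext rfl hy
  set X := (stopAt S n p (n, p.2)).1 with hX
  -- the limit is reached before any obstacle
  have hun : ∀ (R : ℝ) (k : ℕ), p.1 ≤ R → R ≤ n → R < X →
      Ends S n (base a b R (k + 1) p) p (some (none, (R, p.2))) (R - p.1) := by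
    intro R k hR hRn hRX
    have hs := hst R hR hRn
    rw [min_eq_left hRX.le] at hs
    have hRn' : R < n := lt_of_lt_of_le hRX hx2
    rw [base_succ]
    have hr := red_move (g := fun p' T =>
      match hblock T p' with
      | none => ret none
      | some O =>
        if O.y2 ≤ b then det a b O O.y2 R k
        else if a ≤ O.y1 then det a b O O.y1 R k
        else ret (some p')) hs hRn'
    have hh : hblock (touched S p (R, p.2)) (R, p.2) = none := by
      apply hblock_none
      rintro O hO ⟨e1, e2, e3⟩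
      have := hmin O hO.1 e2 e3 (by rw [e1]; exact hR)
      rw [e1] at this
      exact absurd this (not_le.2 hRX)
    simp only [hh] at hr
    have hl : len p (R, p.2) = R - p.1 := by
      rw [← hpe, len_h, abs_of_nonneg (by simpa using hR)]
    rw [hl] at hr
    have := hr.ends (ends_ret none (R, p.2))
    rwa [add_zero] at this
  by_cases hXn : n ≤ X
  · -- no obstacle before the line
    refine ⟨n + 1, by linarith [hp.xn], fun R k hR hRn _ => ?_, Or.inl (by linarith)⟩
    by_cases hRX : R < X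
    · refine ⟨(R, p.2), R - p.1, by linarith, ?_⟩
      rw [if_neg (not_le.2 (lt_of_lt_of_le hRX hx2))]
      exact hun R k hR hRn hRX
    · have hRn' : n ≤ R := le_trans hXn (not_lt.1 hRX)
      have hs := hst R hR hRn
      rw [min_eq_right (not_lt.1 hRX)] at hs
      rw [base_succ]
      have hr := ends_move (g := fun p' T =>
        match hblock T p' with
        | none => ret none
        | some O =>
          if O.y2 ≤ b then det a b O O.y2 R k
          else if a ≤ O.y1 then det a b O O.y1 R k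
          else ret (some p')) hs hXn
      have hl : len p (X, p.2) = X - p.1 := by
        rw [← hpe, len_h, abs_of_nonneg (by simpa using hx1)]
      refine ⟨(0, 0), _, ?_, by rw [if_pos hRn']; exact hr⟩
      rw [hl]
      linarith [not_lt.1 hRX]
  · rw [not_le] at hXn
    obtain ⟨O, hOT, e1, e2, e3, hh⟩ := hblock_some (T := touched S p (X, p.2)) (p' := (X, p.2))
      (by
        have := hbl hXn
        rw [hXe] at this
        exact this)
    have e1 : O.x1 = X := e1
    have e2 : O.y1 < p.2 := e2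
    have e3 : p.2 < O.y2 := e3
    have hO : O ∈ S := hOT.1
    have hw := hS.wide O hO
    have ht := hS.tall O hO
    have hl : len p (X, p.2) = X - p.1 := by
      rw [← hpe, len_h, abs_of_nonneg (by simpa using hx1)]
    have hOn : O.x1 < n := by rw [e1]; exact hXn
    -- the first move
    have hr : ∀ (R : ℝ) (k : ℕ), X ≤ R → R ≤ n →
        Red S n (base a b R (k + 1) p) p (if O.y2 ≤ b then det a b O O.y2 R k
          else if a ≤ O.y1 then det a b O O.y1 R k
          else ret (some (X, p.2))) (O.x1, p.2) (X - p.1) := by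
      intro R k hR hRn
      have hs := hst R (le_trans hx1 hR) hRn
      rw [min_eq_right hR] at hs
      rw [base_succ]
      have hr := red_move (g := fun p' T =>
        match hblock T p' with
        | none => ret none
        | some O =>
          if O.y2 ≤ b then det a b O O.y2 R k
          else if a ≤ O.y1 then det a b O O.y1 R k
          else ret (some p')) hs hXn
      simp only [hh] at hr
      rw [hl] at hr
      rw [e1]
      exact hr
    -- the detours
    have hdet : ∀ y : ℝ, (y = O.y1 ∨ y = O.y2) → a ≤ y → y ≤ b →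
        (∀ (R : ℝ) (k : ℕ), X ≤ R → R ≤ n →
          Red S n (base a b R (k + 1) p) p (det a b O y R k) (O.x1, p.2) (X - p.1)) →
        ∃ Z : ℝ, p.1 ≤ Z ∧
          (∀ (R : ℝ) (k : ℕ), p.1 ≤ R → R ≤ n → R < Z → ∃ q c, c ≤ (R - p.1) + (b - a) ∧
            Ends S n (base a b R (k + 1) p) p (if n ≤ R then none else some (none, q)) c) ∧
          (n < Z ∨ (∃ P : Pt, P.1 = Z ∧ Dom S n a b P ∧ p.1 + 1 ≤ Z ∧
            ∀ (R : ℝ) (k : ℕ), Z ≤ R → R ≤ n → ∃ c, c ≤ (Z - p.1) + (b - a) ∧
              Red S n (base a b R (k + 1) p) p (base a b R k P) P c)) := by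
      intro y hy hay hyb hr'
      have hly : |y - p.2| ≤ b - a := by
        rw [abs_le]
        constructor
        · linarith [hp.yhi]
        · linarith [hp.ylo]
      have hlt : ∀ (R : ℝ) (k : ℕ), p.1 ≤ R → R ≤ n → (R < O.x2 ∨ n ≤ O.x2) →
          ∃ q c, c ≤ (R - p.1) + (b - a) ∧
            Ends S n (base a b R (k + 1) p) p (if n ≤ R then none else some (none, q)) c := by
        intro R k hR hRn hc
        by_cases hRX : R < X
        · refine ⟨(R, p.2), R - p.1, by linarith, ?_⟩
          rw [if_neg (not_le.2 (lt_of_lt_of_le hRX hx2))]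
          exact hun R k hR hRn hRX
        · rw [not_lt] at hRX
          obtain ⟨q, c, hc1, hc2⟩ := det_lt (n := n) (a := a) (b := b) h3 hS hO hy e2 e3 hOn hly
            (by rw [e1]; exact hRX) hRn hc k
          refine ⟨q, _, ?_, (hr' R k hRX hRn).ends hc2⟩
          rw [e1] at hc1
          linarith
      by_cases hx2n : n ≤ O.x2
      · exact ⟨n + 1, by linarith [hp.xn], fun R k hR hRn _ => hlt R k hR hRn (Or.inr hx2n),
          Or.inl (by linarith)⟩
      · rw [not_le] at hx2n
        have hyO1 : O.y1 ≤ y := by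
          rcases hy with rfl | rfl
          · exact le_rfl
          · linarith
        have hyO2 : y ≤ O.y2 := by
          rcases hy with rfl | rfl
          · linarith
          · exact le_rfl
        refine ⟨O.x2, by linarith, fun R k hR hRn hRZ => hlt R k hR hRn (Or.inl hRZ),
          Or.inr ⟨(O.x2, y), rfl, ⟨?_, ?_, hx2n, hay, hyb⟩, by linarith, fun R k hZ hRn => ?_⟩⟩
        · refine (h3 S n hS O hO).1 _ ⟨by simp; linarith, le_rfl, hyO1, hyO2⟩ ?_
          rintro ⟨_, h, _⟩
          exact lt_irrefl _ h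
        · show 0 ≤ O.x2
          linarith [hp.x0]
        · obtain ⟨c, hc1, hc2⟩ := det_ge (n := n) (a := a) (b := b) h3 hS hO hy e2 e3 hOn hly
            hZ hx2n k
          refine ⟨_, ?_, (hr' R k (by linarith) hRn).trans hc2⟩
          rw [e1] at hc1
          linarith
    by_cases hb : O.y2 ≤ b
    · obtain ⟨Z, hZ1, hZ2, hZ3⟩ := hdet O.y2 (Or.inr rfl) (by linarith [hp.ylo]) hb
        (fun R k hR hRn => by
          have := hr R k hR hRn
          rwa [if_pos hb] at this)
      exact ⟨Z, hZ1, hZ2, hZ3.imp_right Or.inr⟩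
    · by_cases ha : a ≤ O.y1
      · obtain ⟨Z, hZ1, hZ2, hZ3⟩ := hdet O.y1 (Or.inl rfl) ha (by linarith [hp.yhi])
          (fun R k hR hRn => by
            have := hr R k hR hRn
            rwa [if_neg hb, if_pos ha] at this)
        exact ⟨Z, hZ1, hZ2, hZ3.imp_right Or.inr⟩
      · have hfree : (X, p.2) ∈ Free S := by
          refine (h3 S n hS O hO).1 _ ⟨e1.le, ?_, e2.le, e3.le⟩ ?_
          · show X ≤ O.x2
            linarith
          · rintro ⟨h, _⟩
            exact lt_irrefl _ (e1 ▸ h)
        refine ⟨X, hx1, fun R k hR hRn hRX => ⟨(R, p.2), R - p.1, by linarith, ?_⟩,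
          Or.inr (Or.inl ⟨(X, p.2), rfl, ⟨hfree, le_trans hp.x0 hx1, hXn, hp.ylo, hp.yhi⟩,
            ⟨O, hO, e1, not_le.1 ha, not_le.1 hb⟩, fun R k hR hRn => ?_⟩)⟩
        · rw [if_neg (not_le.2 (lt_of_lt_of_le hRX hx2))]
          exact hun R k hR hRn hRX
        · have := hr R k hR hRn
          rw [if_neg hb, if_neg ha, e1] at this
          have := this.ends (ends_ret (some (X, p.2)) (X, p.2))
          rwa [add_zero] at this

lemma base_ok (a b R : ℝ) (k : ℕ) : ∀ p, (base a b R k p).Ok := by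
  induction k with
  | zero => exact fun p => trivial
  | succ k ih =>
    intro p
    rw [base_succ]
    intro p' T
    have hd : ∀ O y, (det a b O y R k).Ok := by
      intro O y
      unfold det
      intro _ _
      split_ifs
      · exact fun p'' _ => ih p''
      · exact fun _ _ => trivial
    beta_reduce
    split
    · trivial
    · split_ifs
      · exact hd _ _
      · exact hd _ _
      · trivial

lemma base_mono (h2 : tStopH) (h3 : tSlide) (hS : IsScene S) {a b R : ℝ} (hab : a ≤ b)
    (hRn : R ≤ n) (k : ℕ) : ∀ p, Dom S n a b p → p.1 ≤ R →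
    sure S n (base a b R k p) p (fun o => ∀ x, view o = some x →
      p.1 ≤ x.1 ∧ ∃ O ∈ S, O.x1 = x.1 ∧ O.y1 < a ∧ b < O.y2) := by
  induction k with
  | zero =>
    intro p _ _
    show ∀ x, (none : Option Pt) = some x → _
    intro x hx
    cases hx
  | succ k ih =>
    intro p hp hR
    obtain ⟨Z, hZ1, hZ2, hZ3⟩ := step h2 h3 hS hab hp
    by_cases hRZ : R < Z
    · obtain ⟨q, c, _, he⟩ := hZ2 R k hR hRn hRZ
      rw [he.sure]
      intro x hx
      split_ifs at hx <;> cases hx
    · rw [not_lt] at hRZ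
      rcases hZ3 with h | ⟨P, hP, hD, hO, h⟩ | ⟨P, hP, hD, hP1, h⟩
      · linarith
      · rw [(h R k hRZ hRn).sure]
        intro x hx
        cases hx
        exact ⟨by rw [hP]; exact hZ1, hO⟩
      · obtain ⟨c, _, hr⟩ := h R k hRZ hRn
        rw [hr.sure]
        refine sure_mono (ih P hD (by rw [hP]; exact hRZ)) fun o ho x hx => ?_
        obtain ⟨g1, g2⟩ := ho x hx
        exact ⟨by linarith, g2⟩

lemma base_out (h2 : tStopH) (h3 : tSlide) (hS : IsScene S) {a b R : ℝ} (hab : a ≤ b)
    (hRn : R ≤ n) (k : ℕ) : ∀ p, Dom S n a b p → p.1 ≤ R → R < p.1 + k →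
    sure S n (base a b R k p) p (WOut S n a b R p) := by
  induction k with
  | zero =>
    intro p _ h h'
    simp only [Nat.cast_zero, add_zero] at h'
    linarith
  | succ k ih =>
    intro p hp hR hk
    obtain ⟨Z, hZ1, hZ2, hZ3⟩ := step h2 h3 hS hab hp
    by_cases hRZ : R < Z
    · obtain ⟨q, c, _, he⟩ := hZ2 R k hR hRn hRZ
      rw [he.sure]
      split_ifs with h
      · exact h
      · exact not_le.1 h
    · rw [not_lt] at hRZ
      rcases hZ3 with h | ⟨P, hP, hD, hO, h⟩ | ⟨P, hP, hD, hP1, h⟩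
      · linarith
      · rw [(h R k hRZ hRn).sure]
        exact ⟨rfl, hD, by rw [hP]; exact hZ1, by rw [hP]; exact hRZ⟩
      · obtain ⟨c, _, hr⟩ := h R k hRZ hRn
        rw [hr.sure]
        push_cast at hk
        refine sure_mono (ih P hD (by rw [hP]; exact hRZ) (by rw [hP]; linarith)) fun o ho => ?_
        match o, ho with
        | none, ho => exact ho
        | some (none, _), ho => exact ho
        | some (some x, p'), ho =>
          obtain ⟨g1, g2, g3, g4⟩ := ho
          exact ⟨g1, g2, by linarith, g4⟩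

lemma base_cut (h2 : tStopH) (h3 : tSlide) (hS : IsScene S) {a b r R : ℝ} (hab : a ≤ b)
    (hrR : r ≤ R) (hRn : R ≤ n) (psi : Option Pt → ℝ) (k : ℕ) : ∀ p, Dom S n a b p → p.1 ≤ r →
    EV S n (base a b r k p) p psi = EV S n (base a b R k p) p (fun o => psi (cut r o)) := by
  induction k with
  | zero => exact fun p _ _ => rfl
  | succ k ih =>
    intro p hp hr
    obtain ⟨Z, hZ1, hZ2, hZ3⟩ := step h2 h3 hS hab hp
    unfold EV at ih ⊢
    by_cases hrZ : r < Z
    · obtain ⟨q, c, _, he⟩ := hZ2 r k hr (le_trans hrR hRn) hrZ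
      have e0 : ex S n (base a b r (k + 1) p) p (fun o => psi (view o)) = psi none := by
        rw [he.ex]
        split_ifs <;> rfl
      rw [e0]
      by_cases hRZ : R < Z
      · obtain ⟨q, c, _, he⟩ := hZ2 R k (le_trans hr hrR) hRn hRZ
        rw [he.ex]
        split_ifs <;> rfl
      · rw [not_lt] at hRZ
        rcases hZ3 with h | ⟨P, hP, hD, hO, h⟩ | ⟨P, hP, hD, hP1, h⟩
        · linarith
        · rw [(h R k hRZ hRn).ex]
          show psi none = psi (if P.1 ≤ r then some P else none)
          rw [if_neg (by rw [hP]; exact not_le.2 hrZ)]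
        · obtain ⟨c, _, hr'⟩ := h R k hRZ hRn
          rw [hr'.ex]
          have hs := base_mono h2 h3 hS hab hRn k P hD (by rw [hP]; exact hRZ)
          rw [ex_congr_sure (ψ := fun _ => psi none) hs, ex_const (base_ok a b R k P)]
          intro o ho
          match hv : view o with
          | none => rfl
          | some x =>
            show psi (if x.1 ≤ r then some x else none) = psi none
            rw [if_neg]
            have := (ho x hv).1
            rw [not_le]
            linarith
    · rw [not_lt] at hrZ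
      have hRZ : Z ≤ R := le_trans hrZ hrR
      rcases hZ3 with h | ⟨P, hP, hD, hO, h⟩ | ⟨P, hP, hD, hP1, h⟩
      · linarith
      · rw [(h R k hRZ hRn).ex, (h r k hrZ (le_trans hrR hRn)).ex]
        show psi (some P) = psi (if P.1 ≤ r then some P else none)
        rw [if_pos (by rw [hP]; exact hrZ)]
      · obtain ⟨c, _, hr1⟩ := h R k hRZ hRn
        obtain ⟨c', _, hr2⟩ := h r k hrZ (le_trans hrR hRn)
        rw [hr1.ex, hr2.ex]
        exact ih P hD (by rw [hP]; exact hrZ)

lemma base_cost (h2 : tStopH) (h3 : tSlide) (hS : IsScene S) {a b R : ℝ} (hab : a ≤ b)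
    (hRn : R ≤ n) (k : ℕ) : ∀ p, Dom S n a b p → p.1 ≤ R →
    co S n (base a b R k p) p ≤
      (1 + (b - a)) * EV S n (base a b R k p) p (prog R p) + (b - a) := by
  have hg : 0 ≤ b - a := by linarith
  induction k with
  | zero =>
    intro p hp hR
    show (0 : ℝ) ≤ (1 + (b - a)) * (R - p.1) + (b - a)
    have : 0 ≤ (1 + (b - a)) * (R - p.1) := mul_nonneg (by linarith) (by linarith)
    linarith
  | succ k ih =>
    intro p hp hR
    obtain ⟨Z, hZ1, hZ2, hZ3⟩ := step h2 h3 hS hab hp
    unfold EV at ih ⊢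
    by_cases hRZ : R < Z
    · obtain ⟨q, c, hc, he⟩ := hZ2 R k hR hRn hRZ
      have e0 : ex S n (base a b R (k + 1) p) p (fun o => prog R p (view o)) = R - p.1 := by
        rw [he.ex]
        split_ifs <;> rfl
      rw [e0, he.co]
      have : 0 ≤ (b - a) * (R - p.1) := mul_nonneg hg (by linarith)
      linarith
    · rw [not_lt] at hRZ
      rcases hZ3 with h | ⟨P, hP, hD, hO, h⟩ | ⟨P, hP, hD, hP1, h⟩
      · linarith
      · rw [(h R k hRZ hRn).ex, (h R k hRZ hRn).co]
        show Z - p.1 ≤ (1 + (b - a)) * (P.1 - p.1) + (b - a)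
        rw [hP]
        have : 0 ≤ (b - a) * (Z - p.1) := mul_nonneg hg (by linarith)
        linarith
      · obtain ⟨c, hc, hr⟩ := h R k hRZ hRn
        rw [hr.ex, hr.co]
        have h1 := ih P hD (by rw [hP]; exact hRZ)
        have h2 : ex S n (base a b R k P) P (fun o => prog R p (view o)) =
            ex S n (base a b R k P) P (fun o => prog R P (view o)) + (P.1 - p.1) := by
          have e : (fun o : Option (Option Pt × Pt) => prog R p (view o)) =
              fun o => prog R P (view o) + (fun _ => P.1 - p.1) o := by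
            funext o
            match view o with
            | none => simp only [prog, oo_none]; ring
            | some x => simp only [prog, oo_some]; ring
          rw [e, ex_add, ex_const (base_ok a b R k P)]
        rw [h2]
        have h3 : 0 ≤ (b - a) * (Z - p.1 - 1) := mul_nonneg hg (by linarith)
        rw [hP]
        linarith

end Base_

open Base_ in
theorem pBase (_h1 : tStop) (h2 : tStopH) (h3 : tSlide) : tBase := by
  intro S n hS a g F hg hF
  have hab : a ≤ a + g := by linarith
  refine ⟨⟨fun R p => base_ok a (a + g) R F p, fun R p hp hR hRn => ?_,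
    fun r R p psi hp hr hrR hRn => base_cut h2 h3 hS hab hrR hRn psi F p hp hr,
    fun R p hp hR hRn => ?_⟩, fun R p hp hR hRn => ?_⟩
  · exact base_out h2 h3 hS hab hRn F p hp hR (by linarith [hp.x0])
  · have := base_cost h2 h3 hS hab hRn F p hp hR
    rwa [add_sub_cancel_left] at this
  · exact sure_mono (base_mono h2 h3 hS hab hRn F p hp hR) fun o ho x hx => (ho x hx).2

end Pool.Agent.WallR
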