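import Pool.Agent.WallR.Targets

/-!
BASEG: the guarantee of level 0.
-/

open scoped BigOperators

namespace Pool.Agent.WallR

theorem pBaseG (h1 : tBase) : tBaseG := by
  intro S n l hS C a g tau F hg hF u u' R p huu' _ hstrip hD hm hpR hRn
  obtain ⟨hW, hB⟩ := h1 S n hS a g F hg hF
  have hs := sure_and (hW.out R p hD hpR hRn) (hB R p hD hpR hRn)
  have key : EV S n (base a (a + g) R F p) p (below (C.m u')) ≤
      ex S n (base a (a + g) R F p) p (fun _ => 0) := by
    unfold EV
    refine ex_mono_sure (hW.ok R p) hs ?_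
    rintro (_ | ⟨(_ | x), p'⟩) ⟨k1, k2⟩
    · exact le_refl (0 : ℝ)
    · exact le_refl (0 : ℝ)
    · obtain ⟨O, hO, e1, e2, e3⟩ := k2 x rfl
      obtain ⟨-, -, k3, -⟩ := k1
      have k4 : C.m u' ≤ O.x1 := by
        refine C.bar O hO u u' huu' (fun t ht ht' => ?_) ?_
        · have := hstrip t ht ht'
          exact ⟨e2.trans_le this.1, this.2.trans_lt e3⟩
        · rw [e1]
          exact hm.trans k3
      show (if x.1 < C.m u' then (1 : ℝ) else 0) ≤ 0
      rw [if_neg (not_lt.mpr (by rw [← e1]; exact k4))]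
  rw [ex_zero] at key
  linarith

end Pool.Agent.WallR
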