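import Pool.Agent.WallR.Targets

/-!
# CMP: a path gives a comparator
-/

namespace Pool.Agent.WallR

namespace CmpP_

lemma fst_le (p q : Pt) : |p.1 - q.1| ≤ len p q := by
  unfold len
  refine Real.abs_le_sqrt ?_
  have := sq_nonneg (p.2 - q.2)
  linarith

lemma snd_le (p q : Pt) : |p.2 - q.2| ≤ len p q := by
  unfold len
  refine Real.abs_le_sqrt ?_
  have := sq_nonneg (p.1 - q.1)
  linarith

end CmpP_

open CmpP_ in
theorem pCmp : tCmp := by
  rintro S n l hS hn ⟨hl0, c, hc, hc0, hcl, hfree⟩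
  have h0m : (0 : ℝ) ∈ Set.Icc 0 l := ⟨le_refl 0, hl0⟩
  have hlm : l ∈ Set.Icc 0 l := ⟨hl0, le_refl l⟩
  refine ⟨?_, ?_⟩
  · have h1 := fst_le (c l) (c 0)
    have h2 := hc l hlm 0 h0m
    rw [hcl, hc0] at h1
    rw [hc0] at h2
    simp only [sub_zero] at h1 h2
    rw [abs_of_pos hn] at h1
    rw [abs_of_nonneg hl0] at h2
    linarith
  -- the clamp
  set k : ℝ → ℝ := fun t => (Set.projIcc 0 l hl0 t : ℝ) with hk
  have hkm : ∀ t, k t ∈ Set.Icc 0 l := fun t => (Set.projIcc 0 l hl0 t).2
  have hkl : ∀ s t, |k s - k t| ≤ |s - t| := fun s t => Set.abs_projIcc_sub_projIcc hl0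
  have hkmono : Monotone k := fun s t hst => Set.monotone_projIcc hl0 hst
  have hkid : ∀ t ∈ Set.Icc 0 l, k t = t := fun t ht => by
    rw [hk]
    simp only
    rw [Set.projIcc_of_mem hl0 ht]
  have hkdef : ∀ t, k t = max 0 (min l t) := fun t => Set.coe_projIcc 0 l hl0 t
  set X : ℝ → ℝ := fun t => (c (k t)).1 with hX
  set y : ℝ → ℝ := fun t => (c (k t)).2 with hy
  have hXl : ∀ s t, |X s - X t| ≤ |s - t| := fun s t =>
    ((fst_le _ _).trans (hc _ (hkm s) _ (hkm t))).trans (hkl s t)
  have hyl : ∀ s t, |y s - y t| ≤ |s - t| := fun s t =>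
    ((snd_le _ _).trans (hc _ (hkm s) _ (hkm t))).trans (hkl s t)
  have hXc : Continuous X := by
    have : LipschitzWith 1 X := LipschitzWith.of_dist_le_mul fun s t => by
      rw [Real.dist_eq, Real.dist_eq, NNReal.coe_one, one_mul]
      exact hXl s t
    exact this.continuous
  set m : ℝ → ℝ := fun u => sInf (X '' Set.Icc (k u) l) with hm
  have hbdd : ∀ u, BddBelow (X '' Set.Icc (k u) l) := fun u =>
    (isCompact_Icc.image hXc).bddBelow
  have hmle : ∀ u v, k u ≤ v → v ≤ l → m u ≤ X v := fun u v h1 h2 =>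
    csInf_le (hbdd u) ⟨v, ⟨h1, h2⟩, rfl⟩
  have hatt : ∀ u, ∃ v, k u ≤ v ∧ v ≤ l ∧ m u = X v := by
    intro u
    obtain ⟨v, hv, he⟩ := isCompact_Icc.exists_sInf_image_eq
      (Set.nonempty_Icc.2 (hkm u).2) hXc.continuousOn
    exact ⟨v, hv.1, hv.2, he⟩
  refine ⟨⟨y, m, hyl, ?_, ?_, ?_, ?_, ?_⟩⟩
  · show (c (k 0)).2 = 0
    rw [hkid 0 h0m, hc0]
  · refine (hmle 0 0 (by rw [hkid 0 h0m]) hl0).trans (le_of_eq ?_)
    show (c (k 0)).1 = 0
    rw [hkid 0 h0m, hc0]
  · obtain ⟨v, h1, h2, h3⟩ := hatt l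
    rw [hkid l hlm] at h1
    have hv : v = l := le_antisymm h2 h1
    rw [h3, hv]
    show n ≤ (c (k l)).1
    rw [hkid l hlm, hcl]
  · intro u u' huu
    obtain ⟨v, h1, h2, h3⟩ := hatt u'
    rw [h3]
    exact hmle u v ((hkmono huu).trans h1) h2
  · intro O hO u u' huu hyO hmu
    by_contra hcon
    rw [not_le] at hcon
    obtain ⟨v, h1, h2, h3⟩ := hatt u
    have hXv : X v ≤ O.x1 := by rw [← h3]; exact hmu
    have hvu' : v < k u' := by
      by_contra h
      rw [not_lt] at h
      have := hmle u' v h h2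
      linarith
    have hXu' : O.x1 < X (k u') := lt_of_lt_of_le hcon (hmle u' (k u') (le_refl _) (hkm u').2)
    have hwide := hS.wide O hO
    -- the intermediate value
    set z : ℝ := min (X (k u')) ((O.x1 + O.x2) / 2) with hz
    have hz1 : O.x1 < z := lt_min hXu' (by linarith)
    have hz2 : z < O.x2 := lt_of_le_of_lt (min_le_right _ _) (by linarith)
    have hz3 : z ≤ X (k u') := min_le_left _ _
    obtain ⟨t, ht, htz⟩ := intermediate_value_Icc hvu'.le hXc.continuousOn
      (show z ∈ Set.Icc (X v) (X (k u')) from ⟨by linarith, hz3⟩)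
    have hu'l := (hkm u').2
    have hu0 := (hkm u).1
    have hut : u ≤ t := by
      have h4 : k u < l := lt_of_le_of_lt h1 (lt_of_lt_of_le hvu' hu'l)
      have h5 : u ≤ k u := by
        rw [hkdef] at h4 ⊢
        by_contra h
        rw [not_le] at h
        have h7 : min l u = l := by
          rcases min_choice l u with h8 | h8
          · exact h8
          · exfalso
            rw [h8] at h
            exact absurd h (not_lt.2 (le_max_right 0 u))
        rw [h7] at h4
        have := le_max_right (0 : ℝ) l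
        linarith
      exact h5.trans (h1.trans ht.1)
    have htu' : t ≤ u' := by
      have h4 : 0 < k u' := lt_of_le_of_lt (hu0.trans h1) hvu'
      have h5 : k u' ≤ u' := by
        rw [hkdef] at h4 ⊢
        have h6 : 0 < min l u' := by
          by_contra h
          rw [not_lt] at h
          rw [max_eq_left h] at h4
          exact lt_irrefl _ h4
        rw [max_eq_right h6.le]
        exact min_le_right _ _
      exact ht.2.trans h5
    obtain ⟨y1, y2⟩ := hyO t hut htu'
    refine hfree (k t) (hkm t) O hO ⟨?_, ?_, y1, y2⟩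
    · show O.x1 < X t
      rw [htz]
      exact hz1
    · show X t < O.x2
      rw [htz]
      exact hz2

end Pool.Agent.WallR
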