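import Pool.Agent.WallR.Targets

/-!
EXIST: every scene has a path to the line `x = n`.
-/

open scoped BigOperators ENNReal

namespace Pool.Agent.WallR

open Prog

namespace Exist_

/-- Points as complex numbers. -/
def cx (p : Pt) : ℂ := ⟨p.1, p.2⟩

lemma len_eq (p q : Pt) : len p q = ‖cx p - cx q‖ := by
  unfold len cx
  rw [Complex.norm_def, Complex.normSq_apply]
  congr 1
  simp only [Complex.sub_re, Complex.sub_im]
  ring

lemma len_tri (p q r : Pt) : len p r ≤ len p q + len q r := by
  rw [len_eq, len_eq, len_eq]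
  exact norm_sub_le_norm_sub_add_norm_sub _ _ _

lemma len_self (p : Pt) : len p p = 0 := by
  rw [len_eq, sub_self, norm_zero]

lemma len_comm (p q : Pt) : len p q = len q p := by
  rw [len_eq, len_eq, norm_sub_rev]

lemma len_nonneg (p q : Pt) : 0 ≤ len p q := Real.sqrt_nonneg _

lemma eq_of_len (p q : Pt) (h : len p q = 0) : p = q := by
  rw [len_eq, norm_eq_zero, sub_eq_zero] at h
  have h1 := congrArg Complex.re h
  have h2 := congrArg Complex.im h
  exact Prod.ext h1 h2

lemma cx_pos (p q : Pt) (t : ℝ) : cx (pos p q t) = cx p + t * (cx q - cx p) := by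
  unfold cx pos
  apply Complex.ext
  · simp
  · simp

lemma len_pos (p q : Pt) (s t : ℝ) : len (pos p q s) (pos p q t) = |s - t| * len p q := by
  rw [len_eq, len_eq, cx_pos, cx_pos]
  have : cx p + s * (cx q - cx p) - (cx p + t * (cx q - cx p)) =
      ((s - t : ℝ) : ℂ) * (cx q - cx p) := by
    push_cast
    ring
  rw [this, norm_mul, Complex.norm_real, Real.norm_eq_abs, norm_sub_rev (cx q)]

lemma pos_zero (p q : Pt) : pos p q 0 = p := by
  unfold pos
  simp

lemma pos_one (p q : Pt) : pos p q 1 = q := by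
  unfold pos
  simp

/-- A path from `p` to the line. -/
def PathFrom (S : Set Rect) (n : ℝ) (p : Pt) (l : ℝ) : Prop :=
  0 ≤ l ∧ ∃ c : ℝ → Pt, (∀ s ∈ Set.Icc 0 l, ∀ t ∈ Set.Icc 0 l, len (c s) (c t) ≤ |s - t|) ∧
    c 0 = p ∧ (c l).1 = n ∧ ∀ t ∈ Set.Icc 0 l, c t ∈ Free S

lemma const_path {S : Set Rect} {n : ℝ} {p : Pt} (hp : p ∈ Free S) (h : p.1 = n) :
    PathFrom S n p 0 := by
  refine ⟨le_rfl, fun _ => p, fun s _ t _ => ?_, rfl, h, fun _ _ => hp⟩
  rw [len_self]
  exact abs_nonneg _

lemma concat {S : Set Rect} {n : ℝ} {p q : Pt} {l : ℝ}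
    (h : ∀ t, 0 ≤ t → t ≤ 1 → pos p q t ∈ Free S) (hq : PathFrom S n q l) :
    PathFrom S n p (len p q + l) := by
  obtain ⟨hl, c, h1, h2, h3, h4⟩ := hq
  rcases eq_or_lt_of_le (len_nonneg p q) with hd | hd
  · have : p = q := eq_of_len p q hd.symm
    subst this
    rw [← hd, zero_add]
    exact ⟨hl, c, h1, h2, h3, h4⟩
  set d := len p q with hd'
  have mono : ∀ s t, 0 ≤ s → s ≤ t → t ≤ d + l →
      len (if s ≤ d then pos p q (s / d) else c (s - d))
        (if t ≤ d then pos p q (t / d) else c (t - d)) ≤ t - s := by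
    intro s t hs hst ht
    by_cases ht' : t ≤ d
    · rw [if_pos ht', if_pos (hst.trans ht'), len_pos, ← hd']
      have e : s / d - t / d = (s - t) / d := by ring
      rw [e, abs_div, abs_of_pos hd, div_mul_cancel₀ _ hd.ne', abs_sub_comm,
        abs_of_nonneg (by linarith)]
    · rw [if_neg ht']
      push Not at ht'
      by_cases hs' : s ≤ d
      · rw [if_pos hs']
        refine (len_tri _ q _).trans ?_
        have e1 : len (pos p q (s / d)) q = d - s := by
          have e0 := len_pos p q (s / d) 1
          rw [pos_one] at e0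
          rw [e0, ← hd']
          have e2 : s / d - 1 = (s - d) / d := by field_simp
          rw [e2, abs_div, abs_of_pos hd, div_mul_cancel₀ _ hd.ne', abs_sub_comm,
            abs_of_nonneg (by linarith)]
        have e3 : len q (c (t - d)) ≤ t - d := by
          have := h1 0 ⟨le_rfl, hl⟩ (t - d) ⟨by linarith, by linarith⟩
          rw [h2, zero_sub, abs_neg, abs_of_nonneg (by linarith)] at this
          exact this
        rw [e1]
        linarith
      · rw [if_neg hs']
        push Not at hs'
        have := h1 (s - d) ⟨by linarith, by linarith⟩ (t - d) ⟨by linarith, by linarith⟩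
        refine this.trans (le_of_eq ?_)
        rw [abs_sub_comm, abs_of_nonneg (by linarith)]
        ring
  refine ⟨by linarith, fun t => if t ≤ d then pos p q (t / d) else c (t - d), ?_, ?_, ?_, ?_⟩
  · intro s hs t ht
    rcases le_total s t with hst | hst
    · rw [abs_sub_comm, abs_of_nonneg (by linarith)]
      exact mono s t hs.1 hst ht.2
    · rw [abs_of_nonneg (by linarith), len_comm]
      exact mono t s ht.1 hst hs.2
  · simp only
    rw [if_pos hd.le, zero_div, pos_zero]
  · simp only
    by_cases hl0 : d + l ≤ d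
    · have : l = 0 := by linarith
      subst this
      rw [if_pos hl0, add_zero, div_self hd.ne', pos_one, ← h2]
      exact h3
    · rw [if_neg hl0, add_sub_cancel_left]
      exact h3
  · intro t ht
    simp only
    by_cases ht' : t ≤ d
    · rw [if_pos ht']
      exact h _ (div_nonneg ht.1 hd.le) ((div_le_one hd).2 ht')
    · rw [if_neg ht']
      push Not at ht'
      exact h4 _ ⟨by linarith, by linarith [ht.2]⟩

lemma seg_free {S : Set Rect} {n : ℝ} {p p' : Pt} (hp : p ∈ Free S) (hp' : p' ∈ Free S)
    (hn : p.1 ≤ n) (h : stopAt S n p p' = p') :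
    ∀ t, 0 ≤ t → t ≤ 1 → pos p p' t ∈ Free S := by
  intro t ht0 ht1
  rcases eq_or_ne p p' with he | hne
  · subst he
    have : pos p p t = p := by
      unfold pos
      simp
    rw [this]
    exact hp
  rcases eq_or_lt_of_le ht1 with ht | ht
  · rw [ht, pos_one]
    exact hp'
  have h0 : (0 : ℝ) ∈ okTimes S n p p' := by
    refine ⟨le_rfl, zero_le_one, fun s hs hs' => ?_⟩
    have : s = 0 := le_antisymm hs' hs
    rw [this, pos_zero]
    exact ⟨hp, hn⟩
  have hT : sSup (okTimes S n p p') = 1 := by
    have e1 : len (pos p p' (sSup (okTimes S n p p'))) (pos p p' 1) = 0 := by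
      rw [pos_one]
      unfold stopAt at h
      rw [h, len_self]
    rw [len_pos] at e1
    rcases mul_eq_zero.1 e1 with e2 | e2
    · have := abs_eq_zero.1 e2
      linarith
    · exact absurd (eq_of_len p p' e2) hne
  obtain ⟨t', ht', htt'⟩ := exists_lt_of_lt_csSup ⟨0, h0⟩ (by rw [hT]; exact ht :
    t < sSup (okTimes S n p p'))
  exact (ht'.2.2 t ht0 htt'.le).1

lemma main {S : Set Rect} {n : ℝ} (h1 : tStop) (h2 : tStopH) (h3 : tSlide) (hS : IsScene S) :
    ∀ k : ℕ, ∀ p ∈ Free S, p.1 ≤ n → n < p.1 + k → ∃ l, PathFrom S n p l := by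
  intro k
  induction k with
  | zero =>
    intro p _ hp1 hp2
    rw [Nat.cast_zero, add_zero] at hp2
    exact absurd hp1 (not_le.2 hp2)
  | succ k ih =>
    intro p hp hpn hk
    rcases eq_or_lt_of_le hpn with he | hlt
    · exact ⟨0, const_path hp he⟩
    obtain ⟨a1, a2, a3, a4, a5, a6⟩ := h1 S n p (n, p.2) hp hpn
    obtain ⟨b1, b2, b3, b4, b5⟩ := (h2 S n hS p hp hlt).1 n hpn le_rfl
    set p' := stopAt S n p (n, p.2) with hp'
    have hseg := seg_free hp a1 hpn a4
    rcases eq_or_lt_of_le b3 with he | hlt'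
    · exact ⟨_, concat hseg (const_path a1 he)⟩
    obtain ⟨O, hO, hx, hy1, hy2⟩ := b4 hlt'
    have hOS : O ∈ S := hO.1
    have hw := hS.wide O hOS
    have hslide := (h3 S n hS O hOS).1
    have hseg1 : ∀ t, 0 ≤ t → t ≤ 1 → pos p' (O.x1, O.y2) t ∈ Free S := by
      intro t ht0 ht1
      apply hslide
      · refine ⟨?_, ?_, ?_, ?_⟩
        · simp only [pos]
          rw [hx]
          linarith
        · simp only [pos]
          rw [← hx]
          linarith
        · simp only [pos]
          rw [b1]
          nlinarith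
        · simp only [pos]
          rw [b1]
          nlinarith
      · rintro ⟨c1, -⟩
        simp only [pos] at c1
        rw [hx] at c1
        linarith
    have hseg2 : ∀ t, 0 ≤ t → t ≤ 1 → pos (O.x1, O.y2) (min O.x2 n, O.y2) t ∈ Free S := by
      intro t ht0 ht1
      have m1 : min O.x2 n ≤ O.x2 := min_le_left _ _
      have m2 : O.x1 ≤ min O.x2 n := le_min (by linarith) (by rw [hx]; exact b3)
      apply hslide
      · refine ⟨?_, ?_, ?_, ?_⟩
        · simp only [pos]
          nlinarith
        · simp only [pos]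
          nlinarith
        · simp only [pos]
          linarith
        · simp only [pos]
          linarith
      · rintro ⟨-, -, -, c4⟩
        simp only [pos] at c4
        linarith
    have hfree : ((min O.x2 n, O.y2) : Pt) ∈ Free S := by
      have := hseg2 1 zero_le_one le_rfl
      rwa [pos_one] at this
    have hrest : ∃ l, PathFrom S n (min O.x2 n, O.y2) l := by
      rcases le_or_gt n O.x2 with hn | hn
      · exact ⟨0, const_path hfree (min_eq_right hn)⟩
      · refine ih _ hfree (min_le_right _ _) ?_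
        show n < min O.x2 n + k
        rw [min_eq_left hn.le]
        push_cast at hk
        linarith
    obtain ⟨l, hl⟩ := hrest
    exact ⟨_, concat hseg (concat hseg1 (concat hseg2 hl))⟩

end Exist_

open Exist_ in
/-- EXIST -/
theorem pExist (h1 : tStop) (h2 : tStopH) (h3 : tSlide) : tExist := by
  intro S n hS hn
  have h0 : ((0, 0) : Pt) ∈ Free S := by
    intro O hO hin
    exact hS.origin O hO ⟨hin.1.le, hin.2.1.le, hin.2.2.1.le, hin.2.2.2.le⟩
  obtain ⟨l, hl, c, c1, c2, c3, c4⟩ := main h1 h2 h3 hS (⌈n⌉₊ + 1) (0, 0) h0 hn.le (by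
    have := Nat.le_ceil n
    push_cast
    linarith)
  exact ⟨l, hl, c, c1, c2, c3, c4⟩

end Pool.Agent.WallR
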