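import Pool.Agent.WallR.Targets

/-!
GOTO: the vertical move to a substrip is a walker.
-/

open scoped BigOperators ENNReal

namespace Pool.Agent.WallR

open Prog

namespace Goto_

variable {S : Set Rect} {n : ℝ} {α : Type}

/-- `P` from `p` reaches the line for sure, at the cost `c`. -/
def Line (S : Set Rect) (n : ℝ) (P : Prog α) (p : Pt) (c : ℝ) : Prop :=
  (∀ φ, ex S n P p φ = φ none) ∧ co S n P p = c ∧ ∀ Q, sure S n P p Q ↔ Q none

/-- `P` from `p` behaves as `P'` from `p'`, up to the additional cost `c`. -/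
def Sem (S : Set Rect) (n : ℝ) (P : Prog α) (p : Pt) (P' : Prog α) (p' : Pt) (c : ℝ) : Prop :=
  (∀ φ, ex S n P p φ = ex S n P' p' φ) ∧ co S n P p = c + co S n P' p' ∧
    ∀ Q, sure S n P p Q ↔ sure S n P' p' Q

lemma Sem.trans {P P' P'' : Prog α} {p p' p'' : Pt} {c c' : ℝ} (h : Sem S n P p P' p' c)
    (h' : Sem S n P' p' P'' p'' c') : Sem S n P p P'' p'' (c + c') :=
  ⟨fun φ => (h.1 φ).trans (h'.1 φ), by rw [h.2.1, h'.2.1]; ring,
    fun Q => (h.2.2 Q).trans (h'.2.2 Q)⟩

lemma Sem.line {P P' : Prog α} {p p' : Pt} {c c' : ℝ} (h : Sem S n P p P' p' c)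
    (h' : Line S n P' p' c') : Line S n P p (c + c') :=
  ⟨fun φ => (h.1 φ).trans (h'.1 φ), by rw [h.2.1, h'.2.1],
    fun Q => (h.2.2 Q).trans (h'.2 |>.2 Q)⟩

lemma move_line {q q' p : Pt} {g : Pt → Set Rect → Prog α} (h : stopAt S n p q = q')
    (hn : n ≤ q'.1) : Line S n (move q g) p (len p q') := by
  subst h
  refine ⟨fun φ => ?_, ?_, fun Q => ?_⟩
  · rw [ex_move, if_pos hn]
  · rw [co_move, if_pos hn, add_zero]
  · rw [sure_move, if_pos hn]

lemma move_sem {q q' p : Pt} {g : Pt → Set Rect → Prog α} (h : stopAt S n p q = q')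
    (hn : q'.1 < n) : Sem S n (move q g) p (g q' (touched S p q')) q' (len p q') := by
  subst h
  refine ⟨fun φ => ?_, ?_, fun Q => ?_⟩
  · rw [ex_move, if_neg (not_le.mpr hn)]
  · rw [co_move, if_neg (not_le.mpr hn)]
  · rw [sure_move, if_neg (not_le.mpr hn)]

lemma len_vert (x y y' : ℝ) : len (x, y) (x, y') = |y' - y| := by
  unfold len
  simp only [sub_self]
  rw [show (0 : ℝ) ^ 2 + (y - y') ^ 2 = (y - y') ^ 2 by ring, Real.sqrt_sq_eq_abs, abs_sub_comm]

lemma len_horiz (x x' y : ℝ) (h : x ≤ x') : len (x, y) (x', y) = x' - x := by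
  unfold len
  simp only [sub_self]
  rw [show (x - x') ^ 2 + (0 : ℝ) ^ 2 = (x' - x) ^ 2 by ring, Real.sqrt_sq (by linarith)]

lemma ok_goto (y' R : ℝ) (k : ℕ) (p : Pt) : (goto y' R k p).Ok := by
  induction k generalizing p with
  | zero => exact trivial
  | succ k ih =>
    unfold goto
    intro p' T
    dsimp only
    split_ifs with h
    · exact trivial
    · cases hO : vblock T p' with
      | none => exact trivial
      | some O =>
        dsimp only
        split_ifs
        · exact fun _ _ _ _ => trivial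
        · exact fun _ _ p3 _ => ih p3
        · exact fun _ _ p3 _ => ih p3
        · exact fun _ _ => trivial

/-- The information on a step. -/
structure Info (S : Set Rect) (n y' : ℝ) (p : Pt) where
  /-- ordinate of the stop of the vertical move -/
  v : ℝ
  /-- the blocking obstacle -/
  O : Rect
  /-- ordinate after the detour -/
  z : ℝ
  hO : O ∈ S
  h1 : O.x1 < p.1
  h2 : p.1 < O.x2
  dist : |v - p.2| + |z - v| + |y' - z| = |y' - p.2|
  hz : z = y' ∨ |y' - z| ≤ |y' - p.2| - 1
  hzf : (O.x2, z) ∈ Free S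
  low : ∀ lo hi, lo ≤ y' → y' ≤ hi → lo ≤ p.2 → p.2 ≤ hi → lo ≤ z ∧ z ≤ hi
  stepL : ∀ R k, p.1 ≤ R → R ≤ n → R < O.x2 → R = n →
    Line S n (goto y' R (k + 1) p) p (|v - p.2| + (R - p.1))
  stepN : ∀ R k, p.1 ≤ R → R ≤ n → R < O.x2 → R < n →
    Sem S n (goto y' R (k + 1) p) p (ret none) (R, v) (|v - p.2| + (R - p.1))
  stepL' : ∀ R k, p.1 ≤ R → R ≤ n → O.x2 ≤ R → O.x2 = n →
    Line S n (goto y' R (k + 1) p) p (|v - p.2| + (O.x2 - p.1))
  stepS : ∀ R k, p.1 ≤ R → R ≤ n → O.x2 ≤ R → O.x2 < n → z = y' →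
    Sem S n (goto y' R (k + 1) p) p (ret (some (O.x2, z))) (O.x2, z)
      (|v - p.2| + (O.x2 - p.1) + |z - v|)
  stepG : ∀ R k, p.1 ≤ R → R ≤ n → O.x2 ≤ R → O.x2 < n → z ≠ y' →
    Sem S n (goto y' R (k + 1) p) p (goto y' R k (O.x2, z)) (O.x2, z)
      (|v - p.2| + (O.x2 - p.1) + |z - v|)

/-- One step, when the vertical move is blocked: all programs in terms of the stop `v` and the
obstacle `O`. -/
lemma blocked (h3 : tSlide) (hS : IsScene S) {y' : ℝ} {p : Pt}
    (hn : p.1 < n) (v : ℝ) (hv : stopAt S n p (p.1, y') = (p.1, v))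
    (hvy : v ≠ y') (hbet : |v - p.2| + |y' - v| = |y' - p.2|)
    (O : Rect) (hOT : O ∈ touched S p (p.1, v)) (hx1 : O.x1 < p.1) (hx2 : p.1 < O.x2)
    (hside : (O.y1 = v ∧ v < y') ∨ (O.y2 = v ∧ y' < v)) : Nonempty (Info S n y' p) := by
  classical
  have hO : O ∈ S := hOT.1
  have htall := hS.tall O hO
  have hwide := hS.wide O hO
  obtain ⟨sl1, sl2, sl3, sl4⟩ := h3 S n hS O hO
  have hbody : ((p.1, v) : Pt) ∈ O.body := by
    refine ⟨hx1.le, hx2.le, ?_, ?_⟩ <;> rcases hside with ⟨e, _⟩ | ⟨e, _⟩ <;> simp only <;> linarith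
  -- the test finds the obstacle
  have hvb : vblock (touched S p (p.1, v)) (p.1, v) = some O := by
    have hex : ∃ O ∈ touched S p (p.1, v), O.x1 < ((p.1, v) : Pt).1 ∧ ((p.1, v) : Pt).1 < O.x2 ∧
        (O.y1 = ((p.1, v) : Pt).2 ∨ O.y2 = ((p.1, v) : Pt).2) := by
      refine ⟨O, hOT, hx1, hx2, ?_⟩
      rcases hside with ⟨e, _⟩ | ⟨e, _⟩
      · exact Or.inl e
      · exact Or.inr e
    unfold vblock
    rw [dif_pos hex]
    have hsp := hex.choose_spec
    have hS' : hex.choose ∈ S := hsp.1.1
    have ht' := hS.tall _ hS'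
    have hb' : ((p.1, v) : Pt) ∈ hex.choose.body := by
      refine ⟨hsp.2.1.le, hsp.2.2.1.le, ?_, ?_⟩ <;> rcases hsp.2.2.2 with e | e <;>
        simp only at e ⊢ <;> linarith
    rw [sl2 _ hbody _ hS' hb']
  have hs0 : stopAt S n p (p.1, y') = (p.1, v) := hv
  have hm0 : ∀ (R : ℝ) (k : ℕ), Sem S n (goto y' R (k + 1) p) p
      (if O.x2 ≤ R then
          move (O.x2, v) fun _ _ =>
            if O.y1 ≤ y' ∧ y' ≤ O.y2 then move (O.x2, y') fun p3 _ => ret (some p3)
            else move (O.x2, if v = O.y1 then O.y2 else O.y1) fun p3 _ => goto y' R k p3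
        else move (R, v) fun _ _ => ret none) (p.1, v) |v - p.2| := by
    intro R k
    have h := move_sem (S := S) (n := n) (q := (p.1, y')) (q' := (p.1, v)) (p := p)
      (g := fun p' T =>
      if p'.2 = y' then ret (some p') else
      match vblock T p' with
      | none => ret none
      | some O =>
        if O.x2 ≤ R then
          move (O.x2, p'.2) fun _ _ =>
            if O.y1 ≤ y' ∧ y' ≤ O.y2 then move (O.x2, y') fun p3 _ => ret (some p3)
            else move (O.x2, if p'.2 = O.y1 then O.y2 else O.y1) fun p3 _ => goto y' R k p3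
        else move (R, p'.2) fun _ _ => ret none) hs0 hn
    have hl : len p (p.1, v) = |v - p.2| := len_vert p.1 p.2 v
    rw [hl] at h
    simp only [if_neg hvy, hvb] at h
    exact h
  -- the ordinate of the side
  have hvO : v = O.y1 ∨ v = O.y2 := by
    rcases hside with ⟨e, _⟩ | ⟨e, _⟩
    · exact Or.inl e.symm
    · exact Or.inr e.symm
  have hy12 : O.y1 ≤ v ∧ v ≤ O.y2 := ⟨hbody.2.2.1, hbody.2.2.2⟩
  -- horizontal slides
  have hsl : ∀ x, p.1 ≤ x → x ≤ O.x2 → x ≤ n → stopAt S n (p.1, v) (x, v) = (x, v) := by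
    intro x hx hx' hxn
    exact sl4 p.1 x v hvO hx1.le hx2.le (hx1.le.trans hx) hx' hn.le hxn
  -- the ordinate after the detour
  obtain ⟨z, hz1, hz2, hz3⟩ : ∃ z, (O.y1 ≤ z ∧ z ≤ O.y2) ∧
      (z = y' ↔ (O.y1 ≤ y' ∧ y' ≤ O.y2)) ∧
      (z ≠ y' → z = (if v = O.y1 then O.y2 else O.y1)) := by
    by_cases hc : O.y1 ≤ y' ∧ y' ≤ O.y2
    · exact ⟨y', hc, by simp [hc], fun h => absurd rfl h⟩
    · have hin : O.y1 ≤ (if v = O.y1 then O.y2 else O.y1) ∧
          (if v = O.y1 then O.y2 else O.y1) ≤ O.y2 := by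
        split_ifs
        · exact ⟨by linarith, le_rfl⟩
        · exact ⟨le_rfl, by linarith⟩
      refine ⟨(if v = O.y1 then O.y2 else O.y1), hin, ⟨fun h => ?_, fun h => absurd h hc⟩,
        fun _ => rfl⟩
      rw [h] at hin
      exact hin
  have hzd : |z - v| + |y' - z| = |y' - v| ∧ (z = y' ∨ |y' - z| ≤ |y' - v| - 1) := by
    by_cases hzy : z = y'
    · subst hzy
      simp
    · have hc : ¬ (O.y1 ≤ y' ∧ y' ≤ O.y2) := fun h => hzy (hz2.mpr h)
      have hz4 := hz3 hzy
      rcases hside with ⟨e, hlt⟩ | ⟨e, hlt⟩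
      · rw [if_pos e.symm] at hz4
        have h5 : O.y2 < y' := by
          by_contra h6
          exact hc ⟨by linarith, not_lt.mp h6⟩
        rw [hz4, abs_of_nonneg (by linarith), abs_of_nonneg (by linarith),
          abs_of_nonneg (by linarith)]
        exact ⟨by ring, Or.inr (by linarith)⟩
      · have hne : v ≠ O.y1 := by
          intro h
          linarith
        rw [if_neg hne] at hz4
        have h5 : y' < O.y1 := by
          by_contra h6
          exact hc ⟨not_lt.mp h6, by linarith⟩
        rw [hz4, abs_of_nonpos (by linarith), abs_of_nonpos (by linarith),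
          abs_of_nonpos (by linarith)]
        exact ⟨by ring, Or.inr (by linarith)⟩
  have hzb : ((O.x2, z) : Pt) ∈ O.body := ⟨by simp only; linarith, le_rfl, hz1.1, hz1.2⟩
  have hzi : ((O.x2, z) : Pt) ∉ O.inner := fun h => lt_irrefl _ h.2.1
  have hvs : ∀ z', O.y1 ≤ z' → z' ≤ O.y2 → O.x2 ≤ n →
      stopAt S n (O.x2, v) (O.x2, z') = (O.x2, z') := by
    intro z' hz' hz'' hxn
    exact sl3 O.x2 v z' (Or.inr rfl) hxn hy12.1 hy12.2 hz' hz''
  have hstep2 : ∀ (R : ℝ) (k : ℕ), p.1 ≤ R → R ≤ n → O.x2 ≤ R → O.x2 < n →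
      Sem S n (goto y' R (k + 1) p) p
        (if O.y1 ≤ y' ∧ y' ≤ O.y2 then move (O.x2, y') fun p3 _ => ret (some p3)
            else move (O.x2, if v = O.y1 then O.y2 else O.y1) fun p3 _ => goto y' R k p3)
        (O.x2, v) (|v - p.2| + (O.x2 - p.1)) := by
    intro R k hpR hRn hOR hOn
    have h := hm0 R k
    rw [if_pos hOR] at h
    have h' := move_sem (S := S) (n := n) (q := (O.x2, v)) (q' := (O.x2, v)) (p := (p.1, v))
      (g := fun _ _ =>
            if O.y1 ≤ y' ∧ y' ≤ O.y2 then move (O.x2, y') fun p3 _ => ret (some p3)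
            else move (O.x2, if v = O.y1 then O.y2 else O.y1) fun p3 _ => goto y' R k p3)
      (hsl O.x2 hx2.le le_rfl hOn.le) hOn
    rw [len_horiz _ _ _ hx2.le] at h'
    exact h.trans h'
  refine ⟨{ v := v, O := O, z := z, hO := hO, h1 := hx1, h2 := hx2,
            dist := ?_, hz := ?_, hzf := sl1 _ hzb hzi, low := ?_, stepL := ?_, stepN := ?_,
            stepL' := ?_, stepS := ?_, stepG := ?_ }⟩
  · rw [add_assoc, hzd.1, hbet]
  · rcases hzd.2 with h | h
    · exact Or.inl h
    · refine Or.inr ?_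
      have := abs_nonneg (v - p.2)
      linarith
  · intro lo hi e1 e2 e3 e4
    -- z is between p.2 and y'
    have hd : |z - p.2| + |y' - z| ≤ |y' - p.2| := by
      have h5 : |z - p.2| ≤ |z - v| + |v - p.2| := abs_sub_le _ _ _
      linarith [hzd.1]
    constructor
    · by_contra hlt
      rw [not_le] at hlt
      have h6 : z - p.2 < 0 := by linarith
      have h7 : 0 < y' - z := by linarith
      rw [abs_of_neg h6, abs_of_pos h7] at hd
      rcases abs_cases (y' - p.2) with ⟨h8, _⟩ | ⟨h8, _⟩ <;> linarith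
    · by_contra hlt
      rw [not_le] at hlt
      have h6 : 0 < z - p.2 := by linarith
      have h7 : y' - z < 0 := by linarith
      rw [abs_of_pos h6, abs_of_neg h7] at hd
      rcases abs_cases (y' - p.2) with ⟨h8, _⟩ | ⟨h8, _⟩ <;> linarith
  · intro R k hpR hRn hRO hRn'
    have h := hm0 R k
    rw [if_neg (not_le.mpr hRO)] at h
    have h' := move_line (S := S) (n := n) (q := (R, v)) (q' := (R, v)) (p := (p.1, v))
      (g := fun _ _ => ret (α := Option Pt) none) (hsl R hpR hRO.le hRn) hRn'.ge
    rw [len_horiz _ _ _ hpR] at h'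
    exact h.line h'
  · intro R k hpR hRn hRO hRn'
    have h := hm0 R k
    rw [if_neg (not_le.mpr hRO)] at h
    have h' := move_sem (S := S) (n := n) (q := (R, v)) (q' := (R, v)) (p := (p.1, v))
      (g := fun _ _ => ret (α := Option Pt) none) (hsl R hpR hRO.le hRn) hRn'
    rw [len_horiz _ _ _ hpR] at h'
    exact h.trans h'
  · intro R k hpR hRn hOR hOn
    have h := hm0 R k
    rw [if_pos hOR] at h
    have h' := move_line (S := S) (n := n) (q := (O.x2, v)) (q' := (O.x2, v)) (p := (p.1, v))
      (g := fun _ _ =>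
            if O.y1 ≤ y' ∧ y' ≤ O.y2 then move (O.x2, y') fun p3 _ => ret (some p3)
            else move (O.x2, if v = O.y1 then O.y2 else O.y1) fun p3 _ => goto y' R k p3)
      (hsl O.x2 hx2.le le_rfl hOn.le) hOn.ge
    rw [len_horiz _ _ _ hx2.le] at h'
    exact h.line h'
  · intro R k hpR hRn hOR hOn hzy
    have h := hstep2 R k hpR hRn hOR hOn
    have hc := hz2.mp hzy
    rw [if_pos hc] at h
    have h' := move_sem (S := S) (n := n) (q := (O.x2, y')) (q' := (O.x2, y')) (p := (O.x2, v))
      (g := fun p3 _ => ret (some p3)) (hvs y' hc.1 hc.2 hOn.le) hOn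
    rw [len_vert] at h'
    rw [hzy]
    exact h.trans h'
  · intro R k hpR hRn hOR hOn hzy
    have h := hstep2 R k hpR hRn hOR hOn
    have hc : ¬ (O.y1 ≤ y' ∧ y' ≤ O.y2) := fun h => hzy (hz2.mpr h)
    rw [if_neg hc, ← hz3 hzy] at h
    have h' := move_sem (S := S) (n := n) (q := (O.x2, z)) (q' := (O.x2, z)) (p := (O.x2, v))
      (g := fun p3 _ => goto y' R k p3) (hvs z hz1.1 hz1.2 hOn.le) hOn
    rw [len_vert] at h'
    exact h.trans h'

/-- One step. -/
lemma step (h1 : tStop) (h2 : tStopV) (h3 : tSlide) (hS : IsScene S) (y' : ℝ) {p : Pt}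
    (hf : p ∈ Free S) (hn : p.1 < n) :
    (((p.1, y') : Pt) ∈ Free S ∧ ∀ R k, Sem S n (goto y' R (k + 1) p) p
      (ret (some (p.1, y'))) (p.1, y') |y' - p.2|) ∨ Nonempty (Info S n y' p) := by
  classical
  obtain ⟨a1, -, -, -, -, -⟩ := h1 S n p (p.1, y') hf hn.le
  obtain ⟨b1, b2, b3⟩ := h2 S n hS p y' hf hn
  obtain ⟨v, hv⟩ : ∃ v, stopAt S n p (p.1, y') = (p.1, v) :=
    ⟨(stopAt S n p (p.1, y')).2, Prod.ext b1 rfl⟩
  rw [hv] at a1 b2 b3
  simp only at b2 b3
  by_cases hvy : v = y'
  · subst hvy
    refine Or.inl ⟨a1, fun R k => ?_⟩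
    have h := move_sem (S := S) (n := n) (q := (p.1, v)) (q' := (p.1, v)) (p := p)
      (g := fun p' T =>
      if p'.2 = v then ret (some p') else
      match vblock T p' with
      | none => ret none
      | some O =>
        if O.x2 ≤ R then
          move (O.x2, p'.2) fun _ _ =>
            if O.y1 ≤ v ∧ v ≤ O.y2 then move (O.x2, v) fun p3 _ => ret (some p3)
            else move (O.x2, if p'.2 = O.y1 then O.y2 else O.y1) fun p3 _ => goto v R k p3
        else move (R, p'.2) fun _ _ => ret none) hv hn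
    have hl : len p (p.1, v) = |v - p.2| := len_vert p.1 p.2 v
    rw [hl] at h
    simp only [if_true] at h
    exact h
  · right
    rcases le_total p.2 y' with hle | hle
    · obtain ⟨c1, c2, c3⟩ := b2 hle
      obtain ⟨O, hOT, hx1, hx2, hy⟩ := c3 (lt_of_le_of_ne c2 hvy)
      refine blocked h3 hS hn v hv hvy ?_ O hOT hx1 hx2
        (Or.inl ⟨hy, lt_of_le_of_ne c2 hvy⟩)
      rw [abs_of_nonneg (by linarith), abs_of_nonneg (by linarith), abs_of_nonneg (by linarith)]
      ring
    · obtain ⟨c1, c2, c3⟩ := b3 hle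
      obtain ⟨O, hOT, hx1, hx2, hy⟩ := c3 (lt_of_le_of_ne c1 (Ne.symm hvy))
      refine blocked h3 hS hn v hv hvy ?_ O hOT hx1 hx2
        (Or.inr ⟨hy, lt_of_le_of_ne c1 (Ne.symm hvy)⟩)
      rw [abs_of_nonpos (by linarith), abs_of_nonpos (by linarith), abs_of_nonpos (by linarith)]
      ring

/-- All outcomes keep the abscissa. -/
lemma weak (h1 : tStop) (h2 : tStopV) (h3 : tSlide) (hS : IsScene S) (y' : ℝ) :
    ∀ (k : ℕ) (R : ℝ) (p : Pt), p ∈ Free S → p.1 < n → p.1 ≤ R → R ≤ n →
      sure S n (goto y' R k p) p (fun o => ∀ x, view o = some x → p.1 ≤ x.1) := by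
  intro k
  induction k with
  | zero =>
    intro R p _ _ _ _
    change sure S n (ret none) p _
    rw [sure_ret]
    intro x hx
    simp [view] at hx
  | succ k ih =>
    intro R p hf hn hpR hRn
    rcases step h1 h2 h3 hS y' hf hn with ⟨_, h⟩ | hI
    · rw [(h R k).2.2, sure_ret]
      intro x hx
      simp only [view, Option.some.injEq] at hx
      rw [← hx]
    · obtain ⟨I⟩ := hI
      rcases lt_or_ge R I.O.x2 with hR | hR
      · rcases hRn.lt_or_eq with hlt | heq
        · rw [(I.stepN R k hpR hRn hR hlt).2.2, sure_ret]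
          intro x hx
          simp [view] at hx
        · rw [(I.stepL R k hpR hRn hR heq).2.2]
          intro x hx
          simp [view] at hx
      · rcases (hR.trans hRn).lt_or_eq with hlt | heq
        · by_cases hz : I.z = y'
          · rw [(I.stepS R k hpR hRn hR hlt hz).2.2, sure_ret]
            intro x hx
            simp only [view, Option.some.injEq] at hx
            rw [← hx]
            exact I.h2.le
          · rw [(I.stepG R k hpR hRn hR hlt hz).2.2]
            refine sure_mono (ih R (I.O.x2, I.z) I.hzf hlt hR hRn) ?_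
            intro o ho x hx
            exact I.h2.le.trans (ho x hx)
        · rw [(I.stepL' R k hpR hRn hR heq).2.2]
          intro x hx
          simp [view] at hx

/-- The outcomes. -/
lemma outc (h1 : tStop) (h2 : tStopV) (h3 : tSlide) (hS : IsScene S) (y' a b lo hi : ℝ)
    (hlo : lo ≤ y') (hhi : y' ≤ hi) (ha : a ≤ y') (hb : y' ≤ b) :
    ∀ (k : ℕ) (R : ℝ) (p : Pt), Dom S n lo hi p → p.1 ≤ R → R ≤ n → |y' - p.2| < k →
      sure S n (goto y' R k p) p (WOut S n a b R p) := by
  intro k
  induction k with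
  | zero =>
    intro R p _ _ _ hk
    have := abs_nonneg (y' - p.2)
    rw [Nat.cast_zero] at hk
    linarith
  | succ k ih =>
    intro R p hD hpR hRn hk
    rcases step h1 h2 h3 hS y' hD.free hD.xn with ⟨hfr, h⟩ | hI
    · rw [(h R k).2.2, sure_ret]
      exact ⟨rfl, ⟨hfr, hD.x0, hD.xn, ha, hb⟩, le_rfl, hpR⟩
    · obtain ⟨I⟩ := hI
      rcases lt_or_ge R I.O.x2 with hR | hR
      · rcases hRn.lt_or_eq with hlt | heq
        · rw [(I.stepN R k hpR hRn hR hlt).2.2, sure_ret]
          exact hlt
        · rw [(I.stepL R k hpR hRn hR heq).2.2]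
          exact heq.ge
      · rcases (hR.trans hRn).lt_or_eq with hlt | heq
        · by_cases hz : I.z = y'
          · rw [(I.stepS R k hpR hRn hR hlt hz).2.2, sure_ret]
            refine ⟨rfl, ⟨I.hzf, hD.x0.trans I.h2.le, hlt, ?_, ?_⟩, I.h2.le, hR⟩
            · rw [hz]; exact ha
            · rw [hz]; exact hb
          · rw [(I.stepG R k hpR hRn hR hlt hz).2.2]
            have hl := I.low lo hi hlo hhi hD.ylo hD.yhi
            have hd : |y' - I.z| < k := by
              rcases I.hz with e | e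
              · exact absurd e hz
              · push_cast at hk
                linarith
            refine sure_mono (ih R (I.O.x2, I.z)
              ⟨I.hzf, hD.x0.trans I.h2.le, hlt, hl.1, hl.2⟩ hR hRn hd) ?_
            intro o ho
            match o, ho with
            | none, ho => exact ho
            | some (none, _), ho => exact ho
            | some (some x, p'), ho => exact ⟨ho.1, ho.2.1, I.h2.le.trans ho.2.2.1, ho.2.2.2⟩
        · rw [(I.stepL' R k hpR hRn hR heq).2.2]
          exact heq ▸ hR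

/-- Cutting. -/
lemma cutc (h1 : tStop) (h2 : tStopV) (h3 : tSlide) (hS : IsScene S) (y' : ℝ) :
    ∀ (k : ℕ) (r R : ℝ) (p : Pt) (psi : Option Pt → ℝ), p ∈ Free S → p.1 < n → p.1 ≤ r →
      r ≤ R → R ≤ n →
      EV S n (goto y' r k p) p psi = EV S n (goto y' R k p) p (fun o => psi (cut r o)) := by
  intro k
  induction k with
  | zero =>
    intro r R p psi _ _ _ _ _
    rfl
  | succ k ih =>
    intro r R p psi hf hn hpr hrR hRn
    have hpR := hpr.trans hrR
    have hrn := hrR.trans hRn
    rcases step h1 h2 h3 hS y' hf hn with ⟨_, h⟩ | hI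
    · unfold EV
      rw [(h r k).1, (h R k).1, ex_ret, ex_ret]
      simp only [view, cut]
      rw [if_pos hpr]
    · obtain ⟨I⟩ := hI
      rcases lt_or_ge r I.O.x2 with hr | hr
      · -- the run with the limit `r` gives `none`
        have hL : EV S n (goto y' r (k + 1) p) p psi = psi none := by
          unfold EV
          rcases hrn.lt_or_eq with hlt | heq
          · rw [(I.stepN r k hpr hrn hr hlt).1, ex_ret]
            rfl
          · rw [(I.stepL r k hpr hrn hr heq).1]
            rfl
        rw [hL]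
        unfold EV
        rcases lt_or_ge R I.O.x2 with hR | hR
        · rcases hRn.lt_or_eq with hlt | heq
          · rw [(I.stepN R k hpR hRn hR hlt).1, ex_ret]
            rfl
          · rw [(I.stepL R k hpR hRn hR heq).1]
            rfl
        · rcases (hR.trans hRn).lt_or_eq with hlt | heq
          · by_cases hz : I.z = y'
            · rw [(I.stepS R k hpR hRn hR hlt hz).1, ex_ret]
              simp only [view, cut]
              rw [if_neg (not_le.mpr hr)]
            · rw [(I.stepG R k hpR hRn hR hlt hz).1]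
              have hw := weak h1 h2 h3 hS y' k R (I.O.x2, I.z) I.hzf hlt hR hRn
              have hc := ex_congr_sure (φ := fun o => psi (cut r (view o)))
                (ψ := fun _ => psi none) hw (by
                  intro o ho
                  cases hv : view o with
                  | none => rfl
                  | some x =>
                    have := ho x hv
                    simp only [cut]
                    rw [if_neg (not_le.mpr (lt_of_lt_of_le hr this))])
              rw [hc, ex_const (ok_goto _ _ _ _)]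
          · rw [(I.stepL' R k hpR hRn hR heq).1]
            rfl
      · have hR := hr.trans hrR
        unfold EV
        rcases (hR.trans hRn).lt_or_eq with hlt | heq
        · by_cases hz : I.z = y'
          · rw [(I.stepS R k hpR hRn hR hlt hz).1, (I.stepS r k hpr hrn hr hlt hz).1,
              ex_ret, ex_ret]
            simp only [view, cut]
            rw [if_pos hr]
          · rw [(I.stepG R k hpR hRn hR hlt hz).1, (I.stepG r k hpr hrn hr hlt hz).1]
            exact ih r R (I.O.x2, I.z) psi I.hzf hlt hr hrR hRn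
        · rw [(I.stepL' R k hpR hRn hR heq).1, (I.stepL' r k hpr hrn hr heq).1]
          rfl

/-- Shifting the progress. -/
lemma prog_shift (R : ℝ) (p q : Pt) (o : Option Pt) :
    prog R p o = prog R q o + (q.1 - p.1) := by
  cases o <;> simp only [prog, oo] <;> ring

/-- The cost. -/
lemma costc (h1 : tStop) (h2 : tStopV) (h3 : tSlide) (hS : IsScene S) (y' : ℝ) :
    ∀ (k : ℕ) (R : ℝ) (p : Pt), p ∈ Free S → p.1 < n → p.1 ≤ R → R ≤ n →
      co S n (goto y' R k p) p ≤ EV S n (goto y' R k p) p (prog R p) + |y' - p.2| := by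
  intro k
  induction k with
  | zero =>
    intro R p _ _ hpR _
    change (0 : ℝ) ≤ (R - p.1) + _
    have := abs_nonneg (y' - p.2)
    linarith
  | succ k ih =>
    intro R p hf hn hpR hRn
    rcases step h1 h2 h3 hS y' hf hn with ⟨_, h⟩ | hI
    · unfold EV
      rw [(h R k).1, (h R k).2.1, ex_ret, co_ret]
      simp only [view, prog, oo]
      linarith
    · obtain ⟨I⟩ := hI
      have hd := I.dist
      have e1 := abs_nonneg (I.v - p.2)
      have e2 := abs_nonneg (I.z - I.v)
      have e3 := abs_nonneg (y' - I.z)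
      unfold EV
      rcases lt_or_ge R I.O.x2 with hR | hR
      · rcases hRn.lt_or_eq with hlt | heq
        · rw [(I.stepN R k hpR hRn hR hlt).1, (I.stepN R k hpR hRn hR hlt).2.1, ex_ret, co_ret]
          simp only [view, prog, oo]
          linarith
        · rw [(I.stepL R k hpR hRn hR heq).1, (I.stepL R k hpR hRn hR heq).2.1]
          simp only [view, prog, oo]
          linarith
      · rcases (hR.trans hRn).lt_or_eq with hlt | heq
        · by_cases hz : I.z = y'
          · rw [(I.stepS R k hpR hRn hR hlt hz).1, (I.stepS R k hpR hRn hR hlt hz).2.1,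
              ex_ret, co_ret]
            simp only [view, prog, oo]
            linarith
          · rw [(I.stepG R k hpR hRn hR hlt hz).1, (I.stepG R k hpR hRn hR hlt hz).2.1]
            have hi := ih R (I.O.x2, I.z) I.hzf hlt hR hRn
            have hs : ex S n (goto y' R k (I.O.x2, I.z)) (I.O.x2, I.z)
                (fun o => prog R p (view o)) =
                ex S n (goto y' R k (I.O.x2, I.z)) (I.O.x2, I.z)
                (fun o => prog R (I.O.x2, I.z) (view o)) + (I.O.x2 - p.1) := by
              have e : (fun o => prog R p (view o)) =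
                  (fun o => prog R (I.O.x2, I.z) (view o) + (I.O.x2 - p.1)) := by
                funext o
                exact prog_shift R p (I.O.x2, I.z) (view o)
              rw [e, ex_add, ex_const (ok_goto _ _ _ _)]
            rw [hs]
            unfold EV at hi
            simp only at hi
            linarith
        · rw [(I.stepL' R k hpR hRn hR heq).1, (I.stepL' R k hpR hRn hR heq).2.1]
          simp only [view, prog, oo]
          linarith

end Goto_

open Goto_

theorem pGoto (h1 : tStop) (h2 : tStopV) (h3 : tSlide) : tGoto := by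
  intro S n hS lo hi a g F hg hla hah hF
  have hcl : ∀ y, a ≤ clampTo a g y ∧ clampTo a g y ≤ a + g := by
    intro y
    unfold clampTo
    exact ⟨le_max_left _ _, max_le (by linarith) (min_le_left _ _)⟩
  have hdist : ∀ p : Pt, Dom S n lo hi p → |clampTo a g p.2 - p.2| ≤ hi - lo := by
    intro p hD
    obtain ⟨c1, c2⟩ := hcl p.2
    have := hD.ylo
    have := hD.yhi
    rw [abs_le]
    constructor <;> linarith
  refine ⟨fun R p => ok_goto _ _ _ _, ?_, ?_, ?_⟩
  · intro R p hD hpR hRn
    obtain ⟨c1, c2⟩ := hcl p.2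
    exact outc h1 h2 h3 hS _ a (a + g) lo hi (hla.trans c1) (c2.trans hah) c1 c2 F R p hD hpR
      hRn (lt_of_le_of_lt (hdist p hD) hF)
  · intro r R p psi hD hpr hrR hRn
    exact cutc h1 h2 h3 hS _ F r R p psi hD.free hD.xn hpr hrR hRn
  · intro R p hD hpR hRn
    have h := costc h1 h2 h3 hS (clampTo a g p.2) F R p hD.free hD.xn hpR hRn
    have := hdist p hD
    linarith

end Pool.Agent.WallR
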