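import Pool.Agent.WallR.Seq

open scoped BigOperators

namespace Pool.Agent.WallR

open Prog

open Seq_

theorem pIter (h1 : tSeq) : tIter := by
  intro S n lo hi A u P hA hu hP T
  have walker : ∀ T : ℕ, IsWalker S n lo hi lo hi A (T * u) (fun R p => iter P T R p) := by
    intro T
    induction T with
    | zero =>
      refine ⟨fun R p => trivial, ?_, ?_, ?_⟩
      · intro R p hp hpR hRn
        simp only [iter, sure_ret]
        exact ⟨rfl, hp, le_rfl, hpR⟩
      · intro r R p psi hp hpr hrR hRn
        simp only [iter, EV, ex_ret, view, cut, if_pos hpr]
      · intro R p hp hpR hRn
        simp [iter, co_ret, EV, ex_ret, view, prog]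
    | succ T ih =>
      have := h1 S n lo hi lo hi lo hi A u A (T * u) P (fun R p => iter P T R p) hA le_rfl
        (by positivity) hP ih
      have e : ((T + 1 : ℕ) : ℝ) * u = u + T * u := by push_cast; ring
      rw [e]
      exact this
  refine ⟨walker T, ?_⟩
  intro th K hth hguar
  have key : ∀ (T j : ℕ), j ≤ K → ∀ (R : ℝ) (p : Pt), Dom S n lo hi p → th j ≤ p.1 → p.1 ≤ R →
      R ≤ n → T * EV S n (iter P T R p) p (below (th K)) ≤ 16 / 15 * (K - j) := by
    intro T
    induction T with
    | zero =>
      intro j hj R p _ _ _ _
      have : (j : ℝ) ≤ K := by exact_mod_cast hj
      simp only [Nat.cast_zero, zero_mul]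
      linarith
    | succ T ih =>
      intro j hj R p hp htp hpR hRn
      rcases hj.eq_or_lt with rfl | hjK
      · -- all outcomes are beyond the last threshold
        have h := EV_mono (walker (T + 1)) hp hpR hRn (f := below (th j)) (g := fun _ => 0)
          (by simp [below]) (fun x _ h _ => by
            simp only [below, oo_some]
            rw [if_neg (by linarith)])
        rw [EV_const ((walker (T + 1)).ok R p)] at h
        have : ((T + 1 : ℕ) : ℝ) * EV S n (iter P (T + 1) R p) p (below (th j)) ≤ 0 :=
          mul_nonpos_of_nonneg_of_nonpos (by positivity) h
        linarith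
      · have hlaw : EV S n (iter P (T + 1) R p) p (below (th K)) =
            EV S n (P R p) p (oo (below (th K) none)
              (fun x => EV S n (iter P T R x) x (below (th K)))) :=
          ex_seq (Q := fun R' x => iter P T R' x) hP hp hpR hRn _
        have hjKr : (j : ℝ) + 1 ≤ K := by exact_mod_cast hjK
        -- the main part
        have hmain : (T : ℝ) * EV S n (iter P (T + 1) R p) p (below (th K)) ≤
            16 / 15 * (K - (j + 1)) + 16 / 15 * (1 / 16) := by
          rw [hlaw]
          have h2 := EV_mono hP hp hpR hRn
            (f := fun o => (T : ℝ) * oo (below (th K) none)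
              (fun x => EV S n (iter P T R x) x (below (th K))) o)
            (g := fun o => 16 / 15 * ((K : ℝ) - (j + 1)) + 16 / 15 * below (th (j + 1)) o)
            (by
              simp only [below, oo_none]
              linarith)
            (fun x hx h3 h4 => by
              simp only [oo_some]
              by_cases hx1 : x.1 < th (j + 1)
              · have := ih j hj R x hx (htp.trans h3) h4 hRn
                simp only [below, oo_some, if_pos hx1] at this ⊢
                linarith
              · have := ih (j + 1) hjK R x hx (not_lt.mp hx1) h4 hRn
                simp only [below, oo_some, if_neg hx1] at this ⊢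
                push_cast at this
                linarith)
          have e1 := EV_smul (S := S) (n := n) (P R p) p (16 / 15) (below (th (j + 1)))
          have e2 := EV_smul (S := S) (n := n) (P R p) p T (oo (below (th K) none)
              (fun x => EV S n (iter P T R x) x (below (th K))))
          rw [EV_add, e1, e2, EV_const (hP.ok R p)] at h2
          have h3 := hguar j hjK R p hp htp hpR hRn
          linarith
        have hone : EV S n (iter P (T + 1) R p) p (below (th K)) ≤ 1 := by
          have h := EV_mono (walker (T + 1)) hp hpR hRn (f := below (th K)) (g := fun _ => 1)
            (by simp [below]) (fun x _ h _ => by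
              simp only [below, oo_some]
              split_ifs <;> norm_num)
          rwa [EV_const ((walker (T + 1)).ok R p)] at h
        push_cast
        rw [add_mul, one_mul]
        linarith
  intro R p hp h0 hpR hRn
  have := key T 0 (Nat.zero_le _) R p hp h0 hpR hRn
  simpa using this

end Pool.Agent.WallR
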