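import Pool.Agent.WallR.Targets

/-!
Target LAW: one step of the rounds in terms of `EV`.
-/

open scoped BigOperators

namespace Pool.Agent.WallR

open Prog

namespace Law_

theorem probe_ex {S : Set Rect} {n lo hi A u : ℝ} {m : ℕ}
    (sub : Fin m → ℝ → Pt → Prog (Option Pt)) (hw : ∀ s, IsWalker S n lo hi lo hi A u (sub s))
    (p : Pt) (r : ℝ) (hp : Dom S n lo hi p) (hpr : p.1 ≤ r) (hr : r < n) (d : ℝ)
    (G : Fin m × Bool → ℝ) :
    ex S n (probe sub p r) p (oext d (fun b _ => G b)) =
      ∑ s, (1 / (m : ℝ)) * EV S n (sub s r p) p (fun o => G (s, o.isSome)) := by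
  unfold probe
  rw [ex_rand]
  refine Finset.sum_congr rfl (fun s _ => ?_)
  rw [ex_bind]
  congr 1
  unfold EV
  refine ex_congr_sure ((hw s).out r p hp hpr hr.le) ?_
  rintro (_ | ⟨o, p'⟩) ho
  · exact absurd ho (not_le.2 hr)
  · simp only [oext_some, ex_ret, view]

end Law_

theorem pLaw (h1 : tTourLaw) : tLaw := by
  intro S n lo hi A u m sub _ hw N c R p psi hp hpR hRn
  show ex S n (rounds sub (N + 1) c R p) p (fun o => psi (view o)) = _
  rw [rounds, ex_rand]
  refine Finset.sum_congr rfl (fun h _ => ?_)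
  have hs := (hw h).out R p hp hpR hRn
  rw [h1 S n _ p (sub h R p) (fun x => probe sub p x.1)
    (fun x b => rounds sub N (upd c b) R x) (fun o => psi (view o)) hp.free hp.xn]
  · congr 1
    show _ = ex S n (sub h R p) p (fun o => oo (psi none) _ (view o))
    refine ex_congr_sure hs ?_
    rintro (_ | ⟨_ | x, p'⟩) ho
    · rfl
    · rfl
    · obtain ⟨hxp, hx, h2, h3⟩ := ho
      exact Law_.probe_ex sub hw p x.1 hp h2 hx.xn _
        (fun b => ex S n (rounds sub N (upd c b) R x) x (fun o => psi (view o)))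
  · refine sure_mono hs ?_
    rintro (_ | ⟨_ | x, p'⟩) ho
    · trivial
    · intro x hx
      cases hx
    · intro y hy
      cases hy
      exact ho.1

end Pool.Agent.WallR
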