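import Pool.Agent.WallR.Targets

/-!
LVL: the guarantee of all levels.
-/

open scoped BigOperators ENNReal

namespace Pool.Agent.WallR

open Prog

namespace Lvl_

lemma enlarge {S : Set Rect} {n lo hi lo' hi' lo1 hi1 A u : ℝ} {P : ℝ → Pt → Prog (Option Pt)}
    (h : IsWalker S n lo hi lo' hi' A u P) (h1 : lo1 ≤ lo') (h2 : hi' ≤ hi1) :
    IsWalker S n lo hi lo1 hi1 A u P where
  ok := h.ok
  out := by
    intro R p hp hR hn
    refine sure_mono (h.out R p hp hR hn) ?_
    rintro (_ | ⟨_ | x, p'⟩) ho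
    · exact ho
    · exact ho
    · obtain ⟨e, hd, h3, h4⟩ := ho
      exact ⟨e, ⟨hd.free, hd.x0, hd.xn, h1.trans hd.ylo, hd.yhi.trans h2⟩, h3, h4⟩
  cutE := h.cutE
  cost := h.cost

lemma uu_nonneg (k N : ℕ) {g0 : ℝ} (hg : 0 ≤ g0) : ∀ i, 0 ≤ uu k N g0 i
  | 0 => hg
  | i + 1 => by
    have := uu_nonneg k N hg i
    simp only [uu]
    positivity

/-- the choice of the substrip -/
lemma choose_strip {k : ℕ} (hk : 0 < k) {a g yc : ℝ} (hg : 0 < g) :
    ∃ s : Fin (2 * k - 1), ∀ y : ℝ, a ≤ y → y ≤ a + k * g → |y - yc| ≤ g / 4 →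
      a + (s : ℝ) * (g / 2) ≤ y ∧ y ≤ a + (s : ℝ) * (g / 2) + g := by
  set z : ℝ := (yc - g / 4 - a) / (g / 2) with hz
  have hg2 : 0 < g / 2 := by linarith
  have hzm : z * (g / 2) = yc - g / 4 - a := by
    rw [hz]; field_simp
  have hlt : min ⌊z⌋₊ (2 * k - 2) < 2 * k - 1 :=
    lt_of_le_of_lt (min_le_right _ _) (by omega)
  refine ⟨⟨min ⌊z⌋₊ (2 * k - 2), hlt⟩, ?_⟩
  intro y hy1 hy2 hy3
  have h3 := abs_le.1 hy3
  simp only
  rcases lt_or_ge z 0 with h0 | h0
  · have : ⌊z⌋₊ = 0 := Nat.floor_of_nonpos h0.le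
    rw [this, Nat.zero_min, Nat.cast_zero, zero_mul, add_zero]
    refine ⟨hy1, ?_⟩
    have : z * (g / 2) < 0 := mul_neg_of_neg_of_pos h0 hg2
    linarith [h3.2]
  · have hf1 : (⌊z⌋₊ : ℝ) ≤ z := Nat.floor_le h0
    have hf2 : z < ⌊z⌋₊ + 1 := Nat.lt_floor_add_one z
    rcases le_or_gt ⌊z⌋₊ (2 * k - 2) with h4 | h4
    · rw [min_eq_left h4]
      constructor
      · have : (⌊z⌋₊ : ℝ) * (g / 2) ≤ z * (g / 2) := mul_le_mul_of_nonneg_right hf1 hg2.le
        linarith [h3.1]
      · have : z * (g / 2) < (⌊z⌋₊ + 1) * (g / 2) := mul_lt_mul_of_pos_right hf2 hg2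
        linarith [h3.2]
    · rw [min_eq_right h4.le]
      have hc : ((2 * k - 2 : ℕ) : ℝ) = 2 * k - 2 := by
        rw [Nat.cast_sub (by omega)]; push_cast; ring
      rw [hc]
      constructor
      · have h5 : ((2 * k - 2 : ℕ) : ℝ) ≤ z := by
          have : ((2 * k - 2 : ℕ) : ℝ) ≤ (⌊z⌋₊ : ℝ) := by exact_mod_cast h4.le
          exact this.trans hf1
        rw [hc] at h5
        have : (2 * (k : ℝ) - 2) * (g / 2) ≤ z * (g / 2) := mul_le_mul_of_nonneg_right h5 hg2.le
        linarith [h3.1]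
      · linarith

end Lvl_

open Lvl_

theorem pLvl (h1 : tLvlW) (h2 : tBaseG) (h3 : tGoto) (h4 : tSeq) (h5 : tSeqG) (h6 : tMW) :
    tLvl := by
  intro S n l hS C k N F g0 hk hg0 hnF hN hNk i
  have hk1 : (1 : ℝ) ≤ k := by exact_mod_cast hk
  have hkpos : (0 : ℝ) < k := by linarith
  have hW := h1 S n hS k N F g0 hk hg0 hnF
  induction i with
  | zero =>
    intro hF a
    refine ⟨hW 0 hF a, ?_⟩
    have := h2 S n l hS C a g0 ((k : ℝ) ^ 0 * g0 / (2 * k)) F hg0.le hnF
    simpa [lvl] using this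
  | succ i ih =>
    intro hF a
    refine ⟨hW (i + 1) hF a, ?_⟩
    set g : ℝ := (k : ℝ) ^ i * g0 with hgdef
    have hgpos : 0 < g := by positivity
    have hh : (k : ℝ) ^ (i + 1) * g0 = k * g := by rw [hgdef, pow_succ]; ring
    have hFi : g < F := by
      refine lt_of_le_of_lt ?_ hF
      rw [hh]
      nlinarith
    rw [hh] at hF ⊢
    have ih' := ih hFi
    have htau : k * g / (2 * k) = g / 2 := by field_simp
    rw [htau]
    intro u u' R p huu hlen hstrip hp hm hpR hRn
    -- the substrip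
    obtain ⟨s0, hs0⟩ := choose_strip hk (a := a) (yc := C.y ((u + u') / 2)) hgpos
    have hclose : ∀ t, u ≤ t → t ≤ u' → |C.y t - C.y ((u + u') / 2)| ≤ g / 4 := by
      intro t ht1 ht2
      refine (C.lip _ _).trans ?_
      rw [abs_le]
      constructor <;> linarith
    set sub : Fin (2 * k - 1) → ℝ → Pt → Prog (Option Pt) := fun s R' p' =>
      seqW (fun R'' p'' => goto (clampTo (a + s * (g / 2)) g p''.2) R'' F p'')
        (fun R'' p'' => lvl k N F g0 i (a + s * (g / 2)) R'' p'') R' p' with hsub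
    have hs_le : ∀ s : Fin (2 * k - 1), a ≤ a + s * (g / 2) ∧ a + s * (g / 2) + g ≤ a + k * g := by
      intro s
      have hs : ((s : ℕ) : ℝ) ≤ 2 * k - 2 := by
        have h7 : (s : ℕ) ≤ 2 * k - 2 := by have := s.2; omega
        have h8 : ((2 * k - 2 : ℕ) : ℝ) = 2 * k - 2 := by
          rw [Nat.cast_sub (by omega)]; push_cast; ring
        rw [← h8]; exact_mod_cast h7
      have hs' : (0 : ℝ) ≤ (s : ℕ) := Nat.cast_nonneg _
      constructor
      · have : 0 ≤ ((s : ℕ) : ℝ) * (g / 2) := by positivity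
        linarith
      · have : ((s : ℕ) : ℝ) * (g / 2) ≤ (2 * k - 2) * (g / 2) :=
          mul_le_mul_of_nonneg_right hs (by linarith)
        linarith
    have hgoto : ∀ s : Fin (2 * k - 1), IsWalker S n a (a + k * g) (a + s * (g / 2))
        (a + s * (g / 2) + g) 1 (k * g)
        (fun R'' p'' => goto (clampTo (a + s * (g / 2)) g p''.2) R'' F p'') := by
      intro s
      have := h3 S n hS a (a + k * g) (a + s * (g / 2)) g F hgpos.le (hs_le s).1 (hs_le s).2
        (by linarith)
      simpa using this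
    have hwalk : ∀ s : Fin (2 * k - 1), IsWalker S n a (a + k * g) a (a + k * g)
        (5 ^ i * (1 + g0)) (k * g + uu k N g0 i) (sub s) := by
      intro s
      have hA : (1 : ℝ) ≤ 5 ^ i * (1 + g0) := by
        have : (1 : ℝ) ≤ 5 ^ i := one_le_pow₀ (by norm_num)
        nlinarith
      have := h4 S n a (a + k * g) (a + s * (g / 2)) (a + s * (g / 2) + g) (a + s * (g / 2))
        (a + s * (g / 2) + g) 1 (k * g) (5 ^ i * (1 + g0)) (uu k N g0 i) _ _ zero_le_one hA
        (uu_nonneg k N hg0.le i) (hgoto s) (ih' (a + s * (g / 2))).1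
      exact enlarge this (hs_le s).1 (hs_le s).2
    -- the thresholds
    set th : ℕ → ℝ := fun j => C.m (u + j * ((u' - u) / k)) with hth
    have hd : 0 ≤ (u' - u) / k := div_nonneg (by linarith) hkpos.le
    have hthm : Monotone th := by
      intro j j' hjj
      apply C.mono
      have : (j : ℝ) ≤ j' := by exact_mod_cast hjj
      have := mul_le_mul_of_nonneg_right this hd
      linarith
    have hth0 : th 0 = C.m u := by simp [hth]
    have hthk : th k = C.m u' := by
      simp only [hth]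
      congr 1
      field_simp
      ring
    have hgood : ∀ j < k, ∀ R p, Dom S n a (a + k * g) p → th j ≤ p.1 → p.1 ≤ R → R ≤ n →
        EV S n (sub s0 R p) p (below (th (j + 1))) ≤ 1 / 16 := by
      intro j hj
      refine h5 S n a (a + k * g) (a + s0 * (g / 2)) (a + s0 * (g / 2) + g) 1 (k * g) (th j)
        (th (j + 1)) (1 / 16) _ _ (by norm_num) (hgoto s0) ?_
      intro R x hx hxt hxR hR
      have hj1 : (0 : ℝ) ≤ j := Nat.cast_nonneg j
      have hj2 : (j : ℝ) + 1 ≤ k := by exact_mod_cast hj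
      have hkd : k * ((u' - u) / k) = u' - u := by field_simp
      refine (ih' (a + s0 * (g / 2))).2 (u + j * ((u' - u) / k)) (u + ((j + 1 : ℕ) : ℝ) *
        ((u' - u) / k)) R x ?_ ?_ ?_ hx hxt hxR hR
      · push_cast; nlinarith
      · push_cast
        have e1 : u + ((j : ℝ) + 1) * ((u' - u) / k) - (u + j * ((u' - u) / k)) =
            (u' - u) / k := by ring
        rw [e1, div_le_div_iff₀ hkpos (by positivity)]
        nlinarith
      · intro t ht1 ht2
        have ht1' : u ≤ t := by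
          have : 0 ≤ (j : ℝ) * ((u' - u) / k) := by positivity
          linarith
        have ht2' : t ≤ u' := by
          have h9 : ((j : ℝ) + 1) * ((u' - u) / k) ≤ k * ((u' - u) / k) :=
            mul_le_mul_of_nonneg_right hj2 hd
          push_cast at ht2
          linarith
        exact hs0 (C.y t) (hstrip t ht1' ht2').1 (hstrip t ht1' ht2').2 (hclose t ht1' ht2')
    have hmpos : 0 < 2 * k - 1 := by omega
    have key := h6 S n a (a + k * g) (5 ^ i * (1 + g0)) (k * g + uu k N g0 i) (2 * k - 1) sub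
      hmpos hwalk th k s0 hthm hgood N R p hp (by rw [hth0]; exact hm) hpR hRn
    rw [hthk] at key
    have hNpos : (0 : ℝ) < N := by exact_mod_cast hN
    have hfin : N * EV S n (rounds sub N (fun _ => 0) R p) p (below (C.m u')) ≤ N * (1 / 16) := by
      refine key.trans ?_
      linarith
    have := le_of_mul_le_mul_left hfin hNpos
    simpa only [lvl, hsub] using this

end Pool.Agent.WallR
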