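import Pool.Agent.WallR.Targets

/-!
All levels of the wall algorithm are walkers.
-/

open scoped BigOperators

namespace Pool.Agent.WallR

open Prog

namespace LvlW_

lemma dom_mono {S : Set Rect} {n lo hi lo' hi' : ℝ} {p : Pt} (h : Dom S n lo hi p)
    (h1 : lo' ≤ lo) (h2 : hi ≤ hi') : Dom S n lo' hi' p :=
  ⟨h.free, h.x0, h.xn, h1.trans h.ylo, h.yhi.trans h2⟩

lemma wout_mono {S : Set Rect} {n lo hi lo' hi' R : ℝ} {p : Pt} (h1 : lo' ≤ lo) (h2 : hi ≤ hi')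
    (o : Option (Option Pt × Pt)) (h : WOut S n lo hi R p o) : WOut S n lo' hi' R p o := by
  match o, h with
  | none, h => exact h
  | some (none, _), h => exact h
  | some (some x, p'), h => exact ⟨h.1, dom_mono h.2.1 h1 h2, h.2.2⟩

lemma enlarge {S : Set Rect} {n lo hi lo' hi' lo'' hi'' A u : ℝ}
    {P : ℝ → Pt → Prog (Option Pt)} (h : IsWalker S n lo hi lo' hi' A u P)
    (h1 : lo'' ≤ lo') (h2 : hi' ≤ hi'') : IsWalker S n lo hi lo'' hi'' A u P :=
  ⟨h.ok, fun R p hd hp hR => sure_mono (h.out R p hd hp hR) (wout_mono h1 h2), h.cutE, h.cost⟩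

lemma uu_nonneg (k N : ℕ) {g0 : ℝ} (hg : 0 < g0) : ∀ i, 0 ≤ uu k N g0 i
  | 0 => hg.le
  | i + 1 => by
    have h := uu_nonneg k N hg i
    show 0 ≤ 5 * (N : ℝ) * ((k : ℝ) ^ (i + 1) * g0 + uu k N g0 i)
    positivity

end LvlW_

open LvlW_ in
theorem pLvlW (h1 : tBase) (h2 : tGoto) (h3 : tSeq) (h4 : tRnd) : tLvlW := by
  intro S n hS k N F g0 hk hg0 hnF i
  have hk1 : (1 : ℝ) ≤ k := by exact_mod_cast hk
  induction i with
  | zero =>
    intro hF a
    have h := (h1 S n hS a g0 F hg0.le hnF).1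
    have e1 : (k : ℝ) ^ 0 * g0 = g0 := by simp
    have e2 : (5 : ℝ) ^ 0 * (1 + g0) = 1 + g0 := by simp
    rw [e1, e2]
    exact h
  | succ i ih =>
    intro hF a
    have hki : 0 ≤ (k : ℝ) ^ i * g0 := by positivity
    have hle : (k : ℝ) ^ i * g0 ≤ (k : ℝ) ^ (i + 1) * g0 := by
      rw [pow_succ]
      nlinarith
    have hF' : (k : ℝ) ^ i * g0 < F := lt_of_le_of_lt hle hF
    have hA : (0 : ℝ) ≤ 5 ^ i * (1 + g0) := by positivity
    have hA1 : (1 : ℝ) ≤ 5 ^ i * (1 + g0) := by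
      have : (1 : ℝ) ≤ 5 ^ i := one_le_pow₀ (by norm_num)
      nlinarith
    have hu := uu_nonneg k N hg0 i
    have hh : 0 ≤ (k : ℝ) ^ (i + 1) * g0 := by positivity
    have hm : 0 < 2 * k - 1 := by omega
    have key : ∀ s : Fin (2 * k - 1), IsWalker S n a (a + (k : ℝ) ^ (i + 1) * g0) a
        (a + (k : ℝ) ^ (i + 1) * g0) (5 ^ i * (1 + g0))
        ((k : ℝ) ^ (i + 1) * g0 + uu k N g0 i)
        (seqW (fun R'' p'' =>
            goto (clampTo (a + s * ((k : ℝ) ^ i * g0 / 2)) ((k : ℝ) ^ i * g0) p''.2) R'' F p'')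
          (fun R'' p'' => lvl k N F g0 i (a + s * ((k : ℝ) ^ i * g0 / 2)) R'' p'')) := by
      intro s
      have hs0 : (0 : ℝ) ≤ (s : ℝ) := by positivity
      have hs1 : ((s : ℕ) : ℝ) ≤ 2 * k - 2 := by
        have h5 : (s : ℕ) + 2 ≤ 2 * k := by have := s.2; omega
        have h6 : ((s : ℕ) : ℝ) + 2 ≤ 2 * k := by exact_mod_cast h5
        linarith
      have hlo : a ≤ a + s * ((k : ℝ) ^ i * g0 / 2) := by
        have : 0 ≤ (s : ℝ) * ((k : ℝ) ^ i * g0 / 2) := by positivity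
        linarith
      have hhi : a + s * ((k : ℝ) ^ i * g0 / 2) + (k : ℝ) ^ i * g0 ≤
          a + (k : ℝ) ^ (i + 1) * g0 := by
        have h7 : (s : ℝ) * ((k : ℝ) ^ i * g0 / 2) ≤ (2 * k - 2) * ((k : ℝ) ^ i * g0 / 2) :=
          mul_le_mul_of_nonneg_right hs1 (by positivity)
        have h8 : (k : ℝ) ^ (i + 1) * g0 = k * ((k : ℝ) ^ i * g0) := by ring
        rw [h8]
        nlinarith
      have hgo := h2 S n hS a (a + (k : ℝ) ^ (i + 1) * g0) (a + s * ((k : ℝ) ^ i * g0 / 2))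
        ((k : ℝ) ^ i * g0) F hki hlo hhi (by linarith)
      have hlv := ih hF' (a + s * ((k : ℝ) ^ i * g0 / 2))
      have hsq := h3 S n _ _ _ _ _ _ _ _ _ _ _ _ zero_le_one hA1 hu hgo hlv
      have e3 : a + (k : ℝ) ^ (i + 1) * g0 - a + uu k N g0 i =
          (k : ℝ) ^ (i + 1) * g0 + uu k N g0 i := by ring
      rw [e3] at hsq
      exact enlarge hsq hlo hhi
    have hr := h4 S n a (a + (k : ℝ) ^ (i + 1) * g0) (5 ^ i * (1 + g0))
      ((k : ℝ) ^ (i + 1) * g0 + uu k N g0 i) (2 * k - 1) _ hm hA (by positivity) key N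
      (fun _ => 0)
    have e4 : (5 : ℝ) ^ (i + 1) * (1 + g0) = 5 * (5 ^ i * (1 + g0)) := by ring
    rw [e4]
    exact hr

end Pool.Agent.WallR
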