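import Pool.Agent.WallR.Targets

/-!
The guarantee of the multiplicative weights rounds (target `tMW`).
-/

open scoped BigOperators ENNReal

namespace Pool.Agent.WallR

open Prog

namespace MW_

variable {S : Set Rect} {n : ℝ}

lemma EV_smul (P : Prog (Option Pt)) (p : Pt) (c : ℝ) (f : Option Pt → ℝ) :
    EV S n P p (fun o => c * f o) = c * EV S n P p f :=
  ex_smul P p c (fun o => f (view o))

lemma EV_add (P : Prog (Option Pt)) (p : Pt) (f g : Option Pt → ℝ) :
    EV S n P p (fun o => f o + g o) = EV S n P p f + EV S n P p g :=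
  ex_add P p (fun o => f (view o)) (fun o => g (view o))

lemma EV_sub (P : Prog (Option Pt)) (p : Pt) (f g : Option Pt → ℝ) :
    EV S n P p (fun o => f o - g o) = EV S n P p f - EV S n P p g :=
  ex_sub P p (fun o => f (view o)) (fun o => g (view o))

lemma EV_const {P : Prog (Option Pt)} (hP : P.Ok) (p : Pt) (c : ℝ) :
    EV S n P p (fun _ => c) = c := ex_const hP p c

lemma EV_mono {P : Prog (Option Pt)} (hP : P.Ok) (p : Pt) {f g : Option Pt → ℝ}
    (h : ∀ o, f o ≤ g o) : EV S n P p f ≤ EV S n P p g :=
  ex_mono hP (fun _ => h _)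

/-- Comparison on the possible outcomes of a walker. -/
lemma EV_mono_out {lo hi R : ℝ} {P : Prog (Option Pt)} (hP : P.Ok) {p : Pt}
    (hs : sure S n P p (WOut S n lo hi R p)) {f g : Option Pt → ℝ} (h0 : f none ≤ g none)
    (h1 : ∀ x, Dom S n lo hi x → p.1 ≤ x.1 → x.1 ≤ R → f (some x) ≤ g (some x)) :
    EV S n P p f ≤ EV S n P p g := by
  refine ex_mono_sure hP hs (fun o ho => ?_)
  match o, ho with
  | none, _ => exact h0
  | some (none, _), _ => exact h0
  | some (some x, p'), ho => exact h1 x ho.2.1 ho.2.2.1 ho.2.2.2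

/-- A walker remains one for larger constants. -/
lemma walker_mono {lo hi lo' hi' A u : ℝ} {P : ℝ → Pt → Prog (Option Pt)}
    (h : IsWalker S n lo hi lo' hi' A u P) :
    IsWalker S n lo hi lo' hi' (max A 0) (max u 0) P := by
  refine ⟨h.ok, h.out, h.cutE, fun R p hp h1 h2 => ?_⟩
  refine le_trans (h.cost R p hp h1 h2) ?_
  have h0 : 0 ≤ EV S n (P R p) p (prog R p) := by
    have := EV_mono_out (h.ok R p) (h.out R p hp h1 h2) (f := fun _ => (0 : ℝ)) (g := prog R p)
      (by simp only [prog, oo_none]; linarith) (fun x _ hx _ => by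
        simp only [prog, oo_some]; linarith)
    rwa [EV_const (h.ok R p)] at this
  have := mul_le_mul_of_nonneg_right (le_max_left A 0) h0
  have h3 := le_max_left u 0
  linarith

lemma wt_pos (c : ℕ) : 0 < wt c := by
  unfold wt; positivity

section

variable {m : ℕ}

lemma sum_wt_pos (hm : 0 < m) (c : Fin m → ℕ) : 0 < ∑ t, wt (c t) := by
  have : Nonempty (Fin m) := ⟨⟨0, hm⟩⟩
  exact Finset.sum_pos (fun t _ => wt_pos _) Finset.univ_nonempty

lemma prb_nonneg (hm : 0 < m) (c : Fin m → ℕ) (s : Fin m) : 0 ≤ prb c s :=
  div_nonneg (wt_pos _).le (sum_wt_pos hm c).le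

lemma prb_sum (hm : 0 < m) (c : Fin m → ℕ) : ∑ s, prb c s = 1 := by
  unfold prb
  rw [← Finset.sum_div]
  exact div_self (sum_wt_pos hm c).ne'

lemma unif_sum (hm : 0 < m) : ∑ _s : Fin m, (1 / (m : ℝ)) = 1 := by
  rw [Finset.sum_const, Finset.card_univ, Fintype.card_fin, nsmul_eq_mul]
  have : (m : ℝ) ≠ 0 := by exact_mod_cast hm.ne'
  field_simp

/-- the probability that a walker ends inside the limit -/
lemma loss_bounds {P : Prog (Option Pt)} (hP : P.Ok) (p : Pt) :
    0 ≤ EV S n P p (oo 0 (fun _ => 1)) ∧ EV S n P p (oo 0 (fun _ => 1)) ≤ 1 := by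
  constructor
  · have := EV_mono (S := S) (n := n) hP p (f := fun _ => (0 : ℝ)) (g := oo 0 (fun _ => 1))
      (fun o => by cases o <;> simp)
    rwa [EV_const hP] at this
  · have := EV_mono (S := S) (n := n) hP p (f := oo 0 (fun _ => 1)) (g := fun _ => (1 : ℝ))
      (fun o => by cases o <;> simp)
    rwa [EV_const hP] at this

/-- expectation of a function of the answer of a probe -/
lemma EV_bool {P : Prog (Option Pt)} (hP : P.Ok) (p : Pt) (a b : ℝ) :
    EV S n P p (fun o => if o.isSome then a else b) =
      EV S n P p (oo 0 (fun _ => 1)) * a + (1 - EV S n P p (oo 0 (fun _ => 1))) * b := by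
  have e : (fun o : Option Pt => if o.isSome then a else b) =
      fun o => (a - b) * oo 0 (fun _ => 1) o + b := by
    funext o
    cases o <;> simp
  rw [e, EV_add, EV_smul, EV_const hP]
  ring

lemma num_bound (V E L : ℝ) (hL1 : 0.69 < L) (hL2 : L < 0.7) (hV : 5 * L ≤ V) (_hE0 : 0 ≤ E)
    (hE1 : E ≤ 1) : (V + 5 * L / 16) * E - 5 / 2 * (E ^ 2 / 2) ≤ V - 1 := by
  have h1 : 0 ≤ (1 - E) * (V - 5 * L) := mul_nonneg (by linarith) (by linarith)
  have h2 : 0 ≤ (1 - E) * (5 * L + 5 * L / 16 - 5 / 2) := mul_nonneg (by linarith) (by linarith)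
  nlinarith [sq_nonneg (1 - E)]

end

/-- The claim, by induction on the number of rounds. -/
lemma claim (h1 : tLaw) (h2 : tRnd) (h3 : tSym) (h4 : tPot) (S : Set Rect) (n lo hi A u : ℝ)
    (m : ℕ) (sub : Fin m → ℝ → Pt → Prog (Option Pt)) (hm : 0 < m)
    (hW : ∀ s, IsWalker S n lo hi lo hi A u (sub s)) (th : ℕ → ℝ) (K : ℕ) (s0 : Fin m)
    (hG : ∀ j < K, ∀ R p, Dom S n lo hi p → th j ≤ p.1 → p.1 ≤ R → R ≤ n →
      EV S n (sub s0 R p) p (below (th (j + 1))) ≤ 1 / 16) (N : ℕ) :
    ∀ (c : Fin m → ℕ) (R : ℝ) (p : Pt) (j : ℕ), j ≤ K → Dom S n lo hi p → th j ≤ p.1 →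
      p.1 ≤ R → R ≤ n →
      N * EV S n (rounds sub N c R p) p (below (th K)) ≤
        pot c s0 + 5 * Real.log 2 * ((K : ℝ) - j) := by
  have hlog : 0 < Real.log 2 := Real.log_pos (by norm_num)
  have hpot : ∀ c : Fin m → ℕ, 0 ≤ pot c s0 := fun c =>
    (h4 m c s0 (fun _ => 0) (fun _ => le_rfl) (fun _ => zero_le_one)).1
  have hRnd : ∀ (N : ℕ) (c : Fin m → ℕ), IsWalker S n lo hi lo hi (5 * max A 0)
      (5 * N * max u 0) (fun R p => rounds sub N c R p) := fun N c =>
    h2 S n lo hi (max A 0) (max u 0) m sub hm (le_max_right _ _) (le_max_right _ _)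
      (fun s => walker_mono (hW s)) N c
  induction N with
  | zero =>
    intro c R p j hj _ _ _ _
    rw [Nat.cast_zero, zero_mul]
    have : (j : ℝ) ≤ K := by exact_mod_cast hj
    have h5 := hpot c
    have h6 : 0 ≤ 5 * Real.log 2 * ((K : ℝ) - j) := mul_nonneg (by positivity) (by linarith)
    linarith
  | succ N ih =>
    intro c R p j hj hp hth hpR hRn
    rcases Nat.lt_or_ge j K with hjK | hjK
    swap
    · -- j = K
      have hjeq : j = K := le_antisymm hj hjK
      subst hjeq
      have hw := hRnd (N + 1) c
      have h0 : EV S n (rounds sub (N + 1) c R p) p (below (th j)) ≤ 0 := by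
        have := EV_mono_out (hw.ok R p) (hw.out R p hp hpR hRn) (f := below (th j))
          (g := fun _ => (0 : ℝ)) (by simp [below]) (fun x _ hx _ => by
            simp only [below, oo_some]
            rw [if_neg (by linarith)])
        rwa [EV_const (hw.ok R p)] at this
      have h5 : ((N + 1 : ℕ) : ℝ) * EV S n (rounds sub (N + 1) c R p) p (below (th j)) ≤ 0 :=
        mul_nonpos_of_nonneg_of_nonpos (Nat.cast_nonneg _) h0
      have h6 := hpot c
      rw [sub_self, mul_zero, add_zero]
      linarith
    · set L := Real.log 2 with hL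
      set V : ℝ := pot c s0 + 5 * L * ((K : ℝ) - j) with hV
      have hjK' : (j : ℝ) + 1 ≤ K := by exact_mod_cast hjK
      have hVL : 5 * L ≤ V := by
        have h5 := hpot c
        have : 5 * L * 1 ≤ 5 * L * ((K : ℝ) - j) :=
          mul_le_mul_of_nonneg_left (by linarith) (by positivity)
        linarith
      -- the loss probabilities of the probes
      set r : Pt → Fin m → ℝ := fun x s => EV S n (sub s x.1 p) p (oo 0 (fun _ => 1)) with hr
      set T : Pt → ℝ := fun x => ∑ s, (1 / (m : ℝ)) * EV S n (sub s x.1 p) p (fun o =>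
          EV S n (rounds sub N (upd c (s, o.isSome)) R x) x (below (th K))) with hT
      have hlaw : EV S n (rounds sub (N + 1) c R p) p (below (th K)) =
          ∑ h, prb c h * EV S n (sub h R p) p (oo 0 T) := by
        exact h1 S n lo hi A u m sub hm hW N c R p (below (th K)) hp hpR hRn
      -- pointwise bound
      have hTx : ∀ x, Dom S n lo hi x → p.1 ≤ x.1 → x.1 ≤ R →
          N * T x ≤ (V + 5 * L / 16) - 5 / 2 * ∑ s, prb c s * r x s := by
        intro x hx hpx hxR
        -- the new index
        obtain ⟨j', hj'K, hthj', hrs⟩ : ∃ j' : ℕ, j' ≤ K ∧ th j' ≤ x.1 ∧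
            r x s0 ≤ 1 / 16 + ((j' : ℝ) - j) := by
          by_cases hc : th (j + 1) ≤ x.1
          · refine ⟨j + 1, hjK, hc, ?_⟩
            have h5 := (loss_bounds (S := S) (n := n) ((hW s0).ok x.1 p) p).2
            have h6 : r x s0 ≤ 1 := h5
            push_cast
            linarith
          · refine ⟨j, hj, le_trans hth hpx, ?_⟩
            rw [not_le] at hc
            have h5 := (hW s0).cutE x.1 R p (oo 0 (fun _ => 1)) hp hpx hxR hRn
            have h6 : EV S n (sub s0 R p) p (fun o => oo 0 (fun _ => 1) (cut x.1 o)) ≤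
                EV S n (sub s0 R p) p (below (th (j + 1))) := by
              refine EV_mono ((hW s0).ok R p) p (fun o => ?_)
              cases o with
              | none => simp [cut, below]
              | some y =>
                simp only [cut, below, oo_some]
                split_ifs with h7 h8
                · simp
                · exact absurd (lt_of_le_of_lt h7 hc) h8
                · simp
                · simp
            have h7 := hG j hjK R p hp hth hpR hRn
            have h8 : r x s0 ≤ 1 / 16 := by
              simp only [hr]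
              rw [h5]
              exact le_trans h6 h7
            rw [sub_self, add_zero]
            exact h8
        set D : ℝ := 5 * L * ((K : ℝ) - j') with hD
        have e1 : N * T x = ∑ s, (1 / (m : ℝ)) * EV S n (sub s x.1 p) p (fun o =>
            N * EV S n (rounds sub N (upd c (s, o.isSome)) R x) x (below (th K))) := by
          simp only [hT]
          rw [Finset.mul_sum]
          refine Finset.sum_congr rfl (fun s _ => ?_)
          rw [EV_smul]
          ring
        have e2 : ∀ s, EV S n (sub s x.1 p) p (fun o =>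
            N * EV S n (rounds sub N (upd c (s, o.isSome)) R x) x (below (th K))) ≤
            r x s * pot (upd c (s, true)) s0 + (1 - r x s) * pot (upd c (s, false)) s0 + D := by
          intro s
          have hok := (hW s).ok x.1 p
          have h5 : EV S n (sub s x.1 p) p (fun o =>
              N * EV S n (rounds sub N (upd c (s, o.isSome)) R x) x (below (th K))) ≤
              EV S n (sub s x.1 p) p (fun o => (if o.isSome then pot (upd c (s, true)) s0
                else pot (upd c (s, false)) s0) + D) := by
            refine EV_mono hok p (fun o => ?_)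
            have h6 := ih (upd c (s, o.isSome)) R x j' hj'K hx hthj' hxR hRn
            refine le_trans h6 (le_of_eq ?_)
            cases o <;> simp [hD]
          rw [EV_add, EV_bool hok, EV_const hok] at h5
          exact h5
        have e3 : N * T x ≤ ∑ s, (1 / (m : ℝ)) * (r x s * pot (upd c (s, true)) s0 +
            (1 - r x s) * pot (upd c (s, false)) s0) + D := by
          rw [e1]
          have h5 : ∑ s, (1 / (m : ℝ)) * EV S n (sub s x.1 p) p (fun o =>
              N * EV S n (rounds sub N (upd c (s, o.isSome)) R x) x (below (th K))) ≤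
              ∑ s, (1 / (m : ℝ)) * (r x s * pot (upd c (s, true)) s0 +
                (1 - r x s) * pot (upd c (s, false)) s0 + D) :=
            Finset.sum_le_sum (fun s _ => mul_le_mul_of_nonneg_left (e2 s) (by positivity))
          refine le_trans h5 (le_of_eq ?_)
          simp only [mul_add (1 / (m : ℝ)) _ D, Finset.sum_add_distrib]
          rw [← Finset.sum_mul, unif_sum hm, one_mul]
        have e4 := (h4 m c s0 (r x) (fun s => (loss_bounds ((hW s).ok x.1 p) p).1)
          (fun s => (loss_bounds ((hW s).ok x.1 p) p).2)).2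
        have e5 : 5 * L * r x s0 + D ≤ 5 * L / 16 + 5 * L * ((K : ℝ) - j) := by
          have h5 : 5 * L * r x s0 ≤ 5 * L * (1 / 16 + ((j' : ℝ) - j)) :=
            mul_le_mul_of_nonneg_left hrs (by positivity)
          rw [hD]
          nlinarith
        rw [hV]
        linarith
      -- sum over the home runs
      set e : Fin m → ℝ := fun h => EV S n (sub h R p) p (oo 0 (fun _ => 1)) with he
      set G : Pt → ℝ := fun x => ∑ s, prb c s * r x s with hGd
      have hb : ∀ h, EV S n (sub h R p) p (fun o => N * oo 0 T o) ≤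
          (V + 5 * L / 16) * e h - 5 / 2 * EV S n (sub h R p) p (oo 0 G) := by
        intro h
        have h5 : EV S n (sub h R p) p (fun o => N * oo 0 T o) ≤
            EV S n (sub h R p) p (fun o => (V + 5 * L / 16) * oo 0 (fun _ => 1) o -
              5 / 2 * oo 0 G o) := by
          refine EV_mono_out ((hW h).ok R p) ((hW h).out R p hp hpR hRn) (by simp)
            (fun x hx hpx hxR => ?_)
          simp only [oo_some, mul_one]
          exact hTx x hx hpx hxR
        rw [EV_sub, EV_smul (sub h R p) p (V + 5 * L / 16) _,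
          EV_smul (sub h R p) p (5 / 2) _] at h5
        exact h5
      have hsum : N * EV S n (rounds sub (N + 1) c R p) p (below (th K)) ≤
          (V + 5 * L / 16) * (∑ h, prb c h * e h) -
            5 / 2 * ∑ h, prb c h * EV S n (sub h R p) p (oo 0 G) := by
        rw [hlaw, Finset.mul_sum, Finset.mul_sum, Finset.mul_sum, ← Finset.sum_sub_distrib]
        refine Finset.sum_le_sum (fun h _ => ?_)
        have h5 := mul_le_mul_of_nonneg_left (hb h) (prb_nonneg hm c h)
        rw [EV_smul] at h5
        linarith
      -- the two home runs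
      have hq : ∑ h, prb c h * EV S n (sub h R p) p (oo 1 (fun _ => 0)) =
          1 - ∑ h, prb c h * e h := by
        have h5 : ∀ h, EV S n (sub h R p) p (oo 1 (fun _ => 0)) = 1 - e h := by
          intro h
          have e6 : (oo 1 (fun _ => 0) : Option Pt → ℝ) = fun o => 1 - oo 0 (fun _ => 1) o := by
            funext o
            cases o <;> simp
          rw [e6, EV_sub, EV_const ((hW h).ok R p)]
        simp only [h5, mul_sub, mul_one, Finset.sum_sub_distrib, prb_sum hm]
      have hsym := h3 S n lo hi A u m sub hm hW c R p hp hpR hRn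
      rw [hq] at hsym
      set Es : ℝ := ∑ h, prb c h * e h with hEs
      have hE0 : 0 ≤ Es := Finset.sum_nonneg (fun h _ => mul_nonneg (prb_nonneg hm c h)
        (loss_bounds ((hW h).ok R p) p).1)
      have hE1 : Es ≤ 1 := by
        rw [← prb_sum hm c, hEs]
        refine Finset.sum_le_sum (fun h _ => ?_)
        exact mul_le_of_le_one_right (prb_nonneg hm c h) (loss_bounds ((hW h).ok R p) p).2
      have hsym' : Es ^ 2 / 2 ≤ ∑ h, prb c h * EV S n (sub h R p) p (oo 0 G) := by
        have : (1 - (1 - Es)) ^ 2 / 2 = Es ^ 2 / 2 := by ring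
        rw [this] at hsym
        exact hsym
      have hnum := num_bound V Es L (by have := Real.log_two_gt_d9; rw [hL]; linarith)
        (by have := Real.log_two_lt_d9; rw [hL]; linarith) hVL hE0 hE1
      have hw := hRnd (N + 1) c
      have hle1 : EV S n (rounds sub (N + 1) c R p) p (below (th K)) ≤ 1 := by
        have := EV_mono (S := S) (n := n) (hw.ok R p) p (f := below (th K))
          (g := fun _ => (1 : ℝ)) (fun o => by
            cases o with
            | none => simp [below]
            | some y =>
              simp only [below, oo_some]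
              split_ifs <;> norm_num)
        rwa [EV_const (hw.ok R p)] at this
      have hfin : ((N + 1 : ℕ) : ℝ) * EV S n (rounds sub (N + 1) c R p) p (below (th K)) =
          N * EV S n (rounds sub (N + 1) c R p) p (below (th K)) +
            EV S n (rounds sub (N + 1) c R p) p (below (th K)) := by
        push_cast; ring
      rw [hfin]
      linarith

end MW_

open MW_ in
/-- MW -/
theorem pMW (h1 : tLaw) (h2 : tRnd) (h3 : tSym) (h4 : tPot) : tMW := by
  intro S n lo hi A u m sub hm hW th K s0 _ hG N R p hp hth hpR hRn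
  have h := claim h1 h2 h3 h4 S n lo hi A u m sub hm hW th K s0 hG N (fun _ => 0) R p 0
    (Nat.zero_le K) hp hth hpR hRn
  refine le_trans h (le_of_eq ?_)
  simp [pot, wt]

end Pool.Agent.WallR
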