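import Pool.Agent.WallR.Targets

open scoped BigOperators

namespace Pool.Agent.WallR

open Prog

namespace MachR_

lemma reach_ret (stg : ℕ → Pt → Prog Pt) (hok : ∀ j p, (stg j p).Ok) (S : Set Rect) (n : ℝ)
    (J j : ℕ) (a : Pt) (h : (ret a : Prog Pt).Ok) (p : Pt) :
    (mach stg hok).reach S n (J + 1) ⟨(j, ret a), h⟩ p = if n ≤ p.1 then 1 else
      (mach stg hok).reach S n J ⟨(j + 1, stg (j + 1) a), hok _ _⟩ p := by
  simp only [Alg.reach, mach]
  split_ifs
  · rfl
  · simp

lemma reach_rand (stg : ℕ → Pt → Prog Pt) (hok : ∀ j p, (stg j p).Ok) (S : Set Rect) (n : ℝ)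
    (J j : ℕ) (k : ℕ) (w : Fin k → ℝ) (g : Fin k → Prog Pt) (h : (rand k w g).Ok) (p : Pt) :
    (mach stg hok).reach S n (J + 1) ⟨(j, rand k w g), h⟩ p = if n ≤ p.1 then 1 else
      ∑ i, w i * (mach stg hok).reach S n J ⟨(j, g i), h.2.2 i⟩ p := by
  simp only [Alg.reach, mach]

lemma reach_move (stg : ℕ → Pt → Prog Pt) (hok : ∀ j p, (stg j p).Ok) (S : Set Rect) (n : ℝ)
    (J j : ℕ) (q : Pt) (g : Pt → Set Rect → Prog Pt) (h : (move q g).Ok) (p : Pt) :
    (mach stg hok).reach S n (J + 1) ⟨(j, move q g), h⟩ p = if n ≤ p.1 then 1 else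
      (mach stg hok).reach S n J
        ⟨(j, g (stopAt S n p q) (touched S p (stopAt S n p q))), h _ _⟩ (stopAt S n p q) := by
  simp only [Alg.reach, mach]

lemma reach_line (A : Alg) (S : Set Rect) (n : ℝ) (J : ℕ) (s : A.State) (p : Pt)
    (h : n ≤ p.1) : A.reach S n J s p = 1 := by
  cases J with
  | zero => simp [Alg.reach, h]
  | succ J => simp [Alg.reach, h]

lemma reach_bounds (A : Alg) (S : Set Rect) (n : ℝ) : ∀ (J : ℕ) (s : A.State) (p : Pt),
    0 ≤ A.reach S n J s p ∧ A.reach S n J s p ≤ 1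
  | 0, s, p => by
    simp only [Alg.reach]
    split_ifs <;> norm_num
  | J + 1, s, p => by
    by_cases hp : n ≤ p.1
    · rw [reach_line _ _ _ _ _ _ hp]; norm_num
    simp only [Alg.reach, if_neg hp]
    cases hs : A.act s with
    | rand k w f =>
      have hv := A.valid s k w f hs
      refine ⟨Finset.sum_nonneg (fun i _ => mul_nonneg (hv.1 i) (reach_bounds A S n J _ _).1), ?_⟩
      calc ∑ i, w i * A.reach S n J (f i) p ≤ ∑ i, w i * 1 :=
            Finset.sum_le_sum (fun i _ => mul_le_mul_of_nonneg_left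
              (reach_bounds A S n J _ _).2 (hv.1 i))
        _ = 1 := by simpa using hv.2
    | move q f => exact reach_bounds A S n J _ _

/-- If from all possible outcomes the line is eventually reached with probability at least `ρ`,
then so it is from the program, with the probability of reaching it within the program added. -/
lemma prog_step (stg : ℕ → Pt → Prog Pt) (hok : ∀ j p, (stg j p).Ok) (S : Set Rect) (n : ℝ)
    (j : ℕ) (ρ : ℝ) (hρ : ρ ≤ 1) (P : Prog Pt) (h : P.Ok) (p : Pt)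
    (hs : sure S n P p (oprop True (fun a p' =>
      ∃ J0, ∀ J, J0 ≤ J → ρ ≤ (mach stg hok).reach S n J ⟨(j, ret a), trivial⟩ p'))) :
    ∃ J1, ∀ J, J1 ≤ J → ex S n P p (oext 1 (fun _ _ => ρ)) ≤
      (mach stg hok).reach S n J ⟨(j, P), h⟩ p := by
  induction P generalizing p with
  | ret a => exact hs
  | rand k w g ih =>
    have hi : ∀ i, ∃ J1, ∀ J, J1 ≤ J → ex S n (g i) p (oext 1 (fun _ _ => ρ)) ≤
        (mach stg hok).reach S n J ⟨(j, g i), h.2.2 i⟩ p := fun i => ih i (h.2.2 i) p (hs i)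
    choose f hf using hi
    refine ⟨Finset.univ.sup f + 1, fun J hJ => ?_⟩
    obtain ⟨J', rfl⟩ : ∃ J', J = J' + 1 := ⟨J - 1, by omega⟩
    rw [reach_rand]
    split_ifs with hp
    · have h1 : ex S n (rand k w g) p (oext 1 (fun _ _ => ρ)) ≤ ex S n (rand k w g) p (fun _ => 1) :=
        ex_mono h (fun o => by
          rcases o with _ | ⟨a, b⟩
          · simp
          · simpa using hρ)
      rwa [ex_const h] at h1
    · rw [ex_rand]
      apply Finset.sum_le_sum
      intro i _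
      apply mul_le_mul_of_nonneg_left _ (h.1 i)
      apply hf i
      have : f i ≤ Finset.univ.sup f := Finset.le_sup (Finset.mem_univ i)
      omega
  | move q g ih =>
    rw [sure_move] at hs
    by_cases hq : n ≤ (stopAt S n p q).1
    · refine ⟨1, fun J hJ => ?_⟩
      obtain ⟨J', rfl⟩ : ∃ J', J = J' + 1 := ⟨J - 1, by omega⟩
      rw [reach_move, ex_move, if_pos hq]
      split_ifs
      · simp
      · rw [reach_line _ _ _ _ _ _ hq]; simp
    · rw [if_neg hq] at hs
      obtain ⟨J1, hJ1⟩ := ih _ _ (h (stopAt S n p q) (touched S p (stopAt S n p q))) _ hs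
      refine ⟨J1 + 1, fun J hJ => ?_⟩
      obtain ⟨J', rfl⟩ : ∃ J', J = J' + 1 := ⟨J - 1, by omega⟩
      rw [reach_move, ex_move, if_neg hq]
      split_ifs with hp
      · have h1 := ex_mono (S := S) (n := n)
          (h (stopAt S n p q) (touched S p (stopAt S n p q))) (p := stopAt S n p q)
          (φ := oext 1 (fun _ _ => ρ)) (ψ := fun _ => 1) (fun o => by
            rcases o with _ | ⟨a, b⟩
            · simp
            · simpa using hρ)
        rwa [ex_const (h _ _)] at h1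
      · exact hJ1 J' (by omega)

/-- The law of the mass. -/
lemma ex_oext_one {P : Prog Pt} (h : P.Ok) (S : Set Rect) (n : ℝ) (p : Pt) (ρ : ℝ) :
    ex S n P p (oext 1 (fun _ _ => ρ)) =
      1 - (1 - ρ) * ex S n P p (oext 0 (fun _ _ => 1)) := by
  have h1 := ex_const (S := S) (n := n) h p 1
  have h2 := ex_sub (S := S) (n := n) P p (fun _ => 1)
    (fun o => (1 - ρ) * oext 0 (fun _ _ => 1) o)
  rw [h1, ex_smul] at h2
  rw [← h2]
  congr 1
  funext o
  rcases o with _ | ⟨a, b⟩ <;> simp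

end MachR_

open MachR_

theorem pMachR : tMachR := by
  intro stg hok S n Inv j0 h0 hst
  -- a uniform step from stage `j` to stage `j + 1`
  have step : ∀ (j : ℕ) (ρ : ℝ), ρ ≤ 1 →
      (∀ p, Inv (j + 1) p → ∃ J0, ∀ J, J0 ≤ J →
        ρ ≤ (mach stg hok).reach S n J ⟨(j + 1, stg (j + 1) p), hok _ _⟩ p) →
      ∀ p, Inv j p → ∃ J1, ∀ J, J1 ≤ J →
        1 - (1 - ρ) * ex S n (stg j p) p (oext 0 (fun _ _ => 1)) ≤
          (mach stg hok).reach S n J ⟨(j, stg j p), hok _ _⟩ p := by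
    intro j ρ hρ hnext p hp
    obtain ⟨_, hs, _⟩ := hst j p hp
    rw [← ex_oext_one (hok j p)]
    apply prog_step stg hok S n j ρ hρ (stg j p) (hok j p) p
    refine sure_mono hs ?_
    rintro (_ | ⟨a, p'⟩) ho
    · trivial
    · obtain ⟨rfl, hinv⟩ := ho
      obtain ⟨J0, hJ0⟩ := hnext a hinv
      refine ⟨J0 + 1, fun J hJ => ?_⟩
      obtain ⟨J', rfl⟩ : ∃ J', J = J' + 1 := ⟨J - 1, by omega⟩
      rw [reach_ret]
      split_ifs
      · exact hρ
      · exact hJ0 J' (by omega)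
  -- late stages
  have late : ∀ (t j : ℕ), j0 ≤ j → ∀ p, Inv j p → ∃ J1, ∀ J, J1 ≤ J →
      1 - (1 / 4 : ℝ) ^ t ≤ (mach stg hok).reach S n J ⟨(j, stg j p), hok _ _⟩ p := by
    intro t
    induction t with
    | zero =>
      intro j _ p _
      exact ⟨0, fun J _ => by simpa using (reach_bounds _ S n J _ _).1⟩
    | succ t ih =>
      intro j hj p hp
      have hρ : 1 - (1 / 4 : ℝ) ^ t ≤ 1 := by
        have : (0 : ℝ) ≤ (1 / 4 : ℝ) ^ t := by positivity
        linarith
      obtain ⟨J1, hJ1⟩ := step j (1 - (1 / 4 : ℝ) ^ t) hρ (fun p hp => ih (j + 1) (by omega) p hp)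
        p hp
      refine ⟨J1, fun J hJ => le_trans ?_ (hJ1 J hJ)⟩
      have he := (hst j p hp).2.2 hj
      have : (0 : ℝ) ≤ (1 / 4 : ℝ) ^ t := by positivity
      have h2 := mul_le_mul_of_nonneg_left he this
      rw [pow_succ]
      have e : (1 - (1 - (1 / 4 : ℝ) ^ t)) = (1 / 4 : ℝ) ^ t := by ring
      rw [e]
      linarith
  -- all stages
  have all : ∀ (t d j : ℕ), j0 ≤ j + d → ∀ p, Inv j p → ∃ J1, ∀ J, J1 ≤ J →
      1 - (1 / 4 : ℝ) ^ t ≤ (mach stg hok).reach S n J ⟨(j, stg j p), hok _ _⟩ p := by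
    intro t d
    induction d with
    | zero => intro j hj p hp; exact late t j (by omega) p hp
    | succ d ih =>
      intro j hj p hp
      have hρ : 1 - (1 / 4 : ℝ) ^ t ≤ 1 := by
        have : (0 : ℝ) ≤ (1 / 4 : ℝ) ^ t := by positivity
        linarith
      obtain ⟨J1, hJ1⟩ := step j (1 - (1 / 4 : ℝ) ^ t) hρ (fun p hp => ih (j + 1) (by omega) p hp)
        p hp
      refine ⟨J1, fun J hJ => le_trans ?_ (hJ1 J hJ)⟩
      have he1 : ex S n (stg j p) p (oext 0 (fun _ _ => 1)) ≤ 1 := by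
        have h := ex_mono (S := S) (n := n) (hok j p) (p := p)
          (φ := oext 0 (fun _ _ => 1)) (ψ := fun _ => 1) (fun o => by
          rcases o with _ | ⟨a, b⟩
          · simp
          · simp)
        rwa [ex_const (hok j p)] at h
      have : (0 : ℝ) ≤ (1 / 4 : ℝ) ^ t := by positivity
      have h2 := mul_le_mul_of_nonneg_left he1 this
      have e : (1 - (1 - (1 / 4 : ℝ) ^ t)) = (1 / 4 : ℝ) ^ t := by ring
      rw [e]
      linarith
  rw [Metric.tendsto_atTop]
  intro ε hε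
  obtain ⟨t, ht⟩ := exists_pow_lt_of_lt_one hε (by norm_num : (1 / 4 : ℝ) < 1)
  obtain ⟨J1, hJ1⟩ := all t j0 0 (by omega) (0, 0) h0
  refine ⟨J1, fun J hJ => ?_⟩
  have h1 := hJ1 J hJ
  have h2 := (reach_bounds (mach stg hok) S n J (mach stg hok).start (0, 0)).2
  have h3 : 1 - (1 / 4 : ℝ) ^ t ≤
      (mach stg hok).reach S n J (mach stg hok).start (0, 0) := h1
  rw [Real.dist_eq, abs_sub_lt_iff]
  constructor <;> linarith

end Pool.Agent.WallR
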