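import Pool.Agent.WallR.Targets

set_option autoImplicit false

/-!
# NUM: the choice of the parameters
-/

namespace Pool.Agent.WallR

namespace Num_

theorem uu_le (k N : ℕ) (g0 : ℝ) (hk : 1 ≤ k) (hg : 0 ≤ g0) (hN : k ≤ 10 * N) (i : ℕ) :
    uu k N g0 i ≤ g0 * k * (10 * N : ℝ) ^ i := by
  have hk' : (1 : ℝ) ≤ k := by exact_mod_cast hk
  have hN' : (k : ℝ) ≤ 10 * N := by exact_mod_cast hN
  induction i with
  | zero =>
    simp only [uu, pow_zero, mul_one]
    exact le_mul_of_one_le_right hg hk'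
  | succ i ih =>
    simp only [uu]
    have h1 : (k : ℝ) ^ i ≤ (10 * N : ℝ) ^ i := pow_le_pow_left₀ (by linarith) hN' i
    have h2 : (k : ℝ) ^ (i + 1) * g0 ≤ g0 * k * (10 * N : ℝ) ^ i := by
      calc (k : ℝ) ^ (i + 1) * g0 = g0 * k * (k : ℝ) ^ i := by ring
        _ ≤ g0 * k * (10 * N : ℝ) ^ i := by
            apply mul_le_mul_of_nonneg_left h1
            exact mul_nonneg hg (by linarith)
    calc (5 : ℝ) * N * ((k : ℝ) ^ (i + 1) * g0 + uu k N g0 i)
        ≤ 5 * N * (g0 * k * (10 * N : ℝ) ^ i + g0 * k * (10 * N : ℝ) ^ i) := by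
          apply mul_le_mul_of_nonneg_left (by linarith)
          exact mul_nonneg (by norm_num) (Nat.cast_nonneg _)
      _ = g0 * k * (10 * N : ℝ) ^ (i + 1) := by ring

end Num_

open Num_

theorem pNum : tNum := by
  refine ⟨60, by norm_num, fun n hn => ?_⟩
  set L : ℝ := Real.log n with hLdef
  have hn0 : 0 < n := by linarith
  have hL1 : Real.exp 1 ≤ L := by
    have h1 : Real.log 16 ≤ L := Real.log_le_log (by norm_num) hn
    have h2 : Real.log 16 = 4 * Real.log 2 := by
      rw [show (16 : ℝ) = 2 ^ (4 : ℕ) by norm_num, Real.log_pow]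
      norm_num
    have h3 := Real.log_two_gt_d9
    have h4 := Real.exp_one_lt_d9
    linarith
  have hLpos : 0 < L := lt_of_lt_of_le (Real.exp_pos 1) hL1
  have hL2 : 2 ≤ L := by
    have := Real.exp_one_gt_d9
    linarith
  set l : ℝ := Real.log L with hldef
  have hl1 : 1 ≤ l := (Real.le_log_iff_exp_le hLpos).2 hL1
  have hlL : l ≤ L := by
    have := Real.log_le_sub_one_of_pos hLpos
    linarith
  set s : ℝ := Real.sqrt (L * l) with hsdef
  have hs1 : l ≤ s := by
    apply Real.le_sqrt_of_sq_le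
    nlinarith
  have hsL : s ≤ L := by
    apply Real.sqrt_le_iff.2
    constructor
    · exact hLpos.le
    · nlinarith
  have hs0 : 1 ≤ s := hl1.trans hs1
  set t : ℝ := Real.sqrt (L / l) with htdef
  have ht0 : 0 < t := Real.sqrt_pos.2 (div_pos hLpos (by linarith))
  have hts : t * l = s := by
    rw [htdef, hsdef]
    rw [show L * l = L / l * (l * l) by field_simp, Real.sqrt_mul (by
      exact div_nonneg hLpos.le (by linarith)), Real.sqrt_mul_self (by linarith)]
  have htL : L / t = s := by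
    rw [div_eq_iff ht0.ne', ← hts]
    have : t * t = L / l := Real.mul_self_sqrt (div_nonneg hLpos.le (by linarith))
    have h2 : t * l * t = L / l * l := by rw [← this]; ring
    rw [h2]
    field_simp
  set M : ℕ := ⌈t⌉₊ with hMdef
  have hM1 : t ≤ M := Nat.le_ceil t
  have hM2 : (M : ℝ) < t + 1 := Nat.ceil_lt_add_one ht0.le
  have hM0 : (0 : ℝ) < M := lt_of_lt_of_le ht0 hM1
  have hLM : L / M ≤ s := by
    rw [← htL]
    exact div_le_div_of_nonneg_left hLpos.le ht0 hM1
  have hLM0 : 0 ≤ L / M := div_nonneg hLpos.le hM0.le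
  set k : ℕ := ⌈Real.exp (L / M)⌉₊ with hkdef
  have hk1 : Real.exp (L / M) ≤ k := Nat.le_ceil _
  have hk2 : (k : ℝ) < Real.exp (L / M) + 1 := Nat.ceil_lt_add_one (Real.exp_pos _).le
  have hexp1 : 1 ≤ Real.exp (L / M) := Real.one_le_exp hLM0
  have hk3 : (1 : ℝ) ≤ k := hexp1.trans hk1
  have hk4 : 1 ≤ k := by exact_mod_cast hk3
  have hk5 : (k : ℝ) ≤ 2 * Real.exp s := by
    have : Real.exp (L / M) ≤ Real.exp s := Real.exp_le_exp.2 hLM
    linarith
  have hlogk : Real.log k ≤ 1 + s := by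
    have h1 : Real.log k ≤ Real.log (2 * Real.exp s) := Real.log_le_log (by linarith) hk5
    rw [Real.log_mul (by norm_num) (Real.exp_pos _).ne', Real.log_exp] at h1
    have := Real.log_two_lt_d9
    linarith
  have hcast : ((2 * k - 1 : ℕ) : ℝ) = 2 * k - 1 := by
    rw [Nat.cast_sub (by omega)]
    push_cast
    ring
  set q : ℝ := 16 * (5 * ((2 * k - 1 : ℕ) : ℝ) * Real.log ((2 * k - 1 : ℕ) : ℝ) +
    5 * Real.log 2 * k) with hqdef
  have hlog0 : 0 ≤ Real.log ((2 * k - 1 : ℕ) : ℝ) := by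
    apply Real.log_nonneg
    rw [hcast]
    linarith
  have hlog1 : Real.log ((2 * k - 1 : ℕ) : ℝ) ≤ 2 + s := by
    have h1 : Real.log ((2 * k - 1 : ℕ) : ℝ) ≤ Real.log (2 * k) := by
      apply Real.log_le_log
      · rw [hcast]
        linarith
      · rw [hcast]
        linarith
    rw [Real.log_mul (by norm_num) (by linarith)] at h1
    have := Real.log_two_lt_d9
    linarith
  have hl2a := Real.log_two_gt_d9
  have hl2b := Real.log_two_lt_d9
  have hq1 : (k : ℝ) ≤ q := by
    have h1 : 0 ≤ 5 * ((2 * k - 1 : ℕ) : ℝ) * Real.log ((2 * k - 1 : ℕ) : ℝ) :=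
      mul_nonneg (mul_nonneg (by norm_num) (Nat.cast_nonneg _)) hlog0
    have h2 : (k : ℝ) ≤ 16 * (5 * Real.log 2 * k) := by nlinarith
    rw [hqdef]
    linarith
  have hq2 : q ≤ 16 * (10 * k * (2 + s) + 5 * k) := by
    rw [hqdef, hcast]
    have h1 : 5 * (2 * (k : ℝ) - 1) * Real.log ((2 * k - 1 : ℕ) : ℝ) ≤ 10 * k * (2 + s) := by
      calc 5 * (2 * (k : ℝ) - 1) * Real.log ((2 * k - 1 : ℕ) : ℝ)
          ≤ 10 * k * Real.log ((2 * k - 1 : ℕ) : ℝ) := by
            apply mul_le_mul_of_nonneg_right _ hlog0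
            linarith
        _ ≤ 10 * k * (2 + s) := by
            apply mul_le_mul_of_nonneg_left hlog1
            linarith
    have h2 : 5 * Real.log 2 * k ≤ 5 * (k : ℝ) := by nlinarith
    rw [← hcast] at h1 ⊢
    linarith
  set N : ℕ := ⌈q⌉₊ with hNdef
  have hN1 : q ≤ N := Nat.le_ceil q
  have hN2 : (N : ℝ) < q + 1 := Nat.ceil_lt_add_one (by linarith)
  have hNk : (k : ℝ) ≤ N := hq1.trans hN1
  have hNk' : k ≤ N := by exact_mod_cast hNk
  have hnk : n ≤ (k : ℝ) ^ M := by
    calc n = Real.exp L := (Real.exp_log hn0).symm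
      _ = Real.exp (L / M) ^ M := by
          rw [← Real.exp_nat_mul]
          congr 1
          field_simp
      _ ≤ (k : ℝ) ^ M := pow_le_pow_left₀ (Real.exp_pos _).le hk1 M
  refine ⟨k, N, M, hk4, by omega, hnk, hN1, ?_⟩
  -- the bound
  have hkpos : (0 : ℝ) < k := by linarith
  have hY0 : (10 : ℝ) ≤ 10 * N / k := by
    rw [le_div_iff₀ hkpos]
    linarith
  have hY1 : 10 * (N : ℝ) / k ≤ 8000 * L := by
    rw [div_le_iff₀ hkpos]
    have h1 : (N : ℝ) ≤ 16 * (10 * k * (2 + s) + 5 * k) + k := by linarith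
    have h2 : (k : ℝ) * s ≤ k * L := mul_le_mul_of_nonneg_left hsL hkpos.le
    have h3 : (k : ℝ) * 1 ≤ k * L := mul_le_mul_of_nonneg_left (by linarith) hkpos.le
    nlinarith
  have hu : uu k N (2 / (k : ℝ) ^ M) M ≤ 2 * k * (10 * N / k) ^ M := by
    have h1 := uu_le k N (2 / (k : ℝ) ^ M) hk4 (by positivity) (by omega) M
    refine h1.trans (le_of_eq ?_)
    rw [div_pow]
    field_simp
  have hY5 : (5 : ℝ) ^ M ≤ (10 * N / k) ^ M := pow_le_pow_left₀ (by norm_num) (by linarith) M
  have hYp : 0 < (10 * (N : ℝ) / k) ^ M := pow_pos (by linarith) M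
  have hcc : 6 * cc k N M ≤ 78 * (k : ℝ) ^ 2 * (10 * N / k) ^ M := by
    unfold cc
    have h1 : 5 * (k : ℝ) * uu k N (2 / (k : ℝ) ^ M) M ≤
        5 * k * (2 * k * (10 * N / k) ^ M) := by
      apply mul_le_mul_of_nonneg_left hu
      linarith
    have h2 : (10 * (N : ℝ) / k) ^ M ≤ (k : ℝ) ^ 2 * (10 * N / k) ^ M := by
      apply le_mul_of_one_le_left hYp.le
      nlinarith
    nlinarith
  refine hcc.trans ?_
  have hlogY : Real.log (10 * N / k) ≤ 11 * l := by
    have h1 : Real.log (10 * N / k) ≤ Real.log (8000 * L) :=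
      Real.log_le_log (by linarith) hY1
    rw [Real.log_mul (by norm_num) hLpos.ne'] at h1
    have h2 : Real.log 8000 ≤ 10 := by
      rw [Real.log_le_iff_le_exp (by norm_num)]
      have h3 : (2.7 : ℝ) ^ 10 ≤ Real.exp 1 ^ 10 :=
        pow_le_pow_left₀ (by norm_num) (by have := Real.exp_one_gt_d9; linarith) 10
      have h4 : Real.exp 1 ^ 10 = Real.exp 10 := by
        rw [← Real.exp_nat_mul]
        norm_num
      rw [h4] at h3
      refine le_trans ?_ h3
      norm_num
    linarith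
  have hMlog : M * Real.log (10 * N / k) ≤ 22 * s := by
    have h0 : 0 ≤ Real.log (10 * N / k) := Real.log_nonneg (by linarith)
    calc (M : ℝ) * Real.log (10 * N / k) ≤ (t + 1) * (11 * l) :=
          mul_le_mul hM2.le hlogY h0 (by linarith)
      _ = 11 * (t * l) + 11 * l := by ring
      _ ≤ 22 * s := by
          rw [hts]
          linarith
  have h78 : (78 : ℝ) ≤ Real.exp 5 := by
    have h3 : (2.7 : ℝ) ^ 5 ≤ Real.exp 1 ^ 5 :=
      pow_le_pow_left₀ (by norm_num) (by have := Real.exp_one_gt_d9; linarith) 5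
    have h4 : Real.exp 1 ^ 5 = Real.exp 5 := by
      rw [← Real.exp_nat_mul]
      norm_num
    rw [h4] at h3
    refine le_trans ?_ h3
    norm_num
  have hkE : (k : ℝ) ^ 2 = Real.exp (2 * Real.log k) := by
    rw [show 2 * Real.log k = Real.log k * (2 : ℕ) by push_cast; ring, mul_comm,
      Real.exp_nat_mul, Real.exp_log hkpos]
  have hYE : (10 * (N : ℝ) / k) ^ M = Real.exp (M * Real.log (10 * N / k)) := by
    rw [Real.exp_nat_mul, Real.exp_log (by linarith)]
  rw [hkE, hYE]
  calc 78 * Real.exp (2 * Real.log k) * Real.exp (M * Real.log (10 * N / k))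
      ≤ Real.exp 5 * Real.exp (2 * Real.log k) * Real.exp (M * Real.log (10 * N / k)) := by
        apply mul_le_mul_of_nonneg_right _ (Real.exp_pos _).le
        exact mul_le_mul_of_nonneg_right h78 (Real.exp_pos _).le
    _ = Real.exp (5 + 2 * Real.log k + M * Real.log (10 * N / k)) := by
        rw [Real.exp_add, Real.exp_add]
    _ ≤ Real.exp (60 * s) := by
        apply Real.exp_le_exp.2
        linarith

end Pool.Agent.WallR
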