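import Pool.Agent.WallR.Targets

/-!
POT: the change of the potential in one probe.
-/

open scoped BigOperators

namespace Pool.Agent.WallR

namespace Pot_

variable {m : ℕ}

lemma wt_pos (c : ℕ) : 0 < wt c := by
  unfold wt; positivity

lemma wt_succ (c : ℕ) : wt (c + 1) = wt c / 2 := by
  unfold wt; rw [pow_succ]; ring

lemma log_wt (c : ℕ) : Real.log (wt c) = -(c * Real.log 2) := by
  unfold wt
  rw [Real.log_pow, one_div, Real.log_inv]
  ring

lemma sum_pos (c : Fin m → ℕ) (s : Fin m) : 0 < ∑ t, wt (c t) :=
  Finset.sum_pos (fun t _ => wt_pos _) ⟨s, Finset.mem_univ _⟩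

lemma le_sum (c : Fin m → ℕ) (s : Fin m) : wt (c s) ≤ ∑ t, wt (c t) :=
  Finset.single_le_sum (f := fun t => wt (c t)) (fun t _ => (wt_pos _).le) (Finset.mem_univ s)

lemma sum_inc (c : Fin m → ℕ) (s : Fin m) :
    ∑ t, wt (inc c s t) = (∑ t, wt (c t)) - wt (c s) / 2 := by
  classical
  rw [← Finset.add_sum_erase _ _ (Finset.mem_univ s),
    ← Finset.add_sum_erase (Finset.univ : Finset (Fin m)) (fun t => wt (c t)) (Finset.mem_univ s)]
  have h : ∑ t ∈ Finset.univ.erase s, wt (inc c s t) = ∑ t ∈ Finset.univ.erase s, wt (c t) := by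
    refine Finset.sum_congr rfl fun t ht => ?_
    rw [inc, Function.update_of_ne (Finset.ne_of_mem_erase ht)]
  rw [h, inc, Function.update_self, wt_succ]
  ring

lemma log_inc (c : Fin m → ℕ) (s : Fin m) :
    Real.log (∑ t, wt (inc c s t)) ≤ Real.log (∑ t, wt (c t)) - prb c s / 2 := by
  have hW := sum_pos c s
  have h1 := le_sum c s
  have h2 := wt_pos (c s)
  have h3 : (∑ t, wt (inc c s t)) = (∑ t, wt (c t)) * (1 - prb c s / 2) := by
    rw [sum_inc, prb]
    field_simp
  have h4 : prb c s ≤ 1 := by
    rw [prb, div_le_one hW]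
    exact h1
  have h5 : 0 < 1 - prb c s / 2 := by linarith
  rw [h3, Real.log_mul hW.ne' h5.ne']
  have := Real.log_le_sub_one_of_pos h5
  linarith

lemma inc_val (c : Fin m → ℕ) (s s0 : Fin m) :
    ((inc c s s0 : ℕ) : ℝ) = c s0 + if s = s0 then 1 else 0 := by
  unfold inc
  by_cases h : s = s0
  · subst h
    rw [Function.update_self, if_pos rfl]
    push_cast
    ring
  · rw [Function.update_of_ne (Ne.symm h), if_neg h]
    ring

end Pot_

open Pot_

theorem pPot : tPot := by
  classical
  intro m c s0 r hr0 hr1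
  have hm : (0 : ℝ) < m := by
    have : 0 < m := Fin.pos s0
    exact_mod_cast this
  constructor
  · unfold pot
    have h1 := Real.log_le_log (wt_pos (c s0)) (le_sum c s0)
    rw [log_wt] at h1
    have h2 : 0 ≤ Real.log (∑ t, wt (c t)) + c s0 * Real.log 2 := by linarith
    positivity
  · have h1 : ∀ s, (1 / (m : ℝ)) * (r s * pot (upd c (s, true)) s0 +
        (1 - r s) * pot (upd c (s, false)) s0) ≤
        (1 / (m : ℝ)) * pot c s0 - (5 / 2) * (prb c s * r s) +
          if s = s0 then 5 * Real.log 2 * r s else 0 := by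
      intro s
      have e1 : upd c (s, true) = inc c s := by simp [upd]
      have e2 : upd c (s, false) = c := by simp [upd]
      rw [e1, e2]
      have h2 : pot (inc c s) s0 ≤ pot c s0 + 5 * m * (-(prb c s / 2) +
          (if s = s0 then 1 else 0) * Real.log 2) := by
        unfold pot
        rw [inc_val]
        have h3 := log_inc c s
        have h4 : Real.log (∑ t, wt (inc c s t)) +
            ((c s0 : ℝ) + if s = s0 then 1 else 0) * Real.log 2 ≤
            (Real.log (∑ t, wt (c t)) + c s0 * Real.log 2) + (-(prb c s / 2) +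
              (if s = s0 then 1 else 0) * Real.log 2) := by
          linarith
        have h5 : (0 : ℝ) ≤ 5 * m := by positivity
        have h6 := mul_le_mul_of_nonneg_left h4 h5
        linarith
      have h3 := mul_le_mul_of_nonneg_left h2 (hr0 s)
      have h4 : (1 / (m : ℝ)) * (r s * pot (inc c s) s0 + (1 - r s) * pot c s0) ≤
          (1 / (m : ℝ)) * (pot c s0 + r s * (5 * m * (-(prb c s / 2) +
            (if s = s0 then 1 else 0) * Real.log 2))) := by
        apply mul_le_mul_of_nonneg_left _ (by positivity)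
        linarith
      refine h4.trans (le_of_eq ?_)
      split_ifs
      · field_simp
        ring
      · field_simp
        ring
    refine (Finset.sum_le_sum fun s _ => h1 s).trans (le_of_eq ?_)
    rw [Finset.sum_add_distrib, Finset.sum_sub_distrib, ← Finset.mul_sum, ← Finset.mul_sum]
    simp only [Finset.sum_const, Finset.card_univ, Fintype.card_fin, nsmul_eq_mul,
      Finset.sum_ite_eq', Finset.mem_univ, if_true]
    have : ∑ x : Fin m, (if x = s0 then 5 * Real.log 2 * r x else 0) = 5 * Real.log 2 * r s0 := by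
      rw [Finset.sum_ite_eq' Finset.univ s0 (fun x => 5 * Real.log 2 * r x)]
      simp
    field_simp

end Pool.Agent.WallR
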