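import Pool.Agent.WallR.Targets

/-!
Proof of `tRnd`: the rounds of multiplicative weights form a walker.
-/

open scoped BigOperators ENNReal

namespace Pool.Agent.WallR

open Prog

namespace Rnd_

lemma wt_pos (c : ℕ) : 0 < wt c := by unfold wt; positivity

lemma sum_wt_pos {m : ℕ} (hm : 0 < m) (c : Fin m → ℕ) : 0 < ∑ t, wt (c t) := by
  have : Nonempty (Fin m) := ⟨⟨0, hm⟩⟩
  exact Finset.sum_pos (fun i _ => wt_pos _) Finset.univ_nonempty

lemma prb_nonneg {m : ℕ} (c : Fin m → ℕ) (s : Fin m) : 0 ≤ prb c s :=
  div_nonneg (wt_pos _).le (Finset.sum_nonneg (fun _ _ => (wt_pos _).le))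

lemma prb_sum {m : ℕ} (hm : 0 < m) (c : Fin m → ℕ) : ∑ s, prb c s = 1 := by
  unfold prb
  rw [← Finset.sum_div]
  exact div_self (sum_wt_pos hm c).ne'

lemma unif_sum {m : ℕ} (hm : 0 < m) : ∑ _s : Fin m, (1 / (m : ℝ)) = 1 := by
  have : (m : ℝ) ≠ 0 := by exact_mod_cast hm.ne'
  simp [this]

lemma probe_ok {m : ℕ} (hm : 0 < m) (sub : Fin m → ℝ → Pt → Prog (Option Pt)) (p : Pt) (r : ℝ)
    (h : ∀ s, (sub s r p).Ok) : (probe sub p r).Ok := by
  unfold probe
  exact ⟨fun i => by positivity, unif_sum hm, fun s => (h s).bind (fun _ => trivial)⟩

lemma rounds_ok (h4 : tTourOk) {m : ℕ} (hm : 0 < m) (sub : Fin m → ℝ → Pt → Prog (Option Pt))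
    (hs : ∀ s R p, (sub s R p).Ok) :
    ∀ (N : ℕ) (c : Fin m → ℕ) (R : ℝ) (p : Pt), (rounds sub N c R p).Ok := by
  intro N
  induction N with
  | zero => intro c R p; trivial
  | succ N ih =>
    intro c R p
    unfold rounds
    exact ⟨prb_nonneg c, prb_sum hm c, fun h => h4 _ p _ _ _ (hs _ _ _)
      (fun x => probe_ok hm sub p x.1 (fun s => hs _ _ _)) (fun x b => ih _ _ _)⟩

/-- Weighted average of a constant. -/
lemma avg_const {m : ℕ} {w : Fin m → ℝ} (hw : ∑ s, w s = 1) (c : ℝ) : ∑ s, w s * c = c := by
  rw [← Finset.sum_mul, hw, one_mul]

end Rnd_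

open Rnd_

theorem pRnd (_h1 : tTourLaw) (h2 : tTourSure) (h3 : tTourCost) (h4 : tTourOk) (h5 : tLaw) :
    tRnd := by
  intro S n lo hi A u m sub hm hA hu hs N
  have hok : ∀ (N : ℕ) (c : Fin m → ℕ) (R : ℝ) (p : Pt), (rounds sub N c R p).Ok :=
    rounds_ok h4 hm sub (fun s R p => (hs s).ok R p)
  induction N with
  | zero =>
    intro c
    refine ⟨fun R p => trivial, ?_, ?_, ?_⟩
    · intro R p hp h1 _
      exact ⟨rfl, hp, le_rfl, h1⟩
    · intro r R p psi _ h1 _ _
      show psi (some p) = psi (cut r (some p))
      simp [cut, h1]
    · intro R p _ _ _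
      show (0 : ℝ) ≤ 5 * A * (p.1 - p.1) + 5 * ((0 : ℕ) : ℝ) * u
      simp
  | succ N ih =>
    intro c
    refine ⟨fun R p => hok _ _ _ _, ?_, ?_, ?_⟩
    · -- out
      intro R p hp hpR hR
      show sure S n (rounds sub (N + 1) c R p) p _
      unfold rounds
      rw [sure_rand]
      intro h
      refine h2 S n _ p _ _ _ _ hp.free hp.xn ?_
      refine sure_mono ((hs h).out R p hp hpR hR) ?_
      rintro (_ | ⟨_ | x, p'⟩) ho
      · exact ho
      · refine ⟨fun _ => ho, ?_⟩
        intro x hx; simp at hx
      · obtain ⟨hx1, hx2, hx3, hx4⟩ := ho
        refine ⟨fun hx => by simp at hx, ?_⟩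
        intro x' hx'
        simp only [Option.some.injEq] at hx'
        subst hx'
        refine ⟨hx1, ?_⟩
        unfold probe
        rw [sure_rand]
        intro s
        rw [sure_bind]
        refine sure_mono ((hs s).out x.1 p hp hx3 hx2.xn.le) ?_
        rintro (_ | ⟨o, p''⟩) ho
        · exact le_trans (show n ≤ x.1 from ho) hx4
        · rw [oprop_some, sure_ret, oprop_some]
          refine sure_mono ((ih (upd c (s, o.isSome))).out R x hx2 hx4 hR) ?_
          rintro (_ | ⟨_ | z, q⟩) hz
          · exact hz
          · exact hz
          · exact ⟨hz.1, hz.2.1, hx3.trans hz.2.2.1, hz.2.2.2⟩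
    · -- cutE
      intro r R p psi hp hpr hrR hR
      rw [h5 S n lo hi A u m sub hm hs N c r p psi hp hpr (hrR.trans hR),
        h5 S n lo hi A u m sub hm hs N c R p _ hp (hpr.trans hrR) hR]
      refine Finset.sum_congr rfl (fun h _ => ?_)
      congr 1
      rw [(hs h).cutE r R p _ hp hpr hrR hR]
      unfold EV
      refine ex_congr_sure ((hs h).out R p hp (hpr.trans hrR) hR) ?_
      rintro (_ | ⟨_ | x, p'⟩) ho
      · rfl
      · rfl
      · obtain ⟨hx1, hx2, hx3, hx4⟩ := ho
        by_cases hxr : x.1 ≤ r
        · simp only [view, cut, hxr, if_true, oo_some]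
          refine Finset.sum_congr rfl (fun s _ => ?_)
          congr 1
          congr 1
          funext o
          exact (ih (upd c (s, (view o).isSome))).cutE r R x psi hx2 hxr hrR hR
        · simp only [view, cut, hxr, if_false, oo_some, oo_none]
          push Not at hxr
          have key : ∀ c' : Fin m → ℕ,
              ex S n (rounds sub N c' R x) x (fun o => psi (cut r (view o))) = psi none := by
            intro c'
            have := ex_congr_sure (S := S) (n := n) ((ih c').out R x hx2 hx4 hR)
              (φ := fun o => psi (cut r (view o))) (ψ := fun _ => psi none) (by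
                rintro (_ | ⟨_ | z, q⟩) hz
                · rfl
                · rfl
                · obtain ⟨_, _, hz3, _⟩ := hz
                  have : ¬ z.1 ≤ r := by
                    push Not
                    exact lt_of_lt_of_le hxr hz3
                  simp [view, cut, this])
            rw [this, ex_const (hok _ _ _ _)]
          have e : ∀ s : Fin m, ex S n (sub s x.1 p) p (fun o =>
              ex S n (rounds sub N (upd c (s, (view o).isSome)) R x) x
                (fun o' => psi (cut r (view o')))) = psi none := by
            intro s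
            simp only [key]
            exact ex_const ((hs s).ok _ _) _ _
          have e2 := avg_const (unif_sum hm) (psi none)
          rw [← e2]
          refine Finset.sum_congr rfl (fun s _ => ?_)
          rw [← e s]
          rfl
    · -- cost
      intro R p hp hpR hR
      show co S n (rounds sub (N + 1) c R p) p ≤
        5 * A * EV S n (rounds sub (N + 1) c R p) p (prog R p) + 5 * ((N + 1 : ℕ) : ℝ) * u
      rw [h5 S n lo hi A u m sub hm hs N c R p _ hp hpR hR]
      set inner : Pt → ℝ := fun x => ∑ s, (1 / (m : ℝ)) * EV S n (sub s x.1 p) p (fun o =>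
          EV S n (rounds sub N (upd c (s, o.isSome)) R x) x (prog R p)) with hinner
      -- the bound on the probing and the rest
      have hx_bound : ∀ x : Pt, Dom S n lo hi x → p.1 ≤ x.1 → x.1 ≤ R →
          2 * co S n (probe sub p x.1) p + ex S n (probe sub p x.1) p
            (oext 0 (fun b _ => co S n (rounds sub N (upd c b) R x) x)) ≤
          5 * A * inner x - 3 * A * (x.1 - p.1) + (5 * N + 2) * u := by
        intro x hx hpx hxR
        have hprobe : co S n (probe sub p x.1) p ≤ A * (x.1 - p.1) + u := by
          unfold probe
          rw [co_rand]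
          have e2 := avg_const (unif_sum hm) (A * (x.1 - p.1) + u)
          rw [← e2]
          refine Finset.sum_le_sum (fun s _ => mul_le_mul_of_nonneg_left ?_ (by positivity))
          rw [co_bind]
          have z : ex S n (sub s x.1 p) p (oext 0 (fun o p' =>
              co S n (ret (s, o.isSome) : Prog (Fin m × Bool)) p')) = 0 := by
            have : (oext 0 (fun o p' =>
              co S n (ret (s, o.isSome) : Prog (Fin m × Bool)) p')) =
              (fun _ : Option (Option Pt × Pt) => (0 : ℝ)) := by
              funext o
              rcases o with _ | ⟨o, p'⟩ <;> rfl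
            rw [this, ex_zero]
          rw [z, add_zero]
          refine ((hs s).cost x.1 p hp hpx hx.xn.le).trans ?_
          have : EV S n (sub s x.1 p) p (prog x.1 p) ≤ x.1 - p.1 := by
            have h := ex_mono_sure (S := S) (n := n) ((hs s).ok x.1 p)
              ((hs s).out x.1 p hp hpx hx.xn.le)
              (φ := fun o => prog x.1 p (view o)) (ψ := fun _ => x.1 - p.1) (by
                rintro (_ | ⟨_ | z, q⟩) hz
                · exact le_rfl
                · exact le_rfl
                · obtain ⟨_, _, _, hz4⟩ := hz
                  show z.1 - p.1 ≤ x.1 - p.1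
                  linarith)
            rw [ex_const ((hs s).ok x.1 p)] at h
            exact h
          nlinarith
        have hrest : ex S n (probe sub p x.1) p
            (oext 0 (fun b _ => co S n (rounds sub N (upd c b) R x) x)) ≤
            5 * A * inner x - 5 * A * (x.1 - p.1) + 5 * N * u := by
          have e0 : 5 * A * inner x - 5 * A * (x.1 - p.1) + 5 * N * u =
              ∑ s : Fin m, (1 / (m : ℝ)) * (5 * A * EV S n (sub s x.1 p) p (fun o =>
                EV S n (rounds sub N (upd c (s, o.isSome)) R x) x (prog R p)) +
                (5 * N * u - 5 * A * (x.1 - p.1))) := by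
            simp only [mul_add, Finset.sum_add_distrib]
            rw [avg_const (unif_sum hm) (5 * N * u - 5 * A * (x.1 - p.1)), hinner]
            simp only [Finset.mul_sum]
            have : ∀ s : Fin m, 5 * A * (1 / (m : ℝ) * EV S n (sub s x.1 p) p (fun o =>
                EV S n (rounds sub N (upd c (s, o.isSome)) R x) x (prog R p))) =
                1 / (m : ℝ) * (5 * A * EV S n (sub s x.1 p) p (fun o =>
                EV S n (rounds sub N (upd c (s, o.isSome)) R x) x (prog R p))) := by
              intro s; ring
            simp only [this]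
            ring
          rw [e0]
          unfold probe
          rw [ex_rand]
          refine Finset.sum_le_sum (fun s _ => mul_le_mul_of_nonneg_left ?_ (by positivity))
          rw [ex_bind]
          have e1 : 5 * A * EV S n (sub s x.1 p) p (fun o =>
                EV S n (rounds sub N (upd c (s, o.isSome)) R x) x (prog R p)) +
                (5 * N * u - 5 * A * (x.1 - p.1)) =
              ex S n (sub s x.1 p) p (fun o => 5 * A *
                EV S n (rounds sub N (upd c (s, (view o).isSome)) R x) x (prog R p) +
                (5 * N * u - 5 * A * (x.1 - p.1))) := by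
            rw [ex_add, ex_smul, ex_const ((hs s).ok _ _)]
            rfl
          rw [e1]
          refine ex_mono_sure ((hs s).ok _ _) ((hs s).out x.1 p hp hpx hx.xn.le) ?_
          rintro (_ | ⟨o, p''⟩) ho
          · exact absurd (show n ≤ x.1 from ho) (not_le.mpr hx.xn)
          · show co S n (rounds sub N (upd c (s, o.isSome)) R x) x ≤ 5 * A *
                EV S n (rounds sub N (upd c (s, o.isSome)) R x) x (prog R p) +
                (5 * N * u - 5 * A * (x.1 - p.1))
            have hc := (ih (upd c (s, o.isSome))).cost R x hx hxR hR
            have hsplit : EV S n (rounds sub N (upd c (s, o.isSome)) R x) x (prog R p) =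
                (x.1 - p.1) + EV S n (rounds sub N (upd c (s, o.isSome)) R x) x (prog R x) := by
              unfold EV
              rw [← ex_const (S := S) (n := n) (hok N (upd c (s, o.isSome)) R x) x (x.1 - p.1),
                ← ex_add]
              congr 1
              funext o'
              rcases o' with _ | ⟨_ | z, q⟩ <;> simp [view, prog]
            rw [hsplit]
            have hc' : co S n (rounds sub N (upd c (s, o.isSome)) R x) x ≤ 5 * A *
              EV S n (rounds sub N (upd c (s, o.isSome)) R x) x (prog R x) + 5 * N * u := hc
            nlinarith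
        nlinarith
      unfold rounds
      rw [co_rand]
      have e3 : 5 * A * ∑ h, prb c h * EV S n (sub h R p) p (oo (prog R p none) inner) +
          5 * ((N + 1 : ℕ) : ℝ) * u =
          ∑ h, prb c h * (5 * A * EV S n (sub h R p) p (oo (prog R p none) inner) +
            5 * ((N + 1 : ℕ) : ℝ) * u) := by
        simp only [mul_add, Finset.sum_add_distrib]
        rw [avg_const (prb_sum hm c), Finset.mul_sum]
        congr 1
        exact Finset.sum_congr rfl (fun s _ => by ring)
      rw [e3]
      refine Finset.sum_le_sum (fun h _ => mul_le_mul_of_nonneg_left ?_ (prb_nonneg c h))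
      have hsure := (hs h).out R p hp hpR hR
      refine (h3 S n _ p _ _ _ hp.free hp.xn ((hs h).ok R p)
        (fun x => probe_ok hm sub p x.1 (fun s => (hs s).ok _ _))
        (sure_mono hsure ?_)).trans ?_
      · rintro (_ | ⟨_ | x, p'⟩) ho
        · trivial
        · intro x hx; simp at hx
        · intro x' hx'
          simp only [Option.some.injEq] at hx'
          subst hx'
          exact ho.1
      · have hc1 := (hs h).cost R p hp hpR hR
        have hc2 : 3 * (A * EV S n (sub h R p) p (prog R p)) +
            ex S n (sub h R p) p (oext 0 (fun o _ =>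
              oo 0 (fun x => 2 * co S n (probe sub p x.1) p +
                ex S n (probe sub p x.1) p
                  (oext 0 (fun b _ => co S n (rounds sub N (upd c b) R x) x))) o)) ≤
            5 * A * EV S n (sub h R p) p (oo (prog R p none) inner) + (5 * N + 2) * u := by
          have l1 : 3 * (A * EV S n (sub h R p) p (prog R p)) +
            ex S n (sub h R p) p (oext 0 (fun o _ =>
              oo 0 (fun x => 2 * co S n (probe sub p x.1) p +
                ex S n (probe sub p x.1) p
                  (oext 0 (fun b _ => co S n (rounds sub N (upd c b) R x) x))) o)) =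
            ex S n (sub h R p) p (fun o => (3 * A) * prog R p (view o) +
              oext 0 (fun o _ =>
              oo 0 (fun x => 2 * co S n (probe sub p x.1) p +
                ex S n (probe sub p x.1) p
                  (oext 0 (fun b _ => co S n (rounds sub N (upd c b) R x) x))) o) o) := by
            rw [ex_add, ex_smul]
            unfold EV
            ring
          have l2 : 5 * A * EV S n (sub h R p) p (oo (prog R p none) inner) + (5 * N + 2) * u =
            ex S n (sub h R p) p (fun o => (5 * A) * oo (prog R p none) inner (view o) +
              (5 * N + 2) * u) := by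
            rw [ex_add, ex_smul, ex_const ((hs h).ok R p)]
            rfl
          rw [l1, l2]
          have hN : (0 : ℝ) ≤ N := Nat.cast_nonneg N
          refine ex_mono_sure ((hs h).ok R p) hsure ?_
          rintro (_ | ⟨_ | x, p'⟩) ho
          · show 3 * A * (R - p.1) + 0 ≤ 5 * A * (R - p.1) + (5 * N + 2) * u
            have : 0 ≤ A * (R - p.1) := mul_nonneg hA (by linarith)
            have : 0 ≤ (5 * (N : ℝ) + 2) * u := by positivity
            nlinarith
          · show 3 * A * (R - p.1) + 0 ≤ 5 * A * (R - p.1) + (5 * N + 2) * u
            have : 0 ≤ A * (R - p.1) := mul_nonneg hA (by linarith)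
            have : 0 ≤ (5 * (N : ℝ) + 2) * u := by positivity
            nlinarith
          · obtain ⟨hx1, hx2, hx3, hx4⟩ := ho
            have := hx_bound x hx2 hx3 hx4
            show 3 * A * (x.1 - p.1) + (2 * co S n (probe sub p x.1) p +
                ex S n (probe sub p x.1) p
                  (oext 0 (fun b _ => co S n (rounds sub N (upd c b) R x) x))) ≤
                5 * A * inner x + (5 * N + 2) * u
            linarith
        push_cast
        linarith

end Pool.Agent.WallR
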