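import Pool.Agent.WallR.Targets

open scoped BigOperators

namespace Pool.Agent.WallR

open Prog

namespace Seq_

/-- Law of `seqW` with the actual position replaced by the returned point. -/
lemma ex_seq {S : Set Rect} {n lo hi lo' hi' A u : ℝ} {P Q : ℝ → Pt → Prog (Option Pt)}
    (hP : IsWalker S n lo hi lo' hi' A u P) {R : ℝ} {p : Pt} (hp : Dom S n lo hi p)
    (hpR : p.1 ≤ R) (hRn : R ≤ n) (psi : Option Pt → ℝ) :
    EV S n (seqW P Q R p) p psi =
      EV S n (P R p) p (oo (psi none) (fun x => EV S n (Q R x) x psi)) := by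
  unfold EV seqW
  rw [ex_bind]
  refine ex_congr_sure (hP.out R p hp hpR hRn) ?_
  rintro (_ | ⟨_ | x, p'⟩) ho
  · rfl
  · rfl
  · obtain ⟨rfl, _⟩ := ho
    rfl

lemma co_seq {S : Set Rect} {n lo hi lo' hi' A u : ℝ} {P Q : ℝ → Pt → Prog (Option Pt)}
    (hP : IsWalker S n lo hi lo' hi' A u P) {R : ℝ} {p : Pt} (hp : Dom S n lo hi p)
    (hpR : p.1 ≤ R) (hRn : R ≤ n) :
    co S n (seqW P Q R p) p = co S n (P R p) p +
      EV S n (P R p) p (oo 0 (fun x => co S n (Q R x) x)) := by
  unfold EV seqW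
  rw [co_bind]
  congr 1
  refine ex_congr_sure (hP.out R p hp hpR hRn) ?_
  rintro (_ | ⟨_ | x, p'⟩) ho
  · rfl
  · rfl
  · obtain ⟨rfl, _⟩ := ho
    rfl

/-- Monotonicity of `EV` for a walker. -/
lemma EV_mono {S : Set Rect} {n lo hi lo' hi' A u : ℝ} {P : ℝ → Pt → Prog (Option Pt)}
    (hP : IsWalker S n lo hi lo' hi' A u P) {R : ℝ} {p : Pt} (hp : Dom S n lo hi p)
    (hpR : p.1 ≤ R) (hRn : R ≤ n) {f g : Option Pt → ℝ} (h0 : f none ≤ g none)
    (h1 : ∀ x, Dom S n lo' hi' x → p.1 ≤ x.1 → x.1 ≤ R → f (some x) ≤ g (some x)) :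
    EV S n (P R p) p f ≤ EV S n (P R p) p g := by
  unfold EV
  refine ex_mono_sure (hP.ok R p) (hP.out R p hp hpR hRn) ?_
  rintro (_ | ⟨_ | x, p'⟩) ho
  · exact h0
  · exact h0
  · obtain ⟨rfl, hx, h2, h3⟩ := ho
    exact h1 x hx h2 h3

lemma EV_congr {S : Set Rect} {n lo hi lo' hi' A u : ℝ} {P : ℝ → Pt → Prog (Option Pt)}
    (hP : IsWalker S n lo hi lo' hi' A u P) {R : ℝ} {p : Pt} (hp : Dom S n lo hi p)
    (hpR : p.1 ≤ R) (hRn : R ≤ n) {f g : Option Pt → ℝ} (h0 : f none = g none)
    (h1 : ∀ x, Dom S n lo' hi' x → p.1 ≤ x.1 → x.1 ≤ R → f (some x) = g (some x)) :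
    EV S n (P R p) p f = EV S n (P R p) p g :=
  le_antisymm (EV_mono hP hp hpR hRn h0.le (fun x a b c => (h1 x a b c).le))
    (EV_mono hP hp hpR hRn h0.ge (fun x a b c => (h1 x a b c).ge))

lemma EV_const {S : Set Rect} {n : ℝ} {P : Prog (Option Pt)} (h : P.Ok) (p : Pt) (c : ℝ) :
    EV S n P p (fun _ => c) = c := ex_const h p c

lemma EV_add {S : Set Rect} {n : ℝ} (P : Prog (Option Pt)) (p : Pt) (f g : Option Pt → ℝ) :
    EV S n P p (fun o => f o + g o) = EV S n P p f + EV S n P p g := ex_add P p _ _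

lemma EV_smul {S : Set Rect} {n : ℝ} (P : Prog (Option Pt)) (p : Pt) (c : ℝ)
    (f : Option Pt → ℝ) : EV S n P p (fun o => c * f o) = c * EV S n P p f := ex_smul P p c _

lemma prog_nonneg_EV {S : Set Rect} {n lo hi lo' hi' A u : ℝ} {P : ℝ → Pt → Prog (Option Pt)}
    (hP : IsWalker S n lo hi lo' hi' A u P) {R : ℝ} {p : Pt} (hp : Dom S n lo hi p)
    (hpR : p.1 ≤ R) (hRn : R ≤ n) : 0 ≤ EV S n (P R p) p (prog R p) := by
  have := EV_mono hP hp hpR hRn (f := fun _ => 0) (g := prog R p)
    (by simp only [prog, oo_none]; linarith)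
    (fun x _ h _ => by simp only [prog, oo_some]; linarith)
  rwa [EV_const (hP.ok R p)] at this

/-- Beyond `r`, everything is cut. -/
lemma EV_beyond {S : Set Rect} {n lo hi lo' hi' A u : ℝ} {P : ℝ → Pt → Prog (Option Pt)}
    (hP : IsWalker S n lo hi lo' hi' A u P) {r R : ℝ} {p : Pt} (hp : Dom S n lo hi p)
    (hr : r < p.1) (hpR : p.1 ≤ R) (hRn : R ≤ n) (psi : Option Pt → ℝ) :
    EV S n (P R p) p (fun o => psi (cut r o)) = psi none := by
  have h := EV_congr hP hp hpR hRn (f := fun o => psi (cut r o)) (g := fun _ => psi none) rfl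
    (fun x _ h _ => by
      simp only [cut]
      rw [if_neg (by linarith)])
  rw [h, EV_const (hP.ok R p)]

end Seq_

open Seq_

theorem pSeq : tSeq := by
  intro S n lo hi lo' hi' lo'' hi'' A u A' u' P Q hA hAA hu' hP hQ
  refine ⟨?_, ?_, ?_, ?_⟩
  · intro R p
    unfold seqW
    refine (hP.ok R p).bind ?_
    rintro (_ | x)
    · trivial
    · exact hQ.ok R x
  · intro R p hp hpR hRn
    unfold seqW
    rw [sure_bind]
    refine sure_mono (hP.out R p hp hpR hRn) ?_
    rintro (_ | ⟨_ | x, p'⟩) ho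
    · exact ho
    · exact ho
    · obtain ⟨rfl, hx, h2, h3⟩ := ho
      simp only [oprop_some]
      refine sure_mono (hQ.out R x hx h3 hRn) ?_
      rintro (_ | ⟨_ | z, p''⟩) hz
      · exact hz
      · exact hz
      · obtain ⟨rfl, hz, h4, h5⟩ := hz
        exact ⟨rfl, hz, h2.trans h4, h5⟩
  · intro r R p psi hp hpr hrR hRn
    rw [ex_seq hP hp hpr (hrR.trans hRn), ex_seq hP hp (hpr.trans hrR) hRn,
      hP.cutE r R p _ hp hpr hrR hRn]
    refine EV_congr hP hp (hpr.trans hrR) hRn rfl ?_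
    intro x hx h1 h2
    by_cases hxr : x.1 ≤ r
    · simp only [cut, if_pos hxr, oo_some]
      exact hQ.cutE r R x psi hx hxr hrR hRn
    · simp only [cut, if_neg hxr, oo_some, oo_none]
      exact (EV_beyond hQ hx (not_le.mp hxr) h2 hRn psi).symm
  · intro R p hp hpR hRn
    rw [co_seq hP hp hpR hRn, ex_seq hP hp hpR hRn]
    have h1 := hP.cost R p hp hpR hRn
    have hnn := prog_nonneg_EV hP hp hpR hRn
    -- the second part
    have h2 : EV S n (P R p) p (oo 0 (fun x => co S n (Q R x) x)) ≤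
        EV S n (P R p) p (oo 0 (fun x => A' * EV S n (Q R x) x (prog R x) + u')) := by
      refine EV_mono hP hp hpR hRn le_rfl ?_
      intro x hx _ h3
      simp only [oo_some]
      exact hQ.cost R x hx h3 hRn
    have h3 : EV S n (P R p) p (oo 0 (fun x => A' * EV S n (Q R x) x (prog R x) + u')) ≤
        A' * EV S n (P R p) p (oo 0 (fun x => EV S n (Q R x) x (prog R x))) + u' := by
      have e : A' * EV S n (P R p) p (oo 0 (fun x => EV S n (Q R x) x (prog R x))) + u' =
          EV S n (P R p) p (fun o => A' * oo 0 (fun x => EV S n (Q R x) x (prog R x)) o + u') := by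
        rw [EV_add, EV_smul, EV_const (hP.ok R p)]
      rw [e]
      refine EV_mono hP hp hpR hRn ?_ ?_
      · simpa using hu'
      · intro x _ _ _
        simp only [oo_some]
        exact le_rfl
    have h4 : EV S n (P R p) p (oo (prog R p none) (fun x => EV S n (Q R x) x (prog R p))) =
        EV S n (P R p) p (prog R p) +
          EV S n (P R p) p (oo 0 (fun x => EV S n (Q R x) x (prog R x))) := by
      rw [← EV_add]
      refine EV_congr hP hp hpR hRn (by simp) ?_
      intro x hx _ h3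
      simp only [oo_some]
      have e : prog R p (some x) = x.1 - p.1 := rfl
      rw [e]
      have e2 : prog R p = fun o => (x.1 - p.1) + prog R x o := by
        funext o
        rcases o with _ | z
        · simp only [prog, oo_none]; ring
        · simp only [prog, oo_some]; ring
      conv_lhs => rw [e2]
      rw [EV_add, EV_const (hQ.ok R x)]
    rw [h4]
    have h5 : A * EV S n (P R p) p (prog R p) ≤ A' * EV S n (P R p) p (prog R p) :=
      mul_le_mul_of_nonneg_right hAA hnn
    nlinarith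

theorem pSeqG : tSeqG := by
  intro S n lo hi lo' hi' A u t t' eps P Q heps hP hQ R p hp htp hpR hRn
  rw [ex_seq hP hp hpR hRn]
  have := EV_mono hP hp hpR hRn
    (f := oo (below t' none) (fun x => EV S n (Q R x) x (below t'))) (g := fun _ => eps)
    (by simpa [below] using heps)
    (fun x hx h1 h2 => by
      simp only [oo_some]
      exact hQ R x hx (htp.trans h1) h2 hRn)
  rwa [EV_const (hP.ok R p)] at this

end Pool.Agent.WallR
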