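import Pool.Agent.WallR.Targets

/-!
The stages (`tStage`).
-/

open scoped BigOperators ENNReal

namespace Pool.Agent.WallR

open Prog

namespace Stage_

/-- the last step of a stage -/
def fin : Option Pt → Prog Pt
  | none => ret (0, 0)
  | some x => ret x

/-- the walker of a stage, for the scale `D` -/
noncomputable def wk (k N M : ℕ) (D : ℝ) (R : ℝ) (x : Pt) : Prog (Option Pt) :=
  lvl k N (⌈2 * D⌉₊ + 1) (2 * D / (k : ℝ) ^ M) M (-D) R x

lemma stage_eq (n : ℝ) (k N M j : ℕ) (p : Pt) : stage n k N M j p =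
    (iter (wk k N M (2 ^ j * n)) (5 * k) n p).bind fin := by
  unfold stage
  congr 1

lemma isScene_empty : IsScene (∅ : Set Rect) where
  wide := fun O hO => absurd hO (Set.notMem_empty O)
  tall := fun O hO => absurd hO (Set.notMem_empty O)
  disj := fun O hO => absurd hO (Set.notMem_empty O)
  locfin := fun r => by
    have : {O | O ∈ (∅ : Set Rect) ∧ ∃ p ∈ O.body, |p.1| ≤ r ∧ |p.2| ≤ r} = ∅ := by
      ext O
      simp
    rw [this]
    exact Set.finite_empty
  origin := fun O hO => absurd hO (Set.notMem_empty O)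

lemma uu_mul (k N : ℕ) (D g : ℝ) (i : ℕ) : uu k N (D * g) i = D * uu k N g i := by
  induction i with
  | zero => rfl
  | succ i ih =>
    simp only [uu, ih]
    ring

lemma uu_nonneg (k N : ℕ) {g : ℝ} (hg : 0 ≤ g) (i : ℕ) : 0 ≤ uu k N g i := by
  induction i with
  | zero => exact hg
  | succ i ih =>
    simp only [uu]
    positivity

lemma Dom.mono {S : Set Rect} {n lo hi lo' hi' : ℝ} {p : Pt} (h : Dom S n lo hi p)
    (h1 : lo' ≤ lo) (h2 : hi ≤ hi') : Dom S n lo' hi' p :=
  ⟨h.free, h.x0, h.xn, h1.trans h.ylo, h.yhi.trans h2⟩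

end Stage_

open Stage_

theorem pStage (h1 : tLvlW) (h2 : tLvl) (h3 : tIter) : tStage := by
  intro n k N M hn hk hN hkM hNk
  have hkpos : (0 : ℝ) < k := by exact_mod_cast hk
  have hkM0 : (0 : ℝ) < (k : ℝ) ^ M := by positivity
  -- the walker
  have hD1 : ∀ j : ℕ, n ≤ 2 ^ j * n := fun j =>
    le_mul_of_one_le_left (by linarith) (one_le_pow₀ (by norm_num))
  have hD0 : ∀ j : ℕ, 0 < 2 ^ j * n := fun j => lt_of_lt_of_le (by linarith) (hD1 j)
  have hg0 : ∀ j : ℕ, 0 < 2 * (2 ^ j * n) / (k : ℝ) ^ M := fun j =>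
    div_pos (mul_pos two_pos (hD0 j)) hkM0
  have hgk : ∀ j : ℕ, (k : ℝ) ^ M * (2 * (2 ^ j * n) / (k : ℝ) ^ M) = 2 * (2 ^ j * n) := fun j =>
    mul_div_cancel₀ _ hkM0.ne'
  have hF : ∀ j : ℕ, 2 * (2 ^ j * n) < ((⌈2 * (2 ^ j * n)⌉₊ + 1 : ℕ) : ℝ) := fun j => by
    push_cast
    have := Nat.le_ceil (2 * (2 ^ j * n))
    linarith
  have hF2 : ∀ j : ℕ, n < ((⌈2 * (2 ^ j * n)⌉₊ + 1 : ℕ) : ℝ) := fun j => by
    have a1 := hF j
    have a2 := hD1 j
    linarith
  have hend : ∀ j : ℕ, -(2 ^ j * n) + (k : ℝ) ^ M * (2 * (2 ^ j * n) / (k : ℝ) ^ M) =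
      2 ^ j * n := fun j => by
    rw [hgk]
    ring
  have hA0 : ∀ j : ℕ, 0 ≤ (5 : ℝ) ^ M * (1 + 2 * (2 ^ j * n) / (k : ℝ) ^ M) := fun j => by
    have := (hg0 j).le
    positivity
  have hW : ∀ (S : Set Rect), IsScene S → ∀ j : ℕ,
      IsWalker S n (-(2 ^ j * n)) (2 ^ j * n) (-(2 ^ j * n)) (2 ^ j * n)
      (5 ^ M * (1 + 2 * (2 ^ j * n) / (k : ℝ) ^ M)) (uu k N (2 * (2 ^ j * n) / (k : ℝ) ^ M) M)
      (wk k N M (2 ^ j * n)) := by
    intro S hS j
    have h := h1 S n hS k N _ _ hk (hg0 j) (hF2 j) M (by rw [hgk]; exact hF j) (-(2 ^ j * n))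
    rw [hend] at h
    exact h
  have hI : ∀ (S : Set Rect), IsScene S → ∀ j : ℕ,
      IsWalker S n (-(2 ^ j * n)) (2 ^ j * n) (-(2 ^ j * n)) (2 ^ j * n)
      (5 ^ M * (1 + 2 * (2 ^ j * n) / (k : ℝ) ^ M))
      ((5 * k : ℕ) * uu k N (2 * (2 ^ j * n) / (k : ℝ) ^ M) M)
      (fun R p => iter (wk k N M (2 ^ j * n)) (5 * k) R p) := fun S hS j =>
    (h3 S n _ _ _ _ _ (hA0 j) (uu_nonneg k N (hg0 j).le M) (hW S hS j) (5 * k)).1
  refine ⟨fun j p => ?_, fun S hS j p hp => ?_⟩
  · rw [stage_eq]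
    refine Ok.bind ((hI ∅ isScene_empty j).ok n p) fun o => ?_
    cases o <;> exact trivial
  · have hout := (hI S hS j).out n p hp hp.xn.le le_rfl
    have hOk : (iter (wk k N M (2 ^ j * n)) (5 * k) n p).Ok := (hI S hS j).ok n p
    refine ⟨?_, ?_, ?_⟩
    · rw [stage_eq, sure_bind]
      refine sure_mono hout fun o ho => ?_
      rcases o with _ | ⟨_ | x, p'⟩
      · trivial
      · exact absurd ho (lt_irrefl n)
      · obtain ⟨hx, hd, -, -⟩ := ho
        refine ⟨hx, Dom.mono hd ?_ ?_⟩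
        · have := hD0 j
          rw [pow_succ]
          linarith
        · have := hD0 j
          rw [pow_succ]
          linarith
    · rw [stage_eq, co_bind]
      have e1 : (oext 0 (fun a p' => co S n (fin a) p') : Option (Option Pt × Pt) → ℝ) =
          fun _ => 0 := by
        funext o
        rcases o with _ | ⟨_ | x, p'⟩ <;> rfl
      rw [e1, ex_zero, add_zero]
      have hc := (hI S hS j).cost n p hp hp.xn.le le_rfl
      have hEV : EV S n (iter (wk k N M (2 ^ j * n)) (5 * k) n p) p (prog n p) ≤ n := by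
        have e2 : EV S n (iter (wk k N M (2 ^ j * n)) (5 * k) n p) p (prog n p) ≤
            ex S n (iter (wk k N M (2 ^ j * n)) (5 * k) n p) p (fun _ => n) := by
          refine ex_mono_sure hOk hout fun o ho => ?_
          have hx0 := hp.x0
          rcases o with _ | ⟨_ | x, p'⟩
          · simp only [view, prog, oo_none]
            linarith
          · simp only [view, prog, oo_none]
            linarith
          · obtain ⟨-, -, -, hx⟩ := ho
            simp only [view, prog, oo_some]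
            linarith
        rwa [ex_const hOk] at e2
      have e3 : 2 * (2 ^ j * n) / (k : ℝ) ^ M = (2 ^ j * n) * (2 / (k : ℝ) ^ M) := by ring
      have e4 : 2 * (2 ^ j * n) / (k : ℝ) ^ M * n ≤ 2 * (2 ^ j * n) := by
        rw [div_mul_eq_mul_div, div_le_iff₀ hkM0]
        exact mul_le_mul_of_nonneg_left hkM (by have := hD0 j; linarith)
      have e5 : (5 : ℝ) ^ M * (1 + 2 * (2 ^ j * n) / (k : ℝ) ^ M) *
          EV S n (iter (wk k N M (2 ^ j * n)) (5 * k) n p) p (prog n p) ≤
          3 * 5 ^ M * (2 ^ j * n) := by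
        calc (5 : ℝ) ^ M * (1 + 2 * (2 ^ j * n) / (k : ℝ) ^ M) *
              EV S n (iter (wk k N M (2 ^ j * n)) (5 * k) n p) p (prog n p)
            ≤ (5 : ℝ) ^ M * (1 + 2 * (2 ^ j * n) / (k : ℝ) ^ M) * n :=
              mul_le_mul_of_nonneg_left hEV (hA0 j)
          _ = (5 : ℝ) ^ M * (n + 2 * (2 ^ j * n) / (k : ℝ) ^ M * n) := by ring
          _ ≤ (5 : ℝ) ^ M * (2 ^ j * n + 2 * (2 ^ j * n)) :=
              mul_le_mul_of_nonneg_left (add_le_add (hD1 j) e4) (by positivity)
          _ = 3 * 5 ^ M * (2 ^ j * n) := by ring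
      have e6 : ((5 * k : ℕ) : ℝ) * uu k N (2 * (2 ^ j * n) / (k : ℝ) ^ M) M =
          5 * k * uu k N (2 / (k : ℝ) ^ M) M * (2 ^ j * n) := by
        rw [e3, uu_mul]
        push_cast
        ring
      have e7 : cc k N M * (2 ^ j * n) = 3 * 5 ^ M * (2 ^ j * n) +
          5 * k * uu k N (2 / (k : ℝ) ^ M) M * (2 ^ j * n) := by
        unfold cc
        ring
      rw [e7, ← e6]
      exact hc.trans (add_le_add e5 le_rfl)
    · rintro l ⟨C⟩ hl0 hlD
      rw [stage_eq, ex_bind]
      have hG := (h2 S n l hS C k N _ _ hk (hg0 j) (hF2 j) hN hNk M (by rw [hgk]; exact hF j)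
        (-(2 ^ j * n))).2
      rw [hend, hgk] at hG
      have hth : Monotone fun i : ℕ => C.m ((i : ℝ) * l / k) := by
        intro i i' hii
        refine C.mono ?_
        refine div_le_div_of_nonneg_right ?_ hkpos.le
        exact mul_le_mul_of_nonneg_right (by exact_mod_cast hii) hl0
      have hmain := (h3 S n _ _ _ _ _ (hA0 j) (uu_nonneg k N (hg0 j).le M) (hW S hS j)
        (5 * k)).2 (fun i : ℕ => C.m ((i : ℝ) * l / k)) k hth ?_ n p hp ?_ hp.xn.le le_rfl
      · have e1 : C.m ((k : ℝ) * l / k) = C.m l := by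
          rw [mul_div_cancel_left₀ _ hkpos.ne']
        rw [e1] at hmain
        have e2 : ex S n (iter (wk k N M (2 ^ j * n)) (5 * k) n p) p
            (oext (oext 0 (fun _ _ => 1) (none : Option (Pt × Pt)))
              (fun a p' => ex S n (fin a) p' (oext 0 (fun _ _ => 1)))) ≤
            EV S n (iter (wk k N M (2 ^ j * n)) (5 * k) n p) p (below (C.m l)) := by
          refine ex_mono_sure hOk hout fun o ho => ?_
          rcases o with _ | ⟨_ | x, p'⟩
          · simp [view, below]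
          · exact absurd ho (lt_irrefl n)
          · obtain ⟨-, hd, -, -⟩ := ho
            have hx : x.1 < C.m l := hd.xn.trans_le C.ml
            simp [view, below, fin, ex_ret, hx]
        refine e2.trans ?_
        have e3 : (((5 * k : ℕ) : ℝ)) = 5 * k := by push_cast; ring
        rw [e3] at hmain
        have e4 : EV S n (iter (wk k N M (2 ^ j * n)) (5 * k) n p) p (below (C.m l)) ≤ 16 / 75 := by
          have e5 : (5 * (k : ℝ)) *
              EV S n (iter (wk k N M (2 ^ j * n)) (5 * k) n p) p (below (C.m l)) ≤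
              (5 * (k : ℝ)) * (16 / 75) := by
            calc _ ≤ 16 / 15 * (k : ℝ) := hmain
              _ = (5 * (k : ℝ)) * (16 / 75) := by ring
          exact le_of_mul_le_mul_left e5 (by positivity)
        linarith
      · intro i hi R q hq hth1 hqR hRn
        have hi' : ((i : ℝ) + 1) ≤ k := by exact_mod_cast hi
        have huu : (i : ℝ) * l / k ≤ ((i + 1 : ℕ) : ℝ) * l / k := by
          refine div_le_div_of_nonneg_right ?_ hkpos.le
          exact mul_le_mul_of_nonneg_right (by push_cast; linarith) hl0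
        have hlast : ((i + 1 : ℕ) : ℝ) * l / k ≤ l := by
          rw [div_le_iff₀ hkpos]
          push_cast
          nlinarith
        refine hG ((i : ℝ) * l / k) (((i + 1 : ℕ) : ℝ) * l / k) R q huu ?_ ?_ hq hth1 hqR hRn
        · have e1 : ((i + 1 : ℕ) : ℝ) * l / k - (i : ℝ) * l / k = l / k := by
            push_cast
            ring
          have e2 : 2 * (2 ^ j * n) / (2 * (k : ℝ)) = (2 ^ j * n) / k := by
            rw [mul_div_mul_left _ _ two_ne_zero]
          rw [e1, e2]
          exact div_le_div_of_nonneg_right hlD hkpos.le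
        · intro t ht1 ht2
          have ht0 : 0 ≤ t := le_trans (by positivity) ht1
          have htD : t ≤ 2 ^ j * n := (ht2.trans hlast).trans hlD
          have hlip := C.lip t 0
          rw [C.y0, sub_zero, sub_zero, abs_of_nonneg ht0] at hlip
          have h4 := abs_le.1 (hlip.trans htD)
          exact ⟨h4.1, h4.2⟩
      · have e1 : C.m (((0 : ℕ) : ℝ) * l / k) = C.m 0 := by simp
        change C.m (((0 : ℕ) : ℝ) * l / k) ≤ p.1
        rw [e1]
        exact C.m0.trans hp.x0

end Pool.Agent.WallR
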