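import Pool.Agent.WallR.Targets

/-!
WALL-STOPA: general facts on straight moves, slides along the sides of an obstacle.
-/

open scoped BigOperators ENNReal

namespace Pool.Agent.WallR

namespace StopA_

lemma isClosed_free (S : Set Rect) : IsClosed (Free S) := by
  have h : Free S = ⋂ O ∈ S, (Rect.inner O)ᶜ := by
    ext p
    simp [Free]
  rw [h]
  refine isClosed_biInter fun O _ => IsOpen.isClosed_compl ?_
  have e : O.inner = {p : Pt | O.x1 < p.1} ∩ ({p : Pt | p.1 < O.x2} ∩
      ({p : Pt | O.y1 < p.2} ∩ {p : Pt | p.2 < O.y2})) := by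
    ext p
    simp [Rect.inner]
  rw [e]
  exact (isOpen_lt continuous_const continuous_fst).inter
    ((isOpen_lt continuous_fst continuous_const).inter
      ((isOpen_lt continuous_const continuous_snd).inter
        (isOpen_lt continuous_snd continuous_const)))

lemma pos_cont (p q : Pt) : Continuous (pos p q) := by
  unfold pos
  fun_prop

/-- the good parameters -/
def good (S : Set Rect) (n : ℝ) (p q : Pt) : Set ℝ :=
  {t | pos p q t ∈ Free S ∧ (pos p q t).1 ≤ n}

lemma isClosed_good (S : Set Rect) (n : ℝ) (p q : Pt) : IsClosed (good S n p q) := by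
  have h1 : IsClosed {t | pos p q t ∈ Free S} := (isClosed_free S).preimage (pos_cont p q)
  have h2 : IsClosed {t | (pos p q t).1 ≤ n} :=
    isClosed_le (continuous_fst.comp (pos_cont p q)) continuous_const
  exact h1.inter h2

lemma pos_zero (p q : Pt) : pos p q 0 = p := by
  unfold pos
  simp

lemma pos_one (p q : Pt) : pos p q 1 = q := by
  unfold pos
  simp

lemma zero_mem {S : Set Rect} {n : ℝ} {p q : Pt} (hp : p ∈ Free S) (hn : p.1 ≤ n) :
    (0 : ℝ) ∈ okTimes S n p q := by
  refine ⟨le_rfl, zero_le_one, fun s h1 h2 => ?_⟩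
  have : s = 0 := le_antisymm h2 h1
  subst this
  rw [pos_zero]
  exact ⟨hp, hn⟩

lemma bdd (S : Set Rect) (n : ℝ) (p q : Pt) : BddAbove (okTimes S n p q) :=
  ⟨1, fun _ ht => ht.2.1⟩

lemma sup_mem {S : Set Rect} {n : ℝ} {p q : Pt} (hp : p ∈ Free S) (hn : p.1 ≤ n) :
    sSup (okTimes S n p q) ∈ okTimes S n p q := by
  have h0 := zero_mem (q := q) hp hn
  have hne : (okTimes S n p q).Nonempty := ⟨0, h0⟩
  refine ⟨le_csSup (bdd S n p q) h0, csSup_le hne fun t ht => ht.2.1, fun s h1 h2 => ?_⟩
  rcases h2.lt_or_eq with h | h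
  · obtain ⟨t, ht, hst⟩ := exists_lt_of_lt_csSup hne h
    exact ht.2.2 s h1 hst.le
  · rw [h]
    have hsub : okTimes S n p q ⊆ good S n p q := fun t ht => ht.2.2 t ht.1 le_rfl
    exact (isClosed_good S n p q).closure_subset_iff.2 hsub (csSup_mem_closure hne (bdd S n p q))

lemma stop_of_all {S : Set Rect} {n : ℝ} {p q : Pt}
    (h : ∀ t, 0 ≤ t → t ≤ 1 → pos p q t ∈ Free S ∧ (pos p q t).1 ≤ n) : stopAt S n p q = q := by
  have h1 : okTimes S n p q = Set.Icc 0 1 := by
    ext t
    constructor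
    · intro ht
      exact ⟨ht.1, ht.2.1⟩
    · intro ht
      exact ⟨ht.1, ht.2, fun s hs hst => h s hs (hst.trans ht.2)⟩
  unfold stopAt
  rw [h1, csSup_Icc zero_le_one, pos_one]

lemma pos_pos (p q : Pt) (T s : ℝ) : pos p (pos p q T) s = pos p q (s * T) := by
  unfold pos
  ext <;> simp <;> ring

lemma pos_pos' (p q : Pt) (T s : ℝ) : pos (pos p q T) p s = pos p q (T * (1 - s)) := by
  unfold pos
  ext <;> simp <;> ring

lemma inner_sub (O : Rect) : O.inner ⊆ O.body := fun _ h => ⟨h.1.le, h.2.1.le, h.2.2.1.le, h.2.2.2.le⟩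

end StopA_

open StopA_

theorem pStop : tStop := by
  intro S n p q hp hn
  have hT := sup_mem (q := q) hp hn
  set T := sSup (okTimes S n p q) with hTdef
  have e : stopAt S n p q = pos p q T := rfl
  rw [e]
  obtain ⟨hT0, hT1, hTs⟩ := hT
  refine ⟨(hTs T hT0 le_rfl).1, (hTs T hT0 le_rfl).2, ⟨T, hT0, hT1, rfl⟩, ?_, ?_, ?_⟩
  · refine stop_of_all fun t h0 h1 => ?_
    rw [pos_pos]
    exact hTs _ (mul_nonneg h0 hT0) (by nlinarith)
  · refine stop_of_all fun t h0 h1 => ?_
    rw [pos_pos']
    exact hTs _ (mul_nonneg hT0 (by linarith)) (by nlinarith)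
  · intro h
    rw [← e]
    exact stop_of_all h

theorem pSlide : tSlide := by
  intro S n hS O hO
  have h1 : ∀ p ∈ O.body, p ∉ O.inner → p ∈ Free S := by
    intro p hp hp' O' hO' hin
    by_cases h : O' = O
    · rw [h] at hin
      exact hp' hin
    · exact Set.disjoint_left.1 (hS.disj O' hO' O hO h) (inner_sub O' hin) hp
  refine ⟨h1, ?_, ?_, ?_⟩
  · intro p hp O' hO' hp'
    by_contra h
    exact Set.disjoint_left.1 (hS.disj O' hO' O hO h) hp' hp
  · intro x y y' hx hxn hy1 hy2 hy1' hy2'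
    have hw := hS.wide O hO
    refine stop_of_all fun t h0 ht => ?_
    have e : pos (x, y) (x, y') t = (x, y + t * (y' - y)) := by
      unfold pos
      simp
    rw [e]
    refine ⟨h1 _ ⟨?_, ?_, ?_, ?_⟩ ?_, hxn⟩
    · show O.x1 ≤ x
      rcases hx with rfl | rfl <;> linarith
    · show x ≤ O.x2
      rcases hx with rfl | rfl <;> linarith
    · show O.y1 ≤ y + t * (y' - y)
      nlinarith
    · show y + t * (y' - y) ≤ O.y2
      nlinarith
    · intro hin
      have a1 : O.x1 < x := hin.1
      have a2 : x < O.x2 := hin.2.1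
      rcases hx with rfl | rfl
      · exact lt_irrefl _ a1
      · exact lt_irrefl _ a2
  · intro x x' y hy hx1 hx2 hx1' hx2' hxn hxn'
    have ht' := hS.tall O hO
    refine stop_of_all fun t h0 ht => ?_
    have e : pos (x, y) (x', y) t = (x + t * (x' - x), y) := by
      unfold pos
      simp
    rw [e]
    refine ⟨h1 _ ⟨?_, ?_, ?_, ?_⟩ ?_, ?_⟩
    · show O.x1 ≤ x + t * (x' - x)
      nlinarith
    · show x + t * (x' - x) ≤ O.x2
      nlinarith
    · show O.y1 ≤ y
      rcases hy with rfl | rfl <;> linarith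
    · show y ≤ O.y2
      rcases hy with rfl | rfl <;> linarith
    · intro hin
      have a1 : O.y1 < y := hin.2.2.1
      have a2 : y < O.y2 := hin.2.2.2
      rcases hy with rfl | rfl
      · exact lt_irrefl _ a1
      · exact lt_irrefl _ a2
    · show x + t * (x' - x) ≤ n
      nlinarith

end Pool.Agent.WallR
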