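import Pool.Agent.WallR.StopA

/-!
WALL-STOPB: horizontal and vertical moves.
-/

open scoped BigOperators ENNReal

namespace Pool.Agent.WallR

namespace StopB_

open StopA_ Filter Topology

lemma conv_abs (a b s : ℝ) (h0 : 0 ≤ s) (h1 : s ≤ 1) : |a + s * (b - a)| ≤ |a| + |b| := by
  have e : a + s * (b - a) = (1 - s) * a + s * b := by ring
  rw [e]
  refine (abs_add_le _ _).trans ?_
  rw [abs_mul, abs_mul, abs_of_nonneg (a := 1 - s) (by linarith), abs_of_nonneg h0]
  nlinarith [abs_nonneg a, abs_nonneg b]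

lemma conv_le {a b n s : ℝ} (ha : a ≤ n) (hb : b ≤ n) (h0 : 0 ≤ s) (h1 : s ≤ 1) :
    a + s * (b - a) ≤ n := by
  nlinarith

lemma block {S : Set Rect} {n : ℝ} (hS : IsScene S) {p q : Pt} (hp : p ∈ Free S) (hn : p.1 ≤ n)
    (hq : q.1 ≤ n) (hT : sSup (okTimes S n p q) < 1) :
    ∃ O ∈ S, ∃ᶠ s in 𝓝[>] (sSup (okTimes S n p q)), pos p q s ∈ O.inner := by
  by_contra hcon
  push Not at hcon
  have hmem := sup_mem (q := q) hp hn
  set T := sSup (okTimes S n p q) with hTd
  have hF := hS.locfin ((|p.1| + |q.1|) + (|p.2| + |q.2|))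
  have h1 : ∀ᶠ s in 𝓝[>] T, ∀ O ∈ {O | O ∈ S ∧ ∃ x ∈ O.body,
      |x.1| ≤ (|p.1| + |q.1|) + (|p.2| + |q.2|) ∧ |x.2| ≤ (|p.1| + |q.1|) + (|p.2| + |q.2|)},
      pos p q s ∉ O.inner :=
    (Filter.eventually_all_finite hF).2 fun O hO => hcon O hO.1
  obtain ⟨u, hu, hsub⟩ := mem_nhdsGT_iff_exists_Ioo_subset.1 h1
  have hu' : T < u := hu
  have hTt : T < min ((T + u) / 2) ((T + 1) / 2) := lt_min (by linarith) (by linarith)
  have htu : min ((T + u) / 2) ((T + 1) / 2) < u := (min_le_left _ _).trans_lt (by linarith)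
  have ht1 : min ((T + u) / 2) ((T + 1) / 2) < 1 := (min_le_right _ _).trans_lt (by linarith)
  set t := min ((T + u) / 2) ((T + 1) / 2) with htd
  have ht : t ∈ okTimes S n p q := by
    refine ⟨hmem.1.trans hTt.le, ht1.le, fun s hs0 hst => ?_⟩
    rcases le_or_gt s T with h | h
    · exact hmem.2.2 s hs0 h
    · have hs1 : s ≤ 1 := hst.trans ht1.le
      refine ⟨fun O hO hin => ?_, conv_le hn hq hs0 hs1⟩
      refine hsub ⟨h, hst.trans_lt htu⟩ O ⟨hO, pos p q s, inner_sub O hin, ?_, ?_⟩ hin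
      · refine (conv_abs p.1 q.1 s hs0 hs1).trans ?_
        linarith [abs_nonneg p.2, abs_nonneg q.2]
      · refine (conv_abs p.2 q.2 s hs0 hs1).trans ?_
        linarith [abs_nonneg p.1, abs_nonneg q.1]
  have := le_csSup (bdd S n p q) ht
  linarith

/-- the obstacle which stops the robot -/
lemma blocked {S : Set Rect} {n : ℝ} (hS : IsScene S) {p q : Pt} (hp : p ∈ Free S) (hn : p.1 ≤ n)
    (hq : q.1 ≤ n) (hT : sSup (okTimes S n p q) < 1) :
    ∃ O ∈ S, O ∈ touched S p (stopAt S n p q) ∧ stopAt S n p q ∈ O.body ∧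
      stopAt S n p q ∉ O.inner ∧
      ∃ s, sSup (okTimes S n p q) < s ∧ pos p q s ∈ O.inner := by
  obtain ⟨O, hO, hfr⟩ := block hS hp hn hq hT
  have hbody : stopAt S n p q ∈ O.body := by
    have hcl : IsClosed O.body := by
      have e : O.body = {p : Pt | O.x1 ≤ p.1} ∩ ({p : Pt | p.1 ≤ O.x2} ∩
          ({p : Pt | O.y1 ≤ p.2} ∩ {p : Pt | p.2 ≤ O.y2})) := by
        ext p
        simp [Rect.body]
      rw [e]
      exact (isClosed_le continuous_const continuous_fst).inter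
        ((isClosed_le continuous_fst continuous_const).inter
          ((isClosed_le continuous_const continuous_snd).inter
            (isClosed_le continuous_snd continuous_const)))
    refine hcl.mem_of_frequently_of_tendsto (f := pos p q) (hfr.mono fun s hs => inner_sub O hs) ?_
    exact ((pos_cont p q).tendsto _).mono_left nhdsWithin_le_nhds
  have hmem := sup_mem (q := q) hp hn
  refine ⟨O, hO, ⟨hO, 1, zero_le_one, le_rfl, ?_⟩, hbody, ?_, ?_⟩
  · rw [pos_one]
    exact hbody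
  · exact (hmem.2.2 _ hmem.1 le_rfl).1 O hO
  · obtain ⟨s, hs, hs'⟩ := (hfr.and_eventually self_mem_nhdsWithin).exists
    exact ⟨s, hs', hs⟩

/-- the first part for a horizontal move -/
lemma horiz {S : Set Rect} {n : ℝ} (hS : IsScene S) {p : Pt} (hp : p ∈ Free S) (hn : p.1 < n)
    {R : ℝ} (hR : p.1 ≤ R) (hRn : R ≤ n) :
    (stopAt S n p (R, p.2)).2 = p.2 ∧ p.1 ≤ (stopAt S n p (R, p.2)).1 ∧
    (stopAt S n p (R, p.2)).1 ≤ R ∧
    ((stopAt S n p (R, p.2)).1 < R →
      ∃ O ∈ touched S p (stopAt S n p (R, p.2)),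
        O.x1 = (stopAt S n p (R, p.2)).1 ∧ O.y1 < p.2 ∧ p.2 < O.y2) ∧
    (∀ O ∈ S, O.y1 < p.2 → p.2 < O.y2 → p.1 ≤ O.x1 →
      (stopAt S n p (R, p.2)).1 ≤ O.x1) := by
  have hmem := sup_mem (q := (R, p.2)) hp hn.le
  have hbl := blocked hS hp hn.le (q := (R, p.2)) hRn
  have e1 : (stopAt S n p (R, p.2)).1 = p.1 + sSup (okTimes S n p (R, p.2)) * (R - p.1) := rfl
  have e2 : (stopAt S n p (R, p.2)).2 =
      p.2 + sSup (okTimes S n p (R, p.2)) * (p.2 - p.2) := rfl
  set T := sSup (okTimes S n p (R, p.2)) with hTd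
  obtain ⟨hT0, hT1, hTs⟩ := hmem
  have hd : 0 ≤ R - p.1 := by linarith
  refine ⟨by rw [e2]; ring, ?_, ?_, ?_, ?_⟩
  · rw [e1]
    have := mul_nonneg hT0 hd
    linarith
  · rw [e1]
    nlinarith
  · intro hlt
    have hT : T < 1 := by
      rcases hT1.lt_or_eq with h | h
      · exact h
      · exfalso
        rw [e1, h] at hlt
        linarith
    obtain ⟨O, hO, htou, hbody, hnin, s, hs, hin⟩ := hbl hT
    have hy1 : O.y1 < p.2 := by
      have h : O.y1 < p.2 + s * (p.2 - p.2) := hin.2.2.1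
      have e : p.2 + s * (p.2 - p.2) = p.2 := by ring
      rwa [e] at h
    have hy2 : p.2 < O.y2 := by
      have h : p.2 + s * (p.2 - p.2) < O.y2 := hin.2.2.2
      have e : p.2 + s * (p.2 - p.2) = p.2 := by ring
      rwa [e] at h
    have hx2 : p.1 + s * (R - p.1) < O.x2 := hin.2.1
    have h2 : (stopAt S n p (R, p.2)).2 = p.2 := by rw [e2]; ring
    refine ⟨O, htou, ?_, hy1, hy2⟩
    refine le_antisymm hbody.1 ?_
    by_contra hc
    push Not at hc
    refine hnin ⟨hc, ?_, ?_, ?_⟩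
    · rw [e1]
      have := mul_le_mul_of_nonneg_right hs.le hd
      linarith
    · rw [h2]; exact hy1
    · rw [h2]; exact hy2
  · intro O hO hy1 hy2 hx
    by_contra hc
    push Not at hc
    have hpos : 0 < T * (R - p.1) := by
      rw [e1] at hc
      linarith
    have hdp : 0 < R - p.1 := by
      rcases hd.lt_or_eq with h | h
      · exact h
      · rw [← h, mul_zero] at hpos
        exact absurd hpos (lt_irrefl _)
    have hw := hS.wide O hO
    obtain ⟨x, hx1, hx2⟩ := exists_between (show O.x1 < min (stopAt S n p (R, p.2)).1 O.x2 from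
      lt_min hc (by linarith))
    have hx3 := lt_min_iff.1 hx2
    set s := (x - p.1) / (R - p.1) with hs
    have hse : s * (R - p.1) = x - p.1 := by
      rw [hs]
      field_simp
    have hs0 : 0 ≤ s := div_nonneg (by linarith) hdp.le
    have hsT : s ≤ T := by
      have h1 : s * (R - p.1) ≤ T * (R - p.1) := by
        rw [hse]
        have := hx3.1
        rw [e1] at this
        linarith
      exact le_of_mul_le_mul_right h1 hdp
    refine (hTs s hs0 hsT).1 O hO ⟨?_, ?_, ?_, ?_⟩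
    · show O.x1 < p.1 + s * (R - p.1)
      rw [hse]; linarith
    · show p.1 + s * (R - p.1) < O.x2
      rw [hse]; linarith [hx3.2]
    · show O.y1 < p.2 + s * (p.2 - p.2)
      have e : p.2 + s * (p.2 - p.2) = p.2 := by ring
      rwa [e]
    · show p.2 + s * (p.2 - p.2) < O.y2
      have e : p.2 + s * (p.2 - p.2) = p.2 := by ring
      rwa [e]

end StopB_

open StopB_ StopA_

theorem pStopH (_h1 : tStop) : tStopH := by
  intro S n hS p hp hn
  refine ⟨fun R hR hRn => horiz hS hp hn hR hRn, fun r R hr hrR hRn => ?_⟩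
  obtain ⟨a1, a2, a3, a4, a5⟩ := horiz hS hp hn hr (hrR.trans hRn)
  obtain ⟨b1, b2, b3, b4, b5⟩ := horiz hS hp hn (hr.trans hrR) hRn
  refine Prod.ext ?_ a1
  show (stopAt S n p (r, p.2)).1 = min r (stopAt S n p (R, p.2)).1
  apply le_antisymm
  · refine le_min a3 ?_
    by_contra hc
    push Not at hc
    obtain ⟨O, hO, h1, h2, h3⟩ := b4 (by linarith)
    have := a5 O hO.1 h2 h3 (by rw [h1]; exact b2)
    linarith
  · by_contra hc
    push Not at hc
    have hc' := lt_min_iff.1 hc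
    obtain ⟨O, hO, h1, h2, h3⟩ := a4 hc'.1
    have := b5 O hO.1 h2 h3 (by rw [h1]; exact a2)
    linarith [hc'.2]

theorem pStopV (_h1 : tStop) : tStopV := by
  intro S n hS p y hp hn
  have hmem := sup_mem (q := (p.1, y)) hp hn.le
  have hbl := blocked hS hp hn.le (q := (p.1, y)) hn.le
  have e1 : (stopAt S n p (p.1, y)).1 =
      p.1 + sSup (okTimes S n p (p.1, y)) * (p.1 - p.1) := rfl
  have e2 : (stopAt S n p (p.1, y)).2 =
      p.2 + sSup (okTimes S n p (p.1, y)) * (y - p.2) := rfl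
  set T := sSup (okTimes S n p (p.1, y)) with hTd
  obtain ⟨hT0, hT1, hTs⟩ := hmem
  have h1 : (stopAt S n p (p.1, y)).1 = p.1 := by rw [e1]; ring
  have hx : ∀ (O : Rect) (s : ℝ), pos p (p.1, y) s ∈ O.inner → O.x1 < p.1 ∧ p.1 < O.x2 := by
    intro O s hin
    have e : p.1 + s * (p.1 - p.1) = p.1 := by ring
    have a1 : O.x1 < p.1 + s * (p.1 - p.1) := hin.1
    have a2 : p.1 + s * (p.1 - p.1) < O.x2 := hin.2.1
    rw [e] at a1 a2
    exact ⟨a1, a2⟩
  have hT : (stopAt S n p (p.1, y)).2 ≠ y → T < 1 := by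
    intro hne
    rcases hT1.lt_or_eq with h | h
    · exact h
    · exfalso
      apply hne
      rw [e2, h]
      ring
  refine ⟨h1, fun hy => ⟨?_, ?_, fun hlt => ?_⟩, fun hy => ⟨?_, ?_, fun hlt => ?_⟩⟩
  · rw [e2]
    nlinarith
  · rw [e2]
    nlinarith
  · obtain ⟨O, hO, htou, hbody, hnin, s, hs, hin⟩ := hbl (hT hlt.ne)
    obtain ⟨hx1, hx2⟩ := hx O s hin
    refine ⟨O, htou, hx1, hx2, ?_⟩
    refine le_antisymm hbody.2.2.1 ?_
    by_contra hc
    push Not at hc
    refine hnin ⟨by rw [h1]; exact hx1, by rw [h1]; exact hx2, hc, ?_⟩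
    have h3 : p.2 + s * (y - p.2) < O.y2 := hin.2.2.2
    rw [e2]
    have := mul_le_mul_of_nonneg_right hs.le (show 0 ≤ y - p.2 by linarith)
    linarith
  · rw [e2]
    nlinarith
  · rw [e2]
    nlinarith
  · obtain ⟨O, hO, htou, hbody, hnin, s, hs, hin⟩ := hbl (hT hlt.ne')
    obtain ⟨hx1, hx2⟩ := hx O s hin
    refine ⟨O, htou, hx1, hx2, ?_⟩
    refine le_antisymm ?_ hbody.2.2.2
    by_contra hc
    push Not at hc
    refine hnin ⟨by rw [h1]; exact hx1, by rw [h1]; exact hx2, ?_, hc⟩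
    have h3 : O.y1 < p.2 + s * (y - p.2) := hin.2.2.1
    rw [e2]
    have := mul_le_mul_of_nonneg_right hs.le (show 0 ≤ p.2 - y by linarith)
    linarith

end Pool.Agent.WallR
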