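import Pool.Agent.WallR.Targets

/-!
Target SYM: two independent home runs.
-/

open scoped BigOperators

namespace Pool.Agent.WallR

open Prog

namespace Sym_

/-- The indicator of a run that has ended inside the limit. -/
noncomputable def sg (o : Option (Option Pt × Pt)) : ℝ := oo 0 (fun _ => 1) (view o)

/-- Both runs have ended, the second one not beyond the first one. -/
noncomputable def G (o o' : Option (Option Pt × Pt)) : ℝ :=
  oo 0 (fun x => oo 0 (fun _ => 1) (cut x.1 (view o'))) (view o)

lemma G_ge (o o' : Option (Option Pt × Pt)) : sg o * sg o' ≤ G o o' + G o' o := by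
  unfold sg G
  rcases view o with _ | x <;> rcases view o' with _ | y
  · simp
  · simp [cut]
  · simp [cut]
  · simp only [oo_some, cut]
    rcases le_total x.1 y.1 with h | h
    · rw [if_pos h]
      split_ifs
      · norm_num
      · norm_num
    · rw [if_pos h]
      split_ifs
      · norm_num
      · norm_num

lemma sum_pos {m : ℕ} (hm : 0 < m) (c : Fin m → ℕ) : 0 < ∑ t, wt (c t) := by
  have : Nonempty (Fin m) := ⟨⟨0, hm⟩⟩
  apply Finset.sum_pos (fun i _ => by unfold wt; positivity) Finset.univ_nonempty

lemma prb_nn {m : ℕ} (hm : 0 < m) (c : Fin m → ℕ) (s : Fin m) : 0 ≤ prb c s := by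
  unfold prb
  have := sum_pos hm c
  unfold wt at *
  positivity

lemma prb_one {m : ℕ} (hm : 0 < m) (c : Fin m → ℕ) : ∑ s, prb c s = 1 := by
  unfold prb
  rw [← Finset.sum_div]
  exact div_self (sum_pos hm c).ne'

end Sym_

open Sym_ in
theorem pSym : tSym := by
  intro S n lo hi A u m sub hm hw c R p hp hpR hRn
  set D : Fin m → Fin m → ℝ := fun h s =>
    ex S n (sub h R p) p (fun o => ex S n (sub s R p) p (fun o' => G o o')) with hD
  set Q : Fin m → ℝ := fun h => ex S n (sub h R p) p sg with hQ
  have hok : ∀ h, (sub h R p).Ok := fun h => (hw h).ok R p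
  -- the right side
  have hR : ∑ h, prb c h * EV S n (sub h R p) p (oo 0 (fun x =>
      ∑ s, prb c s * EV S n (sub s x.1 p) p (oo 0 (fun _ => 1)))) =
      ∑ h, ∑ s, prb c h * prb c s * D h s := by
    refine Finset.sum_congr rfl fun h _ => ?_
    have h1 : EV S n (sub h R p) p (oo 0 (fun x =>
        ∑ s, prb c s * EV S n (sub s x.1 p) p (oo 0 (fun _ => 1)))) =
        ex S n (sub h R p) p (fun o => ∑ s, prb c s *
          ex S n (sub s R p) p (fun o' => G o o')) := by
      unfold EV
      refine ex_congr_sure ((hw h).out R p hp hpR hRn) ?_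
      rintro (_ | ⟨_ | x, p'⟩) ho
      · show (0 : ℝ) = _
        symm
        apply Finset.sum_eq_zero
        intro s _
        have : (fun o' => G none o') = fun _ => 0 := rfl
        rw [this, ex_zero, mul_zero]
      · show (0 : ℝ) = _
        symm
        apply Finset.sum_eq_zero
        intro s _
        have : (fun o' => G (some (none, p')) o') = fun _ => 0 := rfl
        rw [this, ex_zero, mul_zero]
      · obtain ⟨hxp, hx, h2, h3⟩ := ho
        show ∑ s, prb c s * _ = _
        refine Finset.sum_congr rfl fun s _ => ?_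
        congr 1
        exact (hw s).cutE x.1 R p (oo 0 (fun _ => 1)) hp h2 h3 hRn
    rw [h1, ex_sum, Finset.mul_sum]
    refine Finset.sum_congr rfl fun s _ => ?_
    rw [ex_smul]
    ring
  -- symmetry
  have hsym : ∀ h s, Q h * Q s ≤ D h s + D s h := by
    intro h s
    have h1 : D s h = ex S n (sub h R p) p (fun o => ex S n (sub s R p) p (fun o' => G o' o)) := by
      rw [hD]
      exact ex_comm _ _ _ _ _
    have h2 : Q h * Q s = ex S n (sub h R p) p (fun o => ex S n (sub s R p) p
        (fun o' => sg o * sg o')) := by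
      have h3 : ∀ o, ex S n (sub s R p) p (fun o' => sg o * sg o') = Q s * sg o := by
        intro o
        rw [ex_smul]
        exact mul_comm _ _
      simp only [h3]
      rw [ex_smul, mul_comm]
    rw [h1, h2, ← ex_add]
    refine ex_mono (hok h) fun o => ?_
    rw [← ex_add]
    exact ex_mono (hok s) fun o' => G_ge o o'
  -- the left side
  have hL : 1 - ∑ h, prb c h * EV S n (sub h R p) p (oo 1 (fun _ => 0)) =
      ∑ h, prb c h * Q h := by
    have h1 : ∀ h, EV S n (sub h R p) p (oo 1 (fun _ => 0)) = 1 - Q h := by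
      intro h
      have h2 : EV S n (sub h R p) p (oo 1 (fun _ => 0)) =
          ex S n (sub h R p) p (fun o => 1 - sg o) := by
        unfold EV
        congr 1
        funext o
        unfold sg
        rcases view o with _ | x <;> simp
      rw [h2, ex_sub, ex_const (hok h)]
    simp only [h1, mul_sub, mul_one, Finset.sum_sub_distrib, prb_one hm]
    ring
  rw [hL, hR]
  have h4 : (∑ h, prb c h * Q h) ^ 2 = ∑ h, ∑ s, prb c h * prb c s * (Q h * Q s) := by
    rw [pow_two, Finset.sum_mul_sum]
    refine Finset.sum_congr rfl fun h _ => Finset.sum_congr rfl fun s _ => ?_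
    ring
  have h5 : ∑ h, ∑ s, prb c h * prb c s * (Q h * Q s) ≤
      ∑ h, ∑ s, prb c h * prb c s * (D h s + D s h) :=
    Finset.sum_le_sum fun h _ => Finset.sum_le_sum fun s _ =>
      mul_le_mul_of_nonneg_left (hsym h s) (mul_nonneg (prb_nn hm c h) (prb_nn hm c s))
  have h6 : ∑ h, ∑ s, prb c h * prb c s * (D h s + D s h) =
      2 * ∑ h, ∑ s, prb c h * prb c s * D h s := by
    have h7 : ∑ h, ∑ s, prb c h * prb c s * D s h = ∑ h, ∑ s, prb c h * prb c s * D h s := by
      rw [Finset.sum_comm]
      refine Finset.sum_congr rfl fun h _ => Finset.sum_congr rfl fun s _ => ?_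
      ring
    simp only [mul_add, Finset.sum_add_distrib]
    rw [h7]
    ring
  rw [h4]
  linarith

end Pool.Agent.WallR
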