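import Pool.Agent.WallR.Targets

/-!
WALL-TOUR: the law, the sure outcomes and the cost of an exploratory round.
-/

open scoped BigOperators

namespace Pool.Agent.WallR

open Prog

namespace Tour_

variable {S : Set Rect} {n : ℝ} {α β : Type}

/-- Two points between which the robot can go straight in both directions. -/
structure Link (S : Set Rect) (n : ℝ) (p q : Pt) : Prop where
  fp : p ∈ Free S
  np : p.1 < n
  fq : q ∈ Free S
  nq : q.1 < n
  st : stopAt S n p q = q
  ts : stopAt S n q p = p

lemma Link.symm {p q : Pt} (h : Link S n p q) : Link S n q p :=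
  ⟨h.fq, h.nq, h.fp, h.np, h.ts, h.st⟩

lemma link_stop (h1 : tStop) {p q : Pt} (hp : p ∈ Free S) (hn : p.1 < n)
    (hs : (stopAt S n p q).1 < n) : Link S n p (stopAt S n p q) := by
  obtain ⟨a, _, _, d, e, _⟩ := h1 S n p q hp hn.le
  exact ⟨hp, hn, a, hs, d, e⟩

lemma stop_self (h1 : tStop) {p : Pt} (hp : p ∈ Free S) (hn : p.1 < n) :
    stopAt S n p p = p := by
  obtain ⟨_, _, _, _, _, f⟩ := h1 S n p p hp hn.le
  refine f (fun t _ _ => ?_)
  have : pos p p t = p := by
    unfold pos; simp
  rw [this]
  exact ⟨hp, hn.le⟩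

lemma link_self (h1 : tStop) {p : Pt} (hp : p ∈ Free S) (hn : p.1 < n) : Link S n p p :=
  ⟨hp, hn, hp, hn, stop_self h1 hp hn, stop_self h1 hp hn⟩

/-- A list of points, consecutive ones being linked, with given first and last point. -/
inductive Ch (S : Set Rect) (n : ℝ) : List Pt → Pt → Pt → Prop
  | one (p : Pt) : p ∈ Free S → p.1 < n → Ch S n [p] p p
  | cons (L : List Pt) (p q p0 : Pt) : Ch S n L p p0 → Link S n p q → Ch S n (q :: L) q p0

lemma Ch.head {L : List Pt} {p p0 : Pt} (h : Ch S n L p p0) : ∃ L', L = p :: L' := by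
  cases h with
  | one p _ _ => exact ⟨[], rfl⟩
  | cons L p' q p0 _ _ => exact ⟨L, rfl⟩

lemma Ch.headGood {L : List Pt} {p p0 : Pt} (h : Ch S n L p p0) : p ∈ Free S ∧ p.1 < n := by
  cases h with
  | one p a b => exact ⟨a, b⟩
  | cons L p' q p0 _ hl => exact ⟨hl.fq, hl.nq⟩

/-- Total length of a walk from a point along a list. -/
noncomputable def tlf : Pt → List Pt → ℝ
  | _, [] => 0
  | x, y :: L => len x y + tlf y L

lemma len_nonneg (p q : Pt) : 0 ≤ len p q := Real.sqrt_nonneg _

lemma len_self (p : Pt) : len p p = 0 := by simp [len]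

lemma len_comm (p q : Pt) : len p q = len q p := by
  unfold len
  congr 1
  ring

lemma tlf_nonneg (x : Pt) (L : List Pt) : 0 ≤ tlf x L := by
  induction L generalizing x with
  | nil => exact le_rfl
  | cons y L ih => exact add_nonneg (len_nonneg _ _) (ih y)

lemma tlf_append {L : List Pt} {a b : Pt} (h : Ch S n L a b) (c : Pt) :
    tlf a (L ++ [c]) = tlf a L + len b c := by
  induction h with
  | one p _ _ => simp [tlf]
  | cons L p q p0 hL hl ih =>
    obtain ⟨L', rfl⟩ := hL.head
    simp only [List.cons_append, tlf, len_self, zero_add] at ih ⊢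
    rw [ih]; ring

lemma Ch.append {L : List Pt} {a b : Pt} (h : Ch S n L a b) {c : Pt} (hc : Link S n b c) :
    Ch S n (L ++ [c]) a c := by
  induction h with
  | one p _ _ => exact Ch.cons [c] c p c (Ch.one c hc.fq hc.nq) hc.symm
  | cons L p q p0 hL hl ih => exact Ch.cons _ _ _ _ (ih hc) hl

lemma Ch.reverse {L : List Pt} {a b : Pt} (h : Ch S n L a b) : Ch S n L.reverse b a := by
  induction h with
  | one p h1 h2 => exact Ch.one p h1 h2
  | cons L p q p0 hL hl ih =>
    rw [List.reverse_cons]
    exact ih.append hl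

lemma tlf_reverse {L : List Pt} {a b : Pt} (h : Ch S n L a b) :
    tlf b L.reverse = tlf a L := by
  induction h with
  | one p _ _ => rfl
  | cons L p q p0 hL hl ih =>
    rw [List.reverse_cons, tlf_append hL.reverse, ih]
    obtain ⟨L', rfl⟩ := hL.head
    simp only [tlf, len_self, zero_add]
    rw [len_comm q p]; ring

/-! ### walking along a chain -/

lemma ex_walk {L : List Pt} {q p0 : Pt} (h : Ch S n L q p0) {x : Pt} (hx : Link S n x q)
    (φ : Option (Unit × Pt) → ℝ) : ex S n (walk L) x φ = φ (some ((), p0)) := by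
  induction h generalizing x with
  | one p _ _ =>
    simp only [walk, ex_move, hx.st, ex_ret]
    rw [if_neg (not_le.mpr hx.nq)]
  | cons L p q p0 hL hl ih =>
    simp only [walk, ex_move, hx.st]
    rw [if_neg (not_le.mpr hx.nq)]
    exact ih hl.symm

lemma sure_walk {L : List Pt} {q p0 : Pt} (h : Ch S n L q p0) {x : Pt} (hx : Link S n x q)
    {Z : Option (Unit × Pt) → Prop} (hZ : Z (some ((), p0))) : sure S n (walk L) x Z := by
  induction h generalizing x with
  | one p _ _ =>
    simp only [walk, sure_move, hx.st, sure_ret]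
    rw [if_neg (not_le.mpr hx.nq)]
    exact hZ
  | cons L p q p0 hL hl ih =>
    simp only [walk, sure_move, hx.st]
    rw [if_neg (not_le.mpr hx.nq)]
    exact ih hl.symm hZ

lemma co_walk {L : List Pt} {q p0 : Pt} (h : Ch S n L q p0) {x : Pt} (hx : Link S n x q) :
    co S n (walk L) x = tlf x L := by
  induction h generalizing x with
  | one p _ _ =>
    simp only [walk, co_move, hx.st, co_ret, tlf]
    rw [if_neg (not_le.mpr hx.nq)]
  | cons L p q p0 hL hl ih =>
    simp only [walk, co_move, hx.st, tlf]
    rw [if_neg (not_le.mpr hx.nq)]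
    rw [ih hl.symm]

lemma walk_ok (L : List Pt) : (walk L).Ok := by
  induction L with
  | nil => trivial
  | cons q L ih => exact fun _ _ => ih

/-! ### recording -/

/-- Forget the recorded list. -/
def fg : Option ((α × List Pt) × Pt) → Option (α × Pt)
  | none => none
  | some (r, p) => some (r.1, p)

lemma rcd_ok {P : Prog α} (hP : P.Ok) (L : List Pt) : (rcd L P).Ok := by
  induction P generalizing L with
  | ret a => trivial
  | rand k w g ih => exact ⟨hP.1, hP.2.1, fun i => ih i (hP.2.2 i) L⟩
  | move q g ih => exact fun p T => ih p T (hP p T) _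

lemma ex_rcd (P : Prog α) (L : List Pt) (p : Pt) (φ : Option (α × Pt) → ℝ) :
    ex S n (rcd L P) p (fun o => φ (fg o)) = ex S n P p φ := by
  induction P generalizing L p with
  | ret a => rfl
  | rand k w g ih => simp only [rcd, ex_rand, ih]
  | move q g ih =>
    simp only [rcd, ex_move]
    split_ifs
    · rfl
    · exact ih _ _ _ _

lemma sure_rcd {P : Prog α} {L : List Pt} {p : Pt} {Z : Option (α × Pt) → Prop}
    (h : sure S n P p Z) : sure S n (rcd L P) p (fun o => Z (fg o)) := by
  induction P generalizing L p with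
  | ret a => exact h
  | rand k w g ih => exact fun i => ih i (h i)
  | move q g ih =>
    simp only [rcd, sure_move] at h ⊢
    split_ifs at h ⊢
    · exact h
    · exact ih _ _ h

lemma co_rcd (P : Prog α) (L : List Pt) (p : Pt) : co S n (rcd L P) p = co S n P p := by
  induction P generalizing L p with
  | ret a => rfl
  | rand k w g ih => simp only [rcd, co_rand, ih]
  | move q g ih =>
    simp only [rcd, co_move]
    split_ifs
    · rfl
    · rw [ih]

lemma sure_ch (h1 : tStop) (P : Prog α) {L : List Pt} {p p0 : Pt} (hL : Ch S n L p p0) :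
    sure S n (rcd L P) p (oprop True (fun r p' => Ch S n r.2 p' p0)) := by
  induction P generalizing L p with
  | ret a => exact hL
  | rand k w g ih => exact fun i => ih i hL
  | move q g ih =>
    simp only [rcd, sure_move]
    split_ifs with h
    · trivial
    · have hh := hL.headGood
      have hl := link_stop h1 (q := q) hh.1 hh.2 (not_le.mp h)
      exact ih _ _ (Ch.cons _ _ _ _ hL hl)

lemma ex_len (h1 : tStop) {P : Prog α} (hP : P.Ok) {L : List Pt} {p p0 : Pt}
    (hL : Ch S n L p p0) :
    ex S n (rcd L P) p (oext 0 (fun r p' => tlf p' r.2)) ≤ tlf p L + co S n P p := by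
  induction P generalizing L p with
  | ret a => simp [rcd, ex_ret, co_ret]
  | rand k w g ih =>
    simp only [rcd, ex_rand, co_rand]
    calc ∑ i, w i * ex S n (rcd L (g i)) p (oext 0 (fun r p' => tlf p' r.2))
        ≤ ∑ i, w i * (tlf p L + co S n (g i) p) :=
          Finset.sum_le_sum (fun i _ => mul_le_mul_of_nonneg_left (ih i (hP.2.2 i) hL) (hP.1 i))
      _ = tlf p L + ∑ i, w i * co S n (g i) p := by
          simp only [mul_add, Finset.sum_add_distrib]
          rw [← Finset.sum_mul, hP.2.1, one_mul]
  | move q g ih =>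
    simp only [rcd, ex_move, co_move]
    have hh := hL.headGood
    have hln := len_nonneg p (stopAt S n p q)
    have htl := tlf_nonneg p L
    split_ifs with h
    · simp only [oext_none]; linarith
    · have hl := link_stop h1 (q := q) hh.1 hh.2 (not_le.mp h)
      have := ih _ _ (hP (stopAt S n p q) (touched S p (stopAt S n p q)))
        (Ch.cons _ _ _ _ hL hl)
      refine this.trans (le_of_eq ?_)
      obtain ⟨L', rfl⟩ := hL.head
      simp only [tlf, len_self, zero_add]
      rw [len_comm (stopAt S n p q) p]; ring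

/-! ### excursions -/

lemma ex_exc (h1 : tStop) (P : Prog α) {p : Pt} (hp : p ∈ Free S) (hn : p.1 < n)
    (φ : Option ((α × List Pt) × Pt) → ℝ) :
    ex S n (excursion P p) p φ = ex S n (rcd [p] P) p
      (oext (φ none) (fun r _ => φ (some ((r.1, r.2.reverse), p)))) := by
  unfold excursion
  rw [ex_bind]
  refine ex_congr_sure (sure_ch h1 P (Ch.one p hp hn)) ?_
  rintro (_ | ⟨r, p'⟩) hr
  · rfl
  · simp only [oprop_some] at hr
    simp only [oext_some]
    rw [ex_bind, ex_walk hr (link_self h1 hr.headGood.1 hr.headGood.2)]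
    rfl

lemma sure_exc (h1 : tStop) {P : Prog α} {p : Pt} (hp : p ∈ Free S) (hn : p.1 < n)
    {Z : Option ((α × List Pt) × Pt) → Prop}
    (h : sure S n (rcd [p] P) p (oprop (Z none) (fun r _ => Z (some ((r.1, r.2.reverse), p))))) :
    sure S n (excursion P p) p Z := by
  unfold excursion
  rw [sure_bind]
  refine sure_mono (sure_and (sure_ch h1 P (Ch.one p hp hn)) h) ?_
  rintro (_ | ⟨r, p'⟩) hr
  · exact hr.2
  · obtain ⟨ha, hb⟩ := hr
    simp only [oprop_some] at ha hb ⊢
    rw [sure_bind]
    exact sure_walk ha (link_self h1 ha.headGood.1 ha.headGood.2) hb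

lemma co_exc (h1 : tStop) {P : Prog α} (hP : P.Ok) {p : Pt} (hp : p ∈ Free S) (hn : p.1 < n) :
    co S n (excursion P p) p ≤ 2 * co S n P p := by
  unfold excursion
  rw [co_bind, co_rcd]
  have e : ex S n (rcd [p] P) p (oext 0 (fun r p' =>
      co S n ((walk r.2).bind fun _ => ret (r.1, r.2.reverse)) p')) =
      ex S n (rcd [p] P) p (oext 0 (fun r p' => tlf p' r.2)) := by
    refine ex_congr_sure (sure_ch h1 P (Ch.one p hp hn)) ?_
    rintro (_ | ⟨r, p'⟩) hr
    · rfl
    · simp only [oprop_some] at hr
      simp only [oext_some]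
      rw [co_bind, co_walk hr (link_self h1 hr.headGood.1 hr.headGood.2),
        ex_walk hr (link_self h1 hr.headGood.1 hr.headGood.2)]
      simp [co_ret]
  rw [e]
  have h2 := ex_len h1 hP (Ch.one (S := S) (n := n) p hp hn)
  have h3 : tlf p [p] = 0 := by simp [tlf, len_self]
  rw [h3] at h2
  linarith

lemma exc_ok {P : Prog α} (hP : P.Ok) (p : Pt) : (excursion P p).Ok :=
  Ok.bind (rcd_ok hP _) (fun _ => Ok.bind (walk_ok _) (fun _ => trivial))

/-- the continuation of a tour after the first excursion -/
def cont {β : Type} (p : Pt) (Q : Pt → Prog β) (K : Pt → β → Prog (Option Pt))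
    (r : Option Pt × List Pt) : Prog (Option Pt) :=
  match r.1 with
  | none => ret none
  | some x => (excursion (Q x) p).bind fun b => (walk r.2).bind fun _ => K x b.1

lemma tour_eq {β : Type} (p : Pt) (P : Prog (Option Pt)) (Q : Pt → Prog β)
    (K : Pt → β → Prog (Option Pt)) :
    tour p P Q K = (excursion P p).bind (cont p Q K) := rfl

lemma cont_none {β : Type} (p : Pt) (Q : Pt → Prog β) (K : Pt → β → Prog (Option Pt))
    (L : List Pt) : cont p Q K (none, L) = ret none := rfl

lemma cont_some {β : Type} (p : Pt) (Q : Pt → Prog β) (K : Pt → β → Prog (Option Pt))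
    (x : Pt) (L : List Pt) : cont p Q K (some x, L) =
      (excursion (Q x) p).bind fun b => (walk L).bind fun _ => K x b.1 := rfl

end Tour_

open Tour_

theorem pTourLaw (h1 : tStop) : tTourLaw := by
  intro S n β p P Q K phi hp hn hs
  rw [tour_eq, ex_bind, ex_exc h1 P hp hn]
  simp only [oext_none, oext_some]
  have hs' := sure_rcd (L := [p]) hs
  have e : ex S n P p (oext (phi none) (fun o _ =>
      oo (phi (some (none, p))) (fun x =>
        ex S n (Q x) p (oext (phi none) (fun b _ => ex S n (K x b) x phi))) o)) =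
      ex S n (rcd [p] P) p (fun o => (oext (phi none) (fun o _ =>
      oo (phi (some (none, p))) (fun x =>
        ex S n (Q x) p (oext (phi none) (fun b _ => ex S n (K x b) x phi))) o)) (fg o)) :=
    (ex_rcd P [p] p _).symm
  rw [e]
  refine ex_congr_sure (sure_and (sure_ch h1 P (Ch.one p hp hn)) hs') ?_
  rintro (_ | ⟨⟨o, L⟩, p'⟩) hr
  · rfl
  · obtain ⟨ha, hb⟩ := hr
    simp only [oprop_some, fg] at ha hb
    simp only [oext_some, fg]
    rcases o with _ | x
    · rfl
    · have hx : x = p' := hb x rfl
      subst hx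
      rw [cont_some, oo_some, ex_bind, ex_exc h1 (Q x) hp hn]
      simp only [oext_none, oext_some]
      have hc : Ch S n L.reverse p x := ha.reverse
      have hl := link_self h1 hp hn
      rw [← ex_rcd (Q x) [p] p]
      congr 1
      funext o'
      rcases o' with _ | ⟨⟨b, L2⟩, p2⟩
      · rfl
      · simp only [oext_some, fg]
        rw [ex_bind, ex_walk hc hl]
        rfl

theorem pTourSure (h1 : tStop) : tTourSure := by
  intro S n β p P Q K Z hp hn hs
  rw [tour_eq, sure_bind]
  refine sure_exc h1 hp hn ?_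
  have hs' := sure_rcd (L := [p]) hs
  refine sure_mono (sure_and (sure_ch h1 P (Ch.one p hp hn)) hs') ?_
  rintro (_ | ⟨⟨o, L⟩, p'⟩) hr
  · exact hr.2
  · obtain ⟨ha, hb⟩ := hr
    simp only [oprop_some, fg] at ha hb
    simp only [oprop_some]
    rcases o with _ | x
    · exact hb.1 rfl
    · obtain ⟨hx, hy⟩ := hb.2 x rfl
      subst hx
      rw [cont_some, sure_bind]
      refine sure_exc h1 hp hn ?_
      have hc : Ch S n L.reverse p x := ha.reverse
      have hl := link_self h1 hp hn
      refine sure_mono (sure_rcd (L := [p]) hy) ?_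
      rintro (_ | ⟨⟨b, L2⟩, p2⟩) hr'
      · exact hr'
      · simp only [oprop_some, fg] at hr' ⊢
        rw [sure_bind]
        exact sure_walk hc hl hr'

theorem pTourCost (h1 : tStop) : tTourCost := by
  intro S n β p P Q K hp hn hP hQ hs
  rw [tour_eq, co_bind, ex_exc h1 P hp hn]
  simp only [oext_none, oext_some]
  have hs' := sure_rcd (L := [p]) hs
  have hexc := co_exc h1 hP hp hn
  have hlen := ex_len h1 hP (Ch.one (S := S) (n := n) p hp hn)
  have h3 : tlf p [p] = 0 := by simp [tlf, len_self]
  rw [h3, zero_add] at hlen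
  have key : ex S n (rcd [p] P) p
      (oext 0 (fun r _ => co S n (cont p Q K (r.1, r.2.reverse)) p)) ≤
      ex S n (rcd [p] P) p (fun o => oext 0 (fun r p' => tlf p' r.2) o +
        (oext 0 (fun o _ => oo 0 (fun x => 2 * co S n (Q x) p +
          ex S n (Q x) p (oext 0 (fun b _ => co S n (K x b) x))) o)) (fg o)) := by
    refine ex_mono_sure (rcd_ok hP _) (sure_and (sure_ch h1 P (Ch.one p hp hn)) hs') ?_
    rintro (_ | ⟨⟨o, L⟩, p'⟩) hr
    · simp [fg]
    · obtain ⟨ha, hb⟩ := hr
      simp only [oprop_some, fg] at ha hb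
      simp only [oext_some, fg]
      rcases o with _ | x
      · rw [cont_none, co_ret]
        simpa using tlf_nonneg p' L
      · have hx : x = p' := hb x rfl
        subst hx
        rw [cont_some, oo_some, co_bind, ex_exc h1 (Q x) hp hn]
        simp only [oext_none, oext_some]
        have hc : Ch S n L.reverse p x := ha.reverse
        have hl := link_self h1 hp hn
        have h4 := co_exc h1 (hQ x) hp hn
        have h5 : ex S n (rcd [p] (Q x)) p (oext 0 (fun r _ =>
            co S n ((walk L.reverse).bind fun _ => K x r.1) p)) ≤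
            tlf x L + ex S n (Q x) p (oext 0 (fun b _ => co S n (K x b) x)) := by
          rw [← ex_rcd (Q x) [p] p]
          have h6 : tlf x L = ex S n (rcd [p] (Q x)) p (fun _ => tlf x L) :=
            (ex_const (rcd_ok (hQ x) _) p _).symm
          rw [h6, ← ex_add]
          refine ex_mono (rcd_ok (hQ x) _) ?_
          rintro (_ | ⟨⟨b, L2⟩, p2⟩)
          · simpa [fg] using tlf_nonneg x L
          · simp only [oext_some, fg]
            rw [co_bind, co_walk hc hl, ex_walk hc hl, tlf_reverse ha]
            simp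
        linarith
  rw [ex_add, ex_rcd] at key
  linarith

theorem pTourOk : tTourOk := by
  intro β p P Q K hP hQ hK
  rw [tour_eq]
  refine Ok.bind (exc_ok hP p) ?_
  rintro ⟨o, L⟩
  rcases o with _ | x
  · trivial
  · rw [cont_some]
    exact Ok.bind (exc_ok (hQ x) p) (fun b => Ok.bind (walk_ok _) (fun _ => hK x b.1))

end Pool.Agent.WallR
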