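import Pool.Agent.WallR.Defs

/-!
Internal tools: finitely branching randomised programs for the robot, the expectation functional
`ex`, the expected cost `co`, sure postconditions.
-/

open scoped BigOperators

namespace Pool.Agent.WallR

/-- A robot program that returns a value of type `α`. -/
inductive Prog (α : Type) : Type
  | ret : α → Prog α
  | rand : (k : ℕ) → (Fin k → ℝ) → (Fin k → Prog α) → Prog α
  | move : Pt → (Pt → Set Rect → Prog α) → Prog α

namespace Prog

variable {α β γ : Type}

/-- Sequential composition. -/
def bind : Prog α → (α → Prog β) → Prog β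
  | ret a, f => f a
  | rand k w g, f => rand k w (fun i => (g i).bind f)
  | move q g, f => move q (fun p T => (g p T).bind f)

@[simp] lemma bind_ret (a : α) (f : α → Prog β) : (ret a).bind f = f a := rfl
@[simp] lemma bind_rand (k : ℕ) (w : Fin k → ℝ) (g : Fin k → Prog α) (f : α → Prog β) :
    (rand k w g).bind f = rand k w (fun i => (g i).bind f) := rfl
@[simp] lemma bind_move (q : Pt) (g : Pt → Set Rect → Prog α) (f : α → Prog β) :
    (move q g).bind f = move q (fun p T => (g p T).bind f) := rfl

lemma bind_assoc (P : Prog α) (f : α → Prog β) (g : β → Prog γ) :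
    (P.bind f).bind g = P.bind (fun a => (f a).bind g) := by
  induction P with
  | ret a => rfl
  | rand k w h ih => simp [ih]
  | move q h ih => simp [ih]

/-- All random choices of the program are made with probability vectors. -/
def Ok : Prog α → Prop
  | ret _ => True
  | rand _ w g => (∀ i, 0 ≤ w i) ∧ ∑ i, w i = 1 ∧ ∀ i, (g i).Ok
  | move _ g => ∀ p T, (g p T).Ok

lemma Ok.bind {P : Prog α} {f : α → Prog β} (hP : P.Ok) (hf : ∀ a, (f a).Ok) :
    (P.bind f).Ok := by
  induction P with
  | ret a => exact hf a
  | rand k w h ih => exact ⟨hP.1, hP.2.1, fun i => ih i (hP.2.2 i)⟩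
  | move q h ih => exact fun p T => ih p T (hP p T)

end Prog

open Prog

section Sem

variable (S : Set Rect) (n : ℝ) {α β γ : Type}

/-- Expectation of `φ` of the outcome of the program from `p`: the outcome is `none` if the robot
has reached the line `x = n`, and `some (a, p')` if the program has returned `a` with the robot
at `p'`. -/
noncomputable def ex : Prog α → Pt → (Option (α × Pt) → ℝ) → ℝ
  | ret a, p, φ => φ (some (a, p))
  | rand _ w g, p, φ => ∑ i, w i * ex (g i) p φ
  | move q g, p, φ => if n ≤ (stopAt S n p q).1 then φ none else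
      ex (g (stopAt S n p q) (touched S p (stopAt S n p q))) (stopAt S n p q) φ

/-- Expected length travelled by the program from `p` (until it returns or the line is reached). -/
noncomputable def co : Prog α → Pt → ℝ
  | ret _, _ => 0
  | rand _ w g, p => ∑ i, w i * co (g i) p
  | move q g, p => len p (stopAt S n p q) + if n ≤ (stopAt S n p q).1 then 0 else
      co (g (stopAt S n p q) (touched S p (stopAt S n p q))) (stopAt S n p q)

/-- A property of the outcome (`none`: the line is reached, `some (a, p')`: the program has
returned `a` with the robot at `p'`) which holds for all possible outcomes. -/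
def sure : Prog α → Pt → (Option (α × Pt) → Prop) → Prop
  | ret a, p, Q => Q (some (a, p))
  | rand _ _ g, p, Q => ∀ i, sure (g i) p Q
  | move q g, p, Q => if n ≤ (stopAt S n p q).1 then Q none else
      sure (g (stopAt S n p q) (touched S p (stopAt S n p q))) (stopAt S n p q) Q

variable {S n}

/-- Extend a function of (value, position) by a value on `none`. -/
def oext (c : ℝ) (F : α → Pt → ℝ) : Option (α × Pt) → ℝ
  | none => c
  | some (a, p) => F a p

@[simp] lemma oext_none (c : ℝ) (F : α → Pt → ℝ) : oext c F none = c := rfl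
@[simp] lemma oext_some (c : ℝ) (F : α → Pt → ℝ) (a : α) (p : Pt) :
    oext c F (some (a, p)) = F a p := rfl

lemma ex_ret (a : α) (p : Pt) (φ : Option (α × Pt) → ℝ) :
    ex S n (ret a) p φ = φ (some (a, p)) := rfl

lemma ex_rand (k : ℕ) (w : Fin k → ℝ) (g : Fin k → Prog α) (p : Pt)
    (φ : Option (α × Pt) → ℝ) :
    ex S n (rand k w g) p φ = ∑ i, w i * ex S n (g i) p φ := rfl

lemma ex_move (q : Pt) (g : Pt → Set Rect → Prog α) (p : Pt) (φ : Option (α × Pt) → ℝ) :
    ex S n (move q g) p φ = if n ≤ (stopAt S n p q).1 then φ none else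
      ex S n (g (stopAt S n p q) (touched S p (stopAt S n p q))) (stopAt S n p q) φ := rfl

lemma co_ret (a : α) (p : Pt) : co S n (ret a) p = 0 := rfl

lemma co_rand (k : ℕ) (w : Fin k → ℝ) (g : Fin k → Prog α) (p : Pt) :
    co S n (rand k w g) p = ∑ i, w i * co S n (g i) p := rfl

lemma co_move (q : Pt) (g : Pt → Set Rect → Prog α) (p : Pt) :
    co S n (move q g) p = len p (stopAt S n p q) + if n ≤ (stopAt S n p q).1 then 0 else
      co S n (g (stopAt S n p q) (touched S p (stopAt S n p q))) (stopAt S n p q) := rfl

/-- Extend a predicate of (value, position) by a proposition on `none`. -/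
def oprop (c : Prop) (F : α → Pt → Prop) : Option (α × Pt) → Prop
  | none => c
  | some (a, p) => F a p

@[simp] lemma oprop_none (c : Prop) (F : α → Pt → Prop) : oprop c F none = c := rfl
@[simp] lemma oprop_some (c : Prop) (F : α → Pt → Prop) (a : α) (p : Pt) :
    oprop c F (some (a, p)) = F a p := rfl

lemma sure_ret (a : α) (p : Pt) (Q : Option (α × Pt) → Prop) :
    sure S n (ret a) p Q ↔ Q (some (a, p)) := Iff.rfl

lemma sure_rand (k : ℕ) (w : Fin k → ℝ) (g : Fin k → Prog α) (p : Pt)
    (Q : Option (α × Pt) → Prop) :
    sure S n (rand k w g) p Q ↔ ∀ i, sure S n (g i) p Q := Iff.rfl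

lemma sure_move (q : Pt) (g : Pt → Set Rect → Prog α) (p : Pt) (Q : Option (α × Pt) → Prop) :
    sure S n (move q g) p Q ↔ (if n ≤ (stopAt S n p q).1 then Q none else
      sure S n (g (stopAt S n p q) (touched S p (stopAt S n p q))) (stopAt S n p q) Q) := Iff.rfl

/-- Law of a composition. -/
lemma ex_bind (P : Prog α) (f : α → Prog β) (p : Pt) (φ : Option (β × Pt) → ℝ) :
    ex S n (P.bind f) p φ = ex S n P p (oext (φ none) (fun a p' => ex S n (f a) p' φ)) := by
  induction P generalizing p with
  | ret a => rfl
  | rand k w g ih => simp only [bind_rand, ex_rand, ih]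
  | move q g ih =>
    simp only [bind_move, ex_move, oext_none]
    split_ifs
    · rfl
    · exact ih _ _ _

lemma co_bind (P : Prog α) (f : α → Prog β) (p : Pt) :
    co S n (P.bind f) p = co S n P p + ex S n P p (oext 0 (fun a p' => co S n (f a) p')) := by
  induction P generalizing p with
  | ret a => simp [co_ret, ex_ret]
  | rand k w g ih =>
    simp only [bind_rand, co_rand, ex_rand, ih, mul_add, Finset.sum_add_distrib]
  | move q g ih =>
    simp only [bind_move, co_move, ex_move, oext_none]
    split_ifs
    · simp
    · rw [ih]; ring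

lemma sure_bind {P : Prog α} {f : α → Prog β} {p : Pt} {Q : Option (β × Pt) → Prop} :
    sure S n (P.bind f) p Q ↔
      sure S n P p (oprop (Q none) (fun a p' => sure S n (f a) p' Q)) := by
  induction P generalizing p with
  | ret a => rfl
  | rand k w g ih => simp only [bind_rand, sure_rand, ih]
  | move q g ih => simp only [bind_move, sure_move, ih, oprop_none]

lemma sure_mono {P : Prog α} {p : Pt} {Q Q' : Option (α × Pt) → Prop} (h : sure S n P p Q)
    (hQ : ∀ o, Q o → Q' o) : sure S n P p Q' := by
  induction P generalizing p with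
  | ret a => exact hQ _ h
  | rand k w g ih => exact fun i => ih i (h i)
  | move q g ih =>
    rw [sure_move] at h ⊢
    split_ifs at h ⊢
    · exact hQ _ h
    · exact ih _ _ h

lemma sure_and {P : Prog α} {p : Pt} {Q Q' : Option (α × Pt) → Prop} (h : sure S n P p Q)
    (h' : sure S n P p Q') : sure S n P p (fun o => Q o ∧ Q' o) := by
  induction P generalizing p with
  | ret a => exact ⟨h, h'⟩
  | rand k w g ih => exact fun i => ih i (h i) (h' i)
  | move q g ih =>
    rw [sure_move] at h h' ⊢
    split_ifs at h h' ⊢
    · exact ⟨h, h'⟩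
    · exact ih _ _ h h'

lemma sure_true {P : Prog α} {p : Pt} : sure S n P p (fun _ => True) := by
  induction P generalizing p with
  | ret a => trivial
  | rand k w g ih => exact fun i => ih i
  | move q g ih =>
    rw [sure_move]
    by_cases h : n ≤ (stopAt S n p q).1
    · rw [if_pos h]; trivial
    · rw [if_neg h]; exact ih _ _

lemma ex_add (P : Prog α) (p : Pt) (φ ψ : Option (α × Pt) → ℝ) :
    ex S n P p (fun o => φ o + ψ o) = ex S n P p φ + ex S n P p ψ := by
  induction P generalizing p with
  | ret a => rfl
  | rand k w g ih => simp only [ex_rand, ih, mul_add, Finset.sum_add_distrib]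
  | move q g ih =>
    simp only [ex_move]
    split_ifs
    · rfl
    · exact ih _ _ _

lemma ex_smul (P : Prog α) (p : Pt) (c : ℝ) (φ : Option (α × Pt) → ℝ) :
    ex S n P p (fun o => c * φ o) = c * ex S n P p φ := by
  induction P generalizing p with
  | ret a => rfl
  | rand k w g ih =>
    simp only [ex_rand, ih, Finset.mul_sum]
    exact Finset.sum_congr rfl (fun i _ => by ring)
  | move q g ih =>
    simp only [ex_move]
    split_ifs
    · rfl
    · exact ih _ _ _

lemma ex_zero (P : Prog α) (p : Pt) : ex S n P p (fun _ => 0) = 0 := by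
  have := ex_smul (S := S) (n := n) P p 0 (fun _ => 0)
  simpa using this

lemma ex_sub (P : Prog α) (p : Pt) (φ ψ : Option (α × Pt) → ℝ) :
    ex S n P p (fun o => φ o - ψ o) = ex S n P p φ - ex S n P p ψ := by
  have h := ex_add (S := S) (n := n) P p φ (fun o => (-1) * ψ o)
  rw [ex_smul] at h
  have e : (fun o => φ o + -1 * ψ o) = (fun o => φ o - ψ o) := by
    funext o; ring
  rw [e] at h
  rw [h]; ring

lemma ex_sum {ι : Type*} (s : Finset ι) (P : Prog α) (p : Pt) (φ : ι → Option (α × Pt) → ℝ) :
    ex S n P p (fun o => ∑ i ∈ s, φ i o) = ∑ i ∈ s, ex S n P p (φ i) := by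
  classical
  induction s using Finset.induction_on with
  | empty => simpa using ex_zero (S := S) (n := n) P p
  | insert a s ha ih =>
    simp only [Finset.sum_insert ha]
    rw [ex_add, ih]

lemma ex_const {P : Prog α} (hP : P.Ok) (p : Pt) (c : ℝ) : ex S n P p (fun _ => c) = c := by
  induction P generalizing p with
  | ret a => rfl
  | rand k w g ih =>
    rw [ex_rand]
    calc ∑ i, w i * ex S n (g i) p (fun _ => c) = ∑ i, w i * c :=
          Finset.sum_congr rfl (fun i _ => by rw [ih i (hP.2.2 i)])
      _ = c := by rw [← Finset.sum_mul, hP.2.1, one_mul]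
  | move q g ih =>
    rw [ex_move]
    split_ifs
    · rfl
    · exact ih _ _ (hP _ _) _

/-- Monotonicity, where the comparison is only needed for outcomes that surely occur. -/
lemma ex_mono_sure {P : Prog α} (hP : P.Ok) {p : Pt} {Q : Option (α × Pt) → Prop}
    (hs : sure S n P p Q) {φ ψ : Option (α × Pt) → ℝ} (h : ∀ o, Q o → φ o ≤ ψ o) :
    ex S n P p φ ≤ ex S n P p ψ := by
  induction P generalizing p with
  | ret a => exact h _ hs
  | rand k w g ih =>
    simp only [ex_rand]
    exact Finset.sum_le_sum (fun i _ => mul_le_mul_of_nonneg_left (ih i (hP.2.2 i) (hs i))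
      (hP.1 i))
  | move q g ih =>
    simp only [ex_move]
    rw [sure_move] at hs
    split_ifs at hs ⊢
    · exact h _ hs
    · exact ih _ _ (hP _ _) hs

/-- Two functions with the same values at all possible outcomes have the same expectation. -/
lemma ex_congr_sure {P : Prog α} {p : Pt} {Q : Option (α × Pt) → Prop}
    (hs : sure S n P p Q) {φ ψ : Option (α × Pt) → ℝ} (h : ∀ o, Q o → φ o = ψ o) :
    ex S n P p φ = ex S n P p ψ := by
  induction P generalizing p with
  | ret a => exact h _ hs
  | rand k w g ih =>
    simp only [ex_rand]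
    exact Finset.sum_congr rfl (fun i _ => by rw [ih i (hs i)])
  | move q g ih =>
    simp only [ex_move]
    rw [sure_move] at hs
    split_ifs at hs ⊢
    · exact h _ hs
    · exact ih _ _ hs

lemma ex_mono {P : Prog α} (hP : P.Ok) {p : Pt} {φ ψ : Option (α × Pt) → ℝ}
    (h : ∀ o, φ o ≤ ψ o) : ex S n P p φ ≤ ex S n P p ψ :=
  ex_mono_sure hP sure_true (fun _ _ => h _)

lemma ex_nonneg {P : Prog α} (hP : P.Ok) {p : Pt} {φ : Option (α × Pt) → ℝ}
    (h : ∀ o, 0 ≤ φ o) : 0 ≤ ex S n P p φ := by
  have := ex_mono (S := S) (n := n) hP (p := p) h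
  rwa [ex_zero] at this

lemma co_nonneg {P : Prog α} (hP : P.Ok) (p : Pt) : 0 ≤ co S n P p := by
  induction P generalizing p with
  | ret a => exact le_rfl
  | rand k w g ih =>
    rw [co_rand]
    exact Finset.sum_nonneg (fun i _ => mul_nonneg (hP.1 i) (ih i (hP.2.2 i) _))
  | move q g ih =>
    rw [co_move]
    have h1 : 0 ≤ len p (stopAt S n p q) := Real.sqrt_nonneg _
    split_ifs
    · linarith
    · have := ih _ _ (hP (stopAt S n p q) (touched S p (stopAt S n p q))) (stopAt S n p q)
      linarith

/-- The expectations over two independent runs commute. -/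
lemma ex_comm (P : Prog α) (p : Pt) (P' : Prog β) (p' : Pt)
    (F : Option (α × Pt) → Option (β × Pt) → ℝ) :
    ex S n P p (fun o => ex S n P' p' (fun o' => F o o')) =
      ex S n P' p' (fun o' => ex S n P p (fun o => F o o')) := by
  induction P generalizing p with
  | ret a => rfl
  | rand k w g ih =>
    simp only [ex_rand, ih]
    rw [ex_sum]
    exact Finset.sum_congr rfl (fun i _ => by rw [ex_smul])
  | move q g ih =>
    simp only [ex_move]
    split_ifs
    · rfl
    · exact ih _ _ _

end Sem

end Pool.Agent.WallR
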