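import Mathlib

/-!
Definitions for the randomised wall problem (MP_981984_lc): scenes of axis-parallel rectangular
obstacles, robot paths, randomised online algorithms, their expected cost, and the optimal
randomised competitive ratio `rho n`.
-/

open scoped BigOperators ENNReal

namespace Pool.Agent.WallR

/-- Points of the plane. -/
abbrev Pt := ℝ × ℝ

/-- An axis-parallel rectangle `[x1, x2] × [y1, y2]`. -/
structure Rect where
  /-- abscissa of the left side -/
  x1 : ℝ
  /-- abscissa of the right side -/
  x2 : ℝ
  /-- ordinate of the bottom side -/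
  y1 : ℝ
  /-- ordinate of the top side -/
  y2 : ℝ

/-- The closed rectangle. -/
def Rect.body (O : Rect) : Set Pt :=
  {p | O.x1 ≤ p.1 ∧ p.1 ≤ O.x2 ∧ O.y1 ≤ p.2 ∧ p.2 ≤ O.y2}

/-- The open rectangle (the interior of the obstacle). -/
def Rect.inner (O : Rect) : Set Pt :=
  {p | O.x1 < p.1 ∧ p.1 < O.x2 ∧ O.y1 < p.2 ∧ p.2 < O.y2}

/-- A scene: a locally finite family of pairwise disjoint closed rectangles with all sides of
length at least `1`, none of which contains the origin. -/
structure IsScene (S : Set Rect) : Prop where
  wide : ∀ O ∈ S, O.x1 + 1 ≤ O.x2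
  tall : ∀ O ∈ S, O.y1 + 1 ≤ O.y2
  disj : ∀ O ∈ S, ∀ O' ∈ S, O ≠ O' → Disjoint O.body O'.body
  locfin : ∀ r : ℝ, {O | O ∈ S ∧ ∃ p ∈ O.body, |p.1| ≤ r ∧ |p.2| ≤ r}.Finite
  origin : ∀ O ∈ S, ((0, 0) : Pt) ∉ O.body

/-- The points that lie in the interior of no obstacle. -/
def Free (S : Set Rect) : Set Pt := {p | ∀ O ∈ S, p ∉ O.inner}

/-- Euclidean distance of two points. -/
noncomputable def len (p q : Pt) : ℝ := Real.sqrt ((p.1 - q.1) ^ 2 + (p.2 - q.2) ^ 2)

/-- There is an obstacle-avoiding path of length at most `l` from the origin to the line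
`x = n`: a curve on `[0, l]` with speed at most one. -/
def IsPath (S : Set Rect) (n l : ℝ) : Prop :=
  0 ≤ l ∧ ∃ c : ℝ → Pt, (∀ s ∈ Set.Icc 0 l, ∀ t ∈ Set.Icc 0 l, len (c s) (c t) ≤ |s - t|) ∧
    c 0 = (0, 0) ∧ (c l).1 = n ∧ ∀ t ∈ Set.Icc 0 l, c t ∈ Free S

/-- The length of a shortest obstacle-avoiding path from the origin to the line `x = n`
(an infimum, with value `⊤` if there is no path). -/
noncomputable def opt (S : Set Rect) (n : ℝ) : ℝ≥0∞ :=
  ⨅ (l : ℝ) (_ : IsPath S n l), ENNReal.ofReal l

/-- The point at parameter `t` of the segment from `p` to `q`. -/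
def pos (p q : Pt) (t : ℝ) : Pt := (p.1 + t * (q.1 - p.1), p.2 + t * (q.2 - p.2))

/-- The parameters up to which the robot, walking straight from `p` towards `q`, can go without
entering the interior of an obstacle and without crossing the line `x = n`. -/
def okTimes (S : Set Rect) (n : ℝ) (p q : Pt) : Set ℝ :=
  {t | 0 ≤ t ∧ t ≤ 1 ∧ ∀ s, 0 ≤ s → s ≤ t → pos p q s ∈ Free S ∧ (pos p q s).1 ≤ n}

/-- The point where the robot stops when it walks straight from `p` towards `q`: the first point
where it would enter the interior of an obstacle or cross the line `x = n`, or `q`. -/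
noncomputable def stopAt (S : Set Rect) (n : ℝ) (p q : Pt) : Pt :=
  pos p q (sSup (okTimes S n p q))

/-- The obstacles touched by the robot while it walks straight from `p` to `p'`. -/
def touched (S : Set Rect) (p p' : Pt) : Set Rect :=
  {O | O ∈ S ∧ ∃ t, 0 ≤ t ∧ t ≤ 1 ∧ pos p p' t ∈ O.body}

/-- What an algorithm does next: either it draws one of finitely many alternatives at random, or
the robot walks straight towards a point and then observes its new position and the set of the
obstacles it has touched on the way. -/
inductive Act (σ : Type) : Type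
  | rand : (k : ℕ) → (Fin k → ℝ) → (Fin k → σ) → Act σ
  | move : Pt → (Pt → Set Rect → σ) → Act σ

/-- A randomised online algorithm: a memory of arbitrary size, an initial state of the memory, and
a rule telling what to do next in each state. -/
structure Alg where
  /-- the states of the memory -/
  State : Type
  /-- the initial state -/
  start : State
  /-- the next action -/
  act : State → Act State
  /-- the weights of each random choice form a probability vector -/
  valid : ∀ s k w f, act s = Act.rand k w f → (∀ i, 0 ≤ w i) ∧ ∑ i, w i = 1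

/-- The expected length travelled in at most `J` steps of the algorithm from state `s` with the
robot at `p`, in the scene `S`, where the run ends as soon as the robot is on the line `x = n`. -/
noncomputable def Alg.cost (A : Alg) (S : Set Rect) (n : ℝ) : ℕ → A.State → Pt → ℝ
  | 0, _, _ => 0
  | J + 1, s, p =>
    if n ≤ p.1 then 0 else
      match A.act s with
      | Act.rand _ w f => ∑ i, w i * A.cost S n J (f i) p
      | Act.move q f => len p (stopAt S n p q) +
          A.cost S n J (f (stopAt S n p q) (touched S p (stopAt S n p q))) (stopAt S n p q)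

/-- The probability that the robot is on the line `x = n` after at most `J` steps. -/
noncomputable def Alg.reach (A : Alg) (S : Set Rect) (n : ℝ) : ℕ → A.State → Pt → ℝ
  | 0, _, p => if n ≤ p.1 then 1 else 0
  | J + 1, s, p =>
    if n ≤ p.1 then 1 else
      match A.act s with
      | Act.rand _ w f => ∑ i, w i * A.reach S n J (f i) p
      | Act.move q f =>
          A.reach S n J (f (stopAt S n p q) (touched S p (stopAt S n p q))) (stopAt S n p q)

/-- The algorithm reaches the line `x = n` with probability one in every scene. -/
def Alg.Correct (A : Alg) (n : ℝ) : Prop :=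
  ∀ S, IsScene S →
    Filter.Tendsto (fun J => A.reach S n J A.start (0, 0)) Filter.atTop (nhds 1)

/-- The expected length of the path of the robot until it reaches the line `x = n`. -/
noncomputable def Alg.expCost (A : Alg) (S : Set Rect) (n : ℝ) : ℝ≥0∞ :=
  ⨆ J : ℕ, ENNReal.ofReal (A.cost S n J A.start (0, 0))

/-- The competitive ratio of an algorithm. -/
noncomputable def Alg.ratio (A : Alg) (n : ℝ) : ℝ≥0∞ :=
  ⨆ (S : Set Rect) (_ : IsScene S), A.expCost S n / opt S n

/-- The optimal randomised competitive ratio for the distance `n`. -/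
noncomputable def rho (n : ℝ) : ℝ≥0∞ :=
  ⨅ (A : Alg) (_ : A.Correct n), A.ratio n

end Pool.Agent.WallR
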