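import Pool.Agent.WallR.Targets

open scoped BigOperators ENNReal

namespace Pool.Agent.WallR

open Prog

namespace Final_

lemma uu_nonneg (k N : ℕ) (g : ℝ) (hg : 0 ≤ g) : ∀ i, 0 ≤ uu k N g i
  | 0 => hg
  | i + 1 => by
    have := uu_nonneg k N g hg i
    unfold uu
    positivity

lemma cc_pos (k N M : ℕ) : 0 < cc k N M := by
  have h1 : 0 ≤ uu k N (2 / (k : ℝ) ^ M) M := uu_nonneg _ _ _ (by positivity) _
  unfold cc
  have h2 : (0 : ℝ) < 3 * 5 ^ M := by positivity
  have h3 : 0 ≤ 5 * (k : ℝ) * uu k N (2 / (k : ℝ) ^ M) M := by positivity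
  linarith

lemma inv0 {S : Set Rect} (hS : IsScene S) {n : ℝ} (hn : 1 ≤ n) :
    Dom S n (-(2 ^ 0 * n)) (2 ^ 0 * n) (0, 0) where
  free := by
    intro O hO h
    exact hS.origin O hO ⟨h.1.le, h.2.1.le, h.2.2.1.le, h.2.2.2.le⟩
  x0 := le_rfl
  xn := by simpa using lt_of_lt_of_le one_pos hn
  ylo := by simp; linarith
  yhi := by simp; linarith

end Final_

open Final_

theorem pFinal (h1 : tCmp) (h2 : tExist) (h3 : tStage) (h4 : tMachC) (h5 : tMachR)
    (h6 : tNum) : tFinal := by
  obtain ⟨C, hC, h⟩ := h6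
  refine ⟨C, hC, fun n hn => ?_⟩
  obtain ⟨k, N, M, hk, hN, hkM, hNc, hcc⟩ := h n hn
  have hn1 : (1 : ℝ) ≤ n := by linarith
  have hn0 : (0 : ℝ) < n := by linarith
  obtain ⟨hok, hst⟩ := h3 n k N M hn1 hk hN hkM hNc
  set c := cc k N M with hc
  have hcpos : 0 < c := cc_pos _ _ _
  have hpow : ∀ x : ℝ, ∃ j0 : ℕ, x ≤ 2 ^ j0 * n := by
    intro x
    obtain ⟨j0, hj0⟩ := pow_unbounded_of_one_lt x (by norm_num : (1 : ℝ) < 2)
    refine ⟨j0, hj0.le.trans ?_⟩
    have : (0 : ℝ) < 2 ^ j0 := by positivity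
    nlinarith
  have hcorr : (mach (stage n k N M) hok).Correct n := by
    intro S hS
    obtain ⟨l, hl⟩ := h2 S n hS hn0
    obtain ⟨hnl, hCmp⟩ := h1 S n l hS hn0 hl
    obtain ⟨j0, hj0⟩ := hpow l
    apply h5 (stage n k N M) hok S n
      (fun j p => Dom S n (-(2 ^ j * n)) (2 ^ j * n) p) j0 (inv0 hS hn1)
    intro j p hp
    obtain ⟨ha, _, hb⟩ := hst S hS j p hp
    refine ⟨hp.xn, ha, fun hj => hb l hCmp hl.1 (hj0.trans ?_)⟩
    have : (2 : ℝ) ^ j0 ≤ 2 ^ j := pow_le_pow_right₀ (by norm_num) hj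
    exact mul_le_mul_of_nonneg_right this hn0.le
  have hcost : ∀ S, IsScene S → ∀ l, IsPath S n l → ∀ J,
      (mach (stage n k N M) hok).cost S n J (mach (stage n k N M) hok).start (0, 0) ≤
        6 * c * l := by
    intro S hS l hl J
    obtain ⟨hnl, hCmp⟩ := h1 S n l hS hn0 hl
    classical
    have hex : ∃ j0 : ℕ, l ≤ 2 ^ j0 * n := hpow l
    set j0 := Nat.find hex with hj0
    have hj0s : l ≤ 2 ^ j0 * n := Nat.find_spec hex
    have hj0m : ∀ j, j < j0 → 2 ^ j * n < l := fun j hj => not_le.mp (Nat.find_min hex hj)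
    have hmono : ∀ i j : ℕ, i ≤ j → (2 : ℝ) ^ i * n ≤ 2 ^ j * n := fun i j hij =>
      mul_le_mul_of_nonneg_right (pow_le_pow_right₀ (by norm_num) hij) hn0.le
    have hpos : ∀ j : ℕ, 0 < (2 : ℝ) ^ j * n := fun j => by positivity
    let B : ℕ → ℝ := fun j => if j < j0 then c * (3 * (2 ^ j0 * n) - 2 ^ j * n)
      else 2 * c * (2 ^ j * n)
    have hB : ∀ j, 0 ≤ B j := by
      intro j
      simp only [B]
      split_ifs with hj
      · have := hmono j j0 hj.le
        have := hpos j0
        apply mul_nonneg hcpos.le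
        linarith
      · have := hpos j
        positivity
    have key := h4 (stage n k N M) hok S n
      (fun j p => Dom S n (-(2 ^ j * n)) (2 ^ j * n) p) B (inv0 hS hn1) hB ?_ J
    · refine key.trans ?_
      simp only [B]
      split_ifs with hj
      · obtain ⟨i, hi⟩ : ∃ i, j0 = i + 1 := ⟨j0 - 1, by omega⟩
        have h1 := hj0m i (by omega)
        have h2 : (2 : ℝ) ^ j0 * n = 2 * (2 ^ i * n) := by rw [hi, pow_succ]; ring
        rw [h2]
        have : 0 < c * n := by positivity
        nlinarith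
      · have : (2 : ℝ) ^ 0 * n = n := by simp
        rw [this]
        nlinarith
    · intro j p hp
      obtain ⟨ha, hb, hd⟩ := hst S hS j p hp
      refine ⟨hp.xn, ha, ?_⟩
      have he0 : 0 ≤ ex S n (stage n k N M j p) p (oext 0 (fun _ _ => 1)) :=
        ex_nonneg (hok j p) (fun o => by
          rcases o with _ | ⟨a, b⟩
          · simp
          · simp)
      have he1 : ex S n (stage n k N M j p) p (oext 0 (fun _ _ => 1)) ≤ 1 := by
        have h := ex_mono (S := S) (n := n) (hok j p) (p := p)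
          (φ := oext 0 (fun _ _ => 1)) (ψ := fun _ => 1) (fun o => by
          rcases o with _ | ⟨a, b⟩
          · simp
          · simp)
        rwa [ex_const (hok j p)] at h
      set e := ex S n (stage n k N M j p) p (oext 0 (fun _ _ => 1)) with he
      have hD : (2 : ℝ) ^ (j + 1) * n = 2 * (2 ^ j * n) := by rw [pow_succ]; ring
      simp only [B]
      by_cases hj : j < j0
      · by_cases hj' : j + 1 < j0
        · rw [if_pos hj', if_pos hj, hD]
          have hm := hmono (j + 1) j0 hj'.le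
          rw [hD] at hm
          have h0 : 0 ≤ c * (3 * (2 ^ j0 * n) - 2 * (2 ^ j * n)) := by
            apply mul_nonneg hcpos.le
            have := hpos j0
            linarith
          have h1 : c * (3 * (2 ^ j0 * n) - 2 * (2 ^ j * n)) * e ≤
              c * (3 * (2 ^ j0 * n) - 2 * (2 ^ j * n)) := mul_le_of_le_one_right h0 he1
          nlinarith
        · have hj0' : j0 = j + 1 := by omega
          rw [if_neg hj', if_pos hj, hj0', hD]
          have h0 : 0 ≤ 2 * c * (2 * (2 ^ j * n)) := by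
            have := hpos j
            positivity
          have h1 := mul_le_of_le_one_right h0 he1
          nlinarith
      · have hj' : ¬ (j + 1 < j0) := by omega
        rw [if_neg hj', if_neg hj, hD]
        have h4 : e ≤ 1 / 4 := hd l hCmp hl.1 (hj0s.trans (hmono j0 j (not_lt.mp hj)))
        have h0 : 0 ≤ 2 * c * (2 * (2 ^ j * n)) := by
          have := hpos j
          positivity
        have h1 := mul_le_mul_of_nonneg_left h4 h0
        nlinarith
  have hratio : (mach (stage n k N M) hok).ratio n ≤ ENNReal.ofReal (6 * c) := by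
    refine iSup₂_le (fun S hS => ?_)
    apply ENNReal.div_le_of_le_mul
    have h6c : (0 : ℝ) < 6 * c := by positivity
    have hne0 : ENNReal.ofReal (6 * c) ≠ 0 := by
      rw [Ne, ENNReal.ofReal_eq_zero, not_le]; exact h6c
    have hnet : ENNReal.ofReal (6 * c) ≠ ⊤ := ENNReal.ofReal_ne_top
    have hdiv : (mach (stage n k N M) hok).expCost S n / ENNReal.ofReal (6 * c) ≤ opt S n := by
      refine le_iInf₂ (fun l hl => ?_)
      apply ENNReal.div_le_of_le_mul
      refine iSup_le (fun J => ?_)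
      rw [← ENNReal.ofReal_mul hl.1]
      apply ENNReal.ofReal_le_ofReal
      have := hcost S hS l hl J
      linarith
    have := (ENNReal.div_le_iff_le_mul (Or.inl hne0) (Or.inl hnet)).mp hdiv
    rwa [mul_comm] at this
  calc rho n ≤ (mach (stage n k N M) hok).ratio n := by
        unfold rho
        exact iInf₂_le (mach (stage n k N M) hok) hcorr
    _ ≤ ENNReal.ofReal (6 * c) := hratio
    _ ≤ _ := ENNReal.ofReal_le_ofReal hcc

end Pool.Agent.WallR
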