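import Pool.Agent.WallR.Targets

open scoped BigOperators

namespace Pool.Agent.WallR

open Prog

namespace MachC_

lemma cost_ret (stg : ℕ → Pt → Prog Pt) (hok : ∀ j p, (stg j p).Ok) (S : Set Rect) (n : ℝ)
    (J j : ℕ) (a : Pt) (h : (ret a : Prog Pt).Ok) (p : Pt) :
    (mach stg hok).cost S n (J + 1) ⟨(j, ret a), h⟩ p = if n ≤ p.1 then 0 else
      (mach stg hok).cost S n J ⟨(j + 1, stg (j + 1) a), hok _ _⟩ p := by
  simp only [Alg.cost, mach]
  split_ifs
  · rfl
  · simp

lemma cost_rand (stg : ℕ → Pt → Prog Pt) (hok : ∀ j p, (stg j p).Ok) (S : Set Rect) (n : ℝ)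
    (J j : ℕ) (k : ℕ) (w : Fin k → ℝ) (g : Fin k → Prog Pt) (h : (rand k w g).Ok) (p : Pt) :
    (mach stg hok).cost S n (J + 1) ⟨(j, rand k w g), h⟩ p = if n ≤ p.1 then 0 else
      ∑ i, w i * (mach stg hok).cost S n J ⟨(j, g i), h.2.2 i⟩ p := by
  simp only [Alg.cost, mach]

lemma cost_move (stg : ℕ → Pt → Prog Pt) (hok : ∀ j p, (stg j p).Ok) (S : Set Rect) (n : ℝ)
    (J j : ℕ) (q : Pt) (g : Pt → Set Rect → Prog Pt) (h : (move q g).Ok) (p : Pt) :
    (mach stg hok).cost S n (J + 1) ⟨(j, move q g), h⟩ p = if n ≤ p.1 then 0 else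
      len p (stopAt S n p q) + (mach stg hok).cost S n J
        ⟨(j, g (stopAt S n p q) (touched S p (stopAt S n p q))), h _ _⟩ (stopAt S n p q) := by
  simp only [Alg.cost, mach]

lemma cost_line (A : Alg) (S : Set Rect) (n : ℝ) (J : ℕ) (s : A.State) (p : Pt)
    (h : n ≤ p.1) : A.cost S n J s p = 0 := by
  cases J with
  | zero => simp [Alg.cost]
  | succ J => simp [Alg.cost, h]

end MachC_

open MachC_

theorem pMachC : tMachC := by
  intro stg hok S n Inv B h0 hB hst
  have key : ∀ (J j : ℕ) (P : Prog Pt) (h : P.Ok) (p : Pt),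
      sure S n P p (oprop True (fun a p' => a = p' ∧ Inv (j + 1) a)) →
      (mach stg hok).cost S n J ⟨(j, P), h⟩ p ≤
        co S n P p + B (j + 1) * ex S n P p (oext 0 (fun _ _ => 1)) := by
    intro J
    have hn : ∀ (j : ℕ) (P : Prog Pt) (_ : P.Ok) (p : Pt),
        0 ≤ co S n P p + B (j + 1) * ex S n P p (oext 0 (fun _ _ => 1)) := by
      intro j P h p
      have h1 := co_nonneg (S := S) (n := n) h p
      have h2 : 0 ≤ ex S n P p (oext 0 (fun _ _ => 1)) := ex_nonneg h (fun o => by
        rcases o with _ | ⟨a, b⟩ <;> simp)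
      have := mul_nonneg (hB (j + 1)) h2
      linarith
    induction J with
    | zero =>
      intro j P h p _
      simpa [Alg.cost] using hn j P h p
    | succ J ih =>
      intro j P h p hs
      by_cases hp : n ≤ p.1
      · rw [cost_line _ _ _ _ _ _ hp]; exact hn j P h p
      cases P with
      | ret a =>
        rw [cost_ret, if_neg hp]
        simp only [sure_ret, oprop_some] at hs
        obtain ⟨rfl, hinv⟩ := hs
        obtain ⟨_, hs', hc⟩ := hst (j + 1) a hinv
        have := ih (j + 1) (stg (j + 1) a) (hok _ _) a hs'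
        simp only [co_ret, ex_ret, oext_some]
        linarith
      | rand k w g =>
        rw [cost_rand, if_neg hp, co_rand, ex_rand, Finset.mul_sum, ← Finset.sum_add_distrib]
        apply Finset.sum_le_sum
        intro i _
        have := ih j (g i) (h.2.2 i) p (hs i)
        have := mul_le_mul_of_nonneg_left this (h.1 i)
        calc _ ≤ _ := this
          _ = _ := by ring
      | move q g =>
        rw [cost_move, if_neg hp, co_move, ex_move]
        rw [sure_move] at hs
        split_ifs at hs ⊢ with hq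
        · rw [cost_line _ _ _ _ _ _ hq]; simp
        · have := ih j _ (h (stopAt S n p q) (touched S p (stopAt S n p q))) _ hs
          linarith
  intro J
  obtain ⟨_, hs, hc⟩ := hst 0 (0, 0) h0
  exact (key J 0 (stg 0 (0, 0)) (hok _ _) (0, 0) hs).trans hc

end Pool.Agent.WallR
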