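import Pool.Agent.WallR.Core

/-!
The programs of the wall algorithm, and the properties of a walker.

A walker `P : ℝ → Pt → Prog (Option Pt)` takes a limit `R` and the current position `p` of the
robot (it knows its position).  It returns `some x` when it ends at the point `x` with abscissa
at most `R`, and `none` when it would pass the limit `R`.
-/

open scoped BigOperators

namespace Pool.Agent.WallR

open Prog

/-- The obstacle that blocks a move to the right ending at `p'`, among the touched ones. -/
noncomputable def hblock (T : Set Rect) (p' : Pt) : Option Rect :=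
  open Classical in
  if h : ∃ O ∈ T, O.x1 = p'.1 ∧ O.y1 < p'.2 ∧ p'.2 < O.y2 then some h.choose else none

/-- The obstacle that blocks a vertical move ending at `p'`, among the touched ones. -/
noncomputable def vblock (T : Set Rect) (p' : Pt) : Option Rect :=
  open Classical in
  if h : ∃ O ∈ T, O.x1 < p'.1 ∧ p'.1 < O.x2 ∧ (O.y1 = p'.2 ∨ O.y2 = p'.2) then some h.choose
  else none

/-- Level 0: go right in the cell `a ≤ y ≤ b`; go around an obstacle if one of its ends is in the
cell; stop if the obstacle covers the whole cell; `none` when the limit `R` is passed.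
The first argument is fuel. -/
noncomputable def base (a b R : ℝ) : ℕ → Pt → Prog (Option Pt)
  | 0, _ => ret none
  | k + 1, p => move (R, p.2) fun p' T =>
      match hblock T p' with
      | none => ret none
      | some O =>
        if O.y2 ≤ b then
          move (O.x1, O.y2) fun _ _ =>
            if O.x2 ≤ R then move (O.x2, O.y2) fun p'' _ => base a b R k p''
            else move (R, O.y2) fun _ _ => ret none
        else if a ≤ O.y1 then
          move (O.x1, O.y1) fun _ _ =>
            if O.x2 ≤ R then move (O.x2, O.y1) fun p'' _ => base a b R k p''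
            else move (R, O.y1) fun _ _ => ret none
        else ret (some p')

/-- Go vertically to the ordinate `y'`, sliding to the right along the obstacles met; `none` when
the limit `R` is passed. The fuel is the natural number argument. -/
noncomputable def goto (y' R : ℝ) : ℕ → Pt → Prog (Option Pt)
  | 0, _ => ret none
  | k + 1, p => move (p.1, y') fun p' T =>
      if p'.2 = y' then ret (some p') else
      match vblock T p' with
      | none => ret none
      | some O =>
        if O.x2 ≤ R then
          move (O.x2, p'.2) fun _ _ =>
            if O.y1 ≤ y' ∧ y' ≤ O.y2 then move (O.x2, y') fun p3 _ => ret (some p3)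
            else move (O.x2, if p'.2 = O.y1 then O.y2 else O.y1) fun p3 _ => goto y' R k p3
        else move (R, p'.2) fun _ _ => ret none

/-- Run a walker and then, if it has ended inside the limit, another one. -/
def seqW (P : ℝ → Pt → Prog (Option Pt)) (Q : ℝ → Pt → Prog (Option Pt)) (R : ℝ) (p : Pt) :
    Prog (Option Pt) :=
  (P R p).bind fun o =>
    match o with
    | none => ret none
    | some x => Q R x

/-- Record the stops (in reverse order, on top of `L`). -/
def rcd {α : Type} : List Pt → Prog α → Prog (α × List Pt)
  | L, ret a => ret (a, L)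
  | L, rand k w g => rand k w (fun i => rcd L (g i))
  | L, move q g => move q (fun p T => rcd (p :: L) (g p T))

/-- Walk along a list of stops. -/
def walk : List Pt → Prog Unit
  | [] => ret ()
  | q :: L => move q fun _ _ => walk L

/-- Run `P` from `p`, then retrace the path back to `p`; return the value of `P` and the list
of the stops of `P` in their order, beginning with `p`. -/
def excursion {α : Type} (P : Prog α) (p : Pt) : Prog (α × List Pt) :=
  (rcd [p] P).bind fun r => (walk r.2).bind fun _ => ret (r.1, r.2.reverse)

/-- One exploratory round: run `P` from `p` and come back to `p`; if `P` has ended at `x`, run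
`Q x` from `p` and come back with the answer `b`; then walk the first path again, to `x`, and
continue with `K x b`. -/
def tour {β : Type} (p : Pt) (P : Prog (Option Pt)) (Q : Pt → Prog β)
    (K : Pt → β → Prog (Option Pt)) : Prog (Option Pt) :=
  (excursion P p).bind fun r =>
    match r.1 with
    | none => ret none
    | some x => (excursion (Q x) p).bind fun b => (walk r.2).bind fun _ => K x b.1

/-- The weight `2^(-c)`. -/
noncomputable def wt (c : ℕ) : ℝ := (1 / 2 : ℝ) ^ c

/-- The probability of `s` with the counters `c`. -/
noncomputable def prb {m : ℕ} (c : Fin m → ℕ) (s : Fin m) : ℝ := wt (c s) / ∑ t, wt (c t)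

/-- Increment the counter of `s`. -/
def inc {m : ℕ} (c : Fin m → ℕ) (s : Fin m) : Fin m → ℕ := Function.update c s (c s + 1)

/-- The counters after a round. -/
def upd {m : ℕ} (c : Fin m → ℕ) (b : Fin m × Bool) : Fin m → ℕ :=
  if b.2 then inc c b.1 else c

/-- The probing program of a round: a uniformly random alternative is run with the limit `r` and
the answer tells whether it has lost, that is, ended inside the limit `r`. -/
noncomputable def probe {m : ℕ} (sub : Fin m → ℝ → Pt → Prog (Option Pt)) (p : Pt) (r : ℝ) :
    Prog (Fin m × Bool) :=
  rand m (fun _ => 1 / (m : ℝ)) fun s => (sub s r p).bind fun o => ret (s, o.isSome)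

/-- `N` rounds of multiplicative weights over the walkers `sub s`. -/
noncomputable def rounds {m : ℕ} (sub : Fin m → ℝ → Pt → Prog (Option Pt)) :
    ℕ → (Fin m → ℕ) → ℝ → Pt → Prog (Option Pt)
  | 0, _, _, p => ret (some p)
  | N + 1, c, R, p =>
    rand m (prb c) fun h =>
      tour p (sub h R p) (fun x => probe sub p x.1) (fun x b => rounds sub N (upd c b) R x)

/-- The point of `[a, a + g]` nearest to `y`. -/
noncomputable def clampTo (a g y : ℝ) : ℝ := max a (min (a + g) y)

/-- The walkers of the hierarchy. Level `i` works in the strip `a ≤ y ≤ a + k ^ i * g0`; it plays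
multiplicative weights over the `2 k - 1` substrips of height `k ^ (i - 1) * g0` which begin at
the multiples of half of that height. -/
noncomputable def lvl (k N F : ℕ) (g0 : ℝ) : ℕ → ℝ → ℝ → Pt → Prog (Option Pt)
  | 0, a, R, p => base a (a + g0) R F p
  | i + 1, a, R, p =>
    rounds (m := 2 * k - 1)
      (fun s R' p' =>
        seqW (fun R'' p'' =>
            goto (clampTo (a + s * ((k : ℝ) ^ i * g0 / 2)) ((k : ℝ) ^ i * g0) p''.2) R'' F p'')
          (fun R'' p'' => lvl k N F g0 i (a + s * ((k : ℝ) ^ i * g0 / 2)) R'' p'') R' p')
      N (fun _ => 0) R p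

/-- Run a walker `T` times in a row. -/
def iter (P : ℝ → Pt → Prog (Option Pt)) : ℕ → ℝ → Pt → Prog (Option Pt)
  | 0, _, p => ret (some p)
  | T + 1, R, p => seqW P (fun R' x => iter P T R' x) R p

/-- Stage `j` of the algorithm for the distance `n`: the scale is `D = 2 ^ j * n`. -/
noncomputable def stage (n : ℝ) (k N M : ℕ) (j : ℕ) (p : Pt) : Prog Pt :=
  (iter (fun R x => lvl k N (⌈2 * (2 ^ j * n)⌉₊ + 1) (2 * (2 ^ j * n) / (k : ℝ) ^ M) M
    (-(2 ^ j * n)) R x) (5 * k) n p).bind fun o =>
    match o with
    | none => ret (0, 0)
    | some x => ret x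

/-- The machine that runs the stages `stg 0, stg 1, …` one after the other. -/
def mach (stg : ℕ → Pt → Prog Pt) (hok : ∀ j p, (stg j p).Ok) : Alg where
  State := {x : ℕ × Prog Pt // x.2.Ok}
  start := ⟨(0, stg 0 (0, 0)), hok _ _⟩
  act := fun x => match x with
    | ⟨(j, ret a), _⟩ => Act.rand 1 (fun _ => 1) (fun _ => ⟨(j + 1, stg (j + 1) a), hok _ _⟩)
    | ⟨(j, rand k w g), h⟩ => Act.rand k w (fun i => ⟨(j, g i), h.2.2 i⟩)
    | ⟨(j, move q g), h⟩ => Act.move q (fun p T => ⟨(j, g p T), h p T⟩)
  valid := by
    rintro ⟨⟨j, P⟩, h⟩ k w f hact
    cases P with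
    | ret a =>
      simp only [Act.rand.injEq] at hact
      obtain ⟨rfl, hw, _⟩ := hact
      subst hw
      simp
    | rand k' w' g =>
      simp only [Act.rand.injEq] at hact
      obtain ⟨rfl, hw, _⟩ := hact
      rw [heq_eq_eq] at hw
      subst hw
      exact ⟨h.1, h.2.1⟩
    | move q g => simp at hact

end Pool.Agent.WallR
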