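import Pool.Agent.WallR.Progs

/-!
The targets of the WALL jobs. Each job proves one of the propositions `tXXX` below,
assuming earlier ones as hypotheses where its specification says so.
-/

open scoped BigOperators ENNReal

namespace Pool.Agent.WallR

open Prog

/-! ### Views, walkers, guarantees -/

/-- What a walker has returned; reaching the line counts as `none`. -/
def view : Option (Option Pt × Pt) → Option Pt
  | none => none
  | some (o, _) => o

/-- Expectation of a function of what the walker has returned. -/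
noncomputable def EV (S : Set Rect) (n : ℝ) (P : Prog (Option Pt)) (p : Pt)
    (psi : Option Pt → ℝ) : ℝ :=
  ex S n P p (fun o => psi (view o))

/-- Function on `Option Pt` given by its value on `none` and on the points. -/
def oo (c : ℝ) (F : Pt → ℝ) : Option Pt → ℝ
  | none => c
  | some x => F x

@[simp] lemma oo_none (c : ℝ) (F : Pt → ℝ) : oo c F none = c := rfl
@[simp] lemma oo_some (c : ℝ) (F : Pt → ℝ) (x : Pt) : oo c F (some x) = F x := rfl

/-- Turn the outcomes beyond the abscissa `r` into `none`. -/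
noncomputable def cut (r : ℝ) : Option Pt → Option Pt
  | none => none
  | some x => if x.1 ≤ r then some x else none

/-- The progress made from `p` with the limit `R`. -/
def prog (R : ℝ) (p : Pt) : Option Pt → ℝ := oo (R - p.1) (fun x => x.1 - p.1)

/-- The indicator of `ended at a point of abscissa smaller than t`. -/
noncomputable def below (t : ℝ) : Option Pt → ℝ := oo 0 (fun x => if x.1 < t then 1 else 0)

/-- Admissible positions of the robot, with ordinate between `lo` and `hi`. -/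
structure Dom (S : Set Rect) (n lo hi : ℝ) (p : Pt) : Prop where
  free : p ∈ Free S
  x0 : 0 ≤ p.1
  xn : p.1 < n
  ylo : lo ≤ p.2
  yhi : p.2 ≤ hi

/-- The possible outcomes of a walker from `p` with the limit `R`: the line is reached only if
the limit is at least `n`; `none` is returned only if the limit is smaller than `n`; a returned
point is the current position, it is admissible (ordinate between `lo` and `hi`) and its abscissa
is between that of `p` and `R`. -/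
def WOut (S : Set Rect) (n lo hi R : ℝ) (p : Pt) : Option (Option Pt × Pt) → Prop
  | none => n ≤ R
  | some (none, _) => R < n
  | some (some x, p') => x = p' ∧ Dom S n lo hi x ∧ p.1 ≤ x.1 ∧ x.1 ≤ R

/-- The properties of a walker which starts with ordinate in `[lo, hi]` and ends with ordinate in
`[lo', hi']`: expected cost at most `A` times the expected progress plus `u`. -/
structure IsWalker (S : Set Rect) (n lo hi lo' hi' A u : ℝ)
    (P : ℝ → Pt → Prog (Option Pt)) : Prop where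
  ok : ∀ R p, (P R p).Ok
  out : ∀ R p, Dom S n lo hi p → p.1 ≤ R → R ≤ n → sure S n (P R p) p (WOut S n lo' hi' R p)
  cutE : ∀ r R p psi, Dom S n lo hi p → p.1 ≤ r → r ≤ R → R ≤ n →
    EV S n (P r p) p psi = EV S n (P R p) p (fun o => psi (cut r o))
  cost : ∀ R p, Dom S n lo hi p → p.1 ≤ R → R ≤ n →
    co S n (P R p) p ≤ A * EV S n (P R p) p (prog R p) + u

/-- The abstract comparator: `y t` is the ordinate of a path at time `t`, and `m u` the smallest
abscissa of the path after time `u`. -/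
structure Cmp (S : Set Rect) (n l : ℝ) where
  /-- the ordinate -/
  y : ℝ → ℝ
  /-- the smallest abscissa from a time on -/
  m : ℝ → ℝ
  lip : ∀ s t, |y s - y t| ≤ |s - t|
  y0 : y 0 = 0
  m0 : m 0 ≤ 0
  ml : n ≤ m l
  mono : Monotone m
  bar : ∀ O ∈ S, ∀ u u', u ≤ u' → (∀ t, u ≤ t → t ≤ u' → O.y1 < y t ∧ y t < O.y2) →
    m u ≤ O.x1 → m u' ≤ O.x1

/-- The guarantee of a walker: if the comparator stays in the strip `[lo, hi]` during `[u, u']`,
a time interval of length at most `tau`, and the robot starts at an abscissa at least `m u`, then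
with probability at least `15/16` it ends at an abscissa at least `m u'`. -/
def Guar {S : Set Rect} {n l : ℝ} (C : Cmp S n l) (lo hi tau : ℝ)
    (P : ℝ → Pt → Prog (Option Pt)) : Prop :=
  ∀ u u' R p, u ≤ u' → u' - u ≤ tau → (∀ t, u ≤ t → t ≤ u' → lo ≤ C.y t ∧ C.y t ≤ hi) →
    Dom S n lo hi p → C.m u ≤ p.1 → p.1 ≤ R → R ≤ n →
    EV S n (P R p) p (below (C.m u')) ≤ 1 / 16

/-! ### The targets -/

/-- STOP 1: general facts on a straight move. -/
def tStop : Prop := ∀ (S : Set Rect) (n : ℝ) (p q : Pt), p ∈ Free S → p.1 ≤ n →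
  stopAt S n p q ∈ Free S ∧ (stopAt S n p q).1 ≤ n ∧
  (∃ t, 0 ≤ t ∧ t ≤ 1 ∧ stopAt S n p q = pos p q t) ∧
  stopAt S n p (stopAt S n p q) = stopAt S n p q ∧
  stopAt S n (stopAt S n p q) p = p ∧
  ((∀ t, 0 ≤ t → t ≤ 1 → pos p q t ∈ Free S ∧ (pos p q t).1 ≤ n) → stopAt S n p q = q)

/-- STOP 2: a horizontal move to the right with a limit. -/
def tStopH : Prop := ∀ (S : Set Rect) (n : ℝ), IsScene S → ∀ (p : Pt), p ∈ Free S → p.1 < n →
  (∀ R, p.1 ≤ R → R ≤ n →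
    (stopAt S n p (R, p.2)).2 = p.2 ∧ p.1 ≤ (stopAt S n p (R, p.2)).1 ∧
    (stopAt S n p (R, p.2)).1 ≤ R ∧
    ((stopAt S n p (R, p.2)).1 < R →
      ∃ O ∈ touched S p (stopAt S n p (R, p.2)),
        O.x1 = (stopAt S n p (R, p.2)).1 ∧ O.y1 < p.2 ∧ p.2 < O.y2) ∧
    (∀ O ∈ S, O.y1 < p.2 → p.2 < O.y2 → p.1 ≤ O.x1 →
      (stopAt S n p (R, p.2)).1 ≤ O.x1)) ∧
  (∀ r R, p.1 ≤ r → r ≤ R → R ≤ n →
    stopAt S n p (r, p.2) = (min r (stopAt S n p (R, p.2)).1, p.2))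

/-- STOP 3: a vertical move. -/
def tStopV : Prop := ∀ (S : Set Rect) (n : ℝ), IsScene S → ∀ (p : Pt) (y : ℝ), p ∈ Free S →
  p.1 < n →
  (stopAt S n p (p.1, y)).1 = p.1 ∧
  (p.2 ≤ y → p.2 ≤ (stopAt S n p (p.1, y)).2 ∧ (stopAt S n p (p.1, y)).2 ≤ y ∧
    ((stopAt S n p (p.1, y)).2 < y → ∃ O ∈ touched S p (stopAt S n p (p.1, y)),
        O.x1 < p.1 ∧ p.1 < O.x2 ∧ O.y1 = (stopAt S n p (p.1, y)).2)) ∧
  (y ≤ p.2 → y ≤ (stopAt S n p (p.1, y)).2 ∧ (stopAt S n p (p.1, y)).2 ≤ p.2 ∧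
    (y < (stopAt S n p (p.1, y)).2 → ∃ O ∈ touched S p (stopAt S n p (p.1, y)),
        O.x1 < p.1 ∧ p.1 < O.x2 ∧ O.y2 = (stopAt S n p (p.1, y)).2))

/-- STOP 4: slides along the sides of an obstacle are never blocked; a point of an obstacle that
is not in its interior is free and lies in no other obstacle. -/
def tSlide : Prop := ∀ (S : Set Rect) (n : ℝ), IsScene S → ∀ O ∈ S,
  (∀ p ∈ O.body, p ∉ O.inner → p ∈ Free S) ∧
  (∀ p ∈ O.body, ∀ O' ∈ S, p ∈ O'.body → O' = O) ∧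
  (∀ x y y', (x = O.x1 ∨ x = O.x2) → x ≤ n → O.y1 ≤ y → y ≤ O.y2 → O.y1 ≤ y' → y' ≤ O.y2 →
    stopAt S n (x, y) (x, y') = (x, y')) ∧
  (∀ x x' y, (y = O.y1 ∨ y = O.y2) → O.x1 ≤ x → x ≤ O.x2 → O.x1 ≤ x' → x' ≤ O.x2 →
    x ≤ n → x' ≤ n → stopAt S n (x, y) (x', y) = (x', y))

/-- CMP: a path gives a comparator. -/
def tCmp : Prop := ∀ (S : Set Rect) (n l : ℝ), IsScene S → 0 < n → IsPath S n l →
  n ≤ l ∧ Nonempty (Cmp S n l)

/-- EXIST: every scene has a path. -/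
def tExist : Prop := ∀ (S : Set Rect) (n : ℝ), IsScene S → 0 < n → ∃ l, IsPath S n l

/-- BASE: level 0 is a walker; where it ends there is an obstacle which covers the cell. -/
def tBase : Prop := ∀ (S : Set Rect) (n : ℝ), IsScene S → ∀ (a g : ℝ) (F : ℕ), 0 ≤ g →
  n < F →
  IsWalker S n a (a + g) a (a + g) (1 + g) g (fun R p => base a (a + g) R F p) ∧
  ∀ R p, Dom S n a (a + g) p → p.1 ≤ R → R ≤ n →
    sure S n (base a (a + g) R F p) p (fun o => ∀ x, view o = some x →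
      ∃ O ∈ S, O.x1 = x.1 ∧ O.y1 < a ∧ a + g < O.y2)

/-- BASEG: the guarantee of level 0. -/
def tBaseG : Prop := ∀ (S : Set Rect) (n l : ℝ), IsScene S → ∀ (C : Cmp S n l) (a g tau : ℝ)
  (F : ℕ), 0 ≤ g → n < F → Guar C a (a + g) tau (fun R p => base a (a + g) R F p)

/-- GOTO: the vertical move to a substrip is a walker. -/
def tGoto : Prop := ∀ (S : Set Rect) (n : ℝ), IsScene S → ∀ (lo hi a g : ℝ) (F : ℕ), 0 ≤ g →
  lo ≤ a → a + g ≤ hi → hi - lo < F →
  IsWalker S n lo hi a (a + g) 1 (hi - lo) (fun R p => goto (clampTo a g p.2) R F p)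

/-- SEQ: two walkers in a row. -/
def tSeq : Prop := ∀ (S : Set Rect) (n lo hi lo' hi' lo'' hi'' A u A' u' : ℝ)
  (P Q : ℝ → Pt → Prog (Option Pt)), 0 ≤ A → A ≤ A' → 0 ≤ u' →
  IsWalker S n lo hi lo' hi' A u P → IsWalker S n lo' hi' lo'' hi'' A' u' Q →
  IsWalker S n lo hi lo'' hi'' A' (u + u') (seqW P Q)

/-- SEQG: if the first walker is sure to keep the abscissa above `t` and the second one is then
good with probability `1 - eps`, so is the composition. -/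
def tSeqG : Prop := ∀ (S : Set Rect) (n lo hi lo' hi' A u t t' eps : ℝ)
  (P Q : ℝ → Pt → Prog (Option Pt)), 0 ≤ eps →
  IsWalker S n lo hi lo' hi' A u P →
  (∀ R x, Dom S n lo' hi' x → t ≤ x.1 → x.1 ≤ R → R ≤ n →
    EV S n (Q R x) x (below t') ≤ eps) →
  ∀ R p, Dom S n lo hi p → t ≤ p.1 → p.1 ≤ R → R ≤ n →
    EV S n (seqW P Q R p) p (below t') ≤ eps

/-- TOUR: the law of an exploratory round. -/
def tTourLaw : Prop := ∀ (S : Set Rect) (n : ℝ) (β : Type) (p : Pt) (P : Prog (Option Pt))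
  (Q : Pt → Prog β) (K : Pt → β → Prog (Option Pt)) (phi : Option (Option Pt × Pt) → ℝ),
  p ∈ Free S → p.1 < n →
  sure S n P p (oprop True (fun o p' => ∀ x, o = some x → x = p')) →
  ex S n (tour p P Q K) p phi = ex S n P p (oext (phi none) (fun o _ =>
    oo (phi (some (none, p))) (fun x =>
      ex S n (Q x) p (oext (phi none) (fun b _ => ex S n (K x b) x phi))) o))

/-- TOUR: sure outcomes of an exploratory round. -/
def tTourSure : Prop := ∀ (S : Set Rect) (n : ℝ) (β : Type) (p : Pt) (P : Prog (Option Pt))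
  (Q : Pt → Prog β) (K : Pt → β → Prog (Option Pt)) (Z : Option (Option Pt × Pt) → Prop),
  p ∈ Free S → p.1 < n →
  sure S n P p (oprop (Z none) (fun o p' =>
    (o = none → Z (some (none, p))) ∧
    ∀ x, o = some x → x = p' ∧
      sure S n (Q x) p (oprop (Z none) (fun b _ => sure S n (K x b) x Z)))) →
  sure S n (tour p P Q K) p Z

/-- TOUR: the cost of an exploratory round. -/
def tTourCost : Prop := ∀ (S : Set Rect) (n : ℝ) (β : Type) (p : Pt) (P : Prog (Option Pt))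
  (Q : Pt → Prog β) (K : Pt → β → Prog (Option Pt)),
  p ∈ Free S → p.1 < n → P.Ok → (∀ x, (Q x).Ok) →
  sure S n P p (oprop True (fun o p' => ∀ x, o = some x → x = p')) →
  co S n (tour p P Q K) p ≤ 3 * co S n P p + ex S n P p (oext 0 (fun o _ =>
    oo 0 (fun x => 2 * co S n (Q x) p +
      ex S n (Q x) p (oext 0 (fun b _ => co S n (K x b) x))) o))

/-- TOUR: well-formedness. -/
def tTourOk : Prop := ∀ (β : Type) (p : Pt) (P : Prog (Option Pt))
  (Q : Pt → Prog β) (K : Pt → β → Prog (Option Pt)), P.Ok → (∀ x, (Q x).Ok) →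
  (∀ x b, (K x b).Ok) → (tour p P Q K).Ok

/-- LAW: one step of the rounds in terms of `EV`. -/
def tLaw : Prop := ∀ (S : Set Rect) (n lo hi A u : ℝ) (m : ℕ)
  (sub : Fin m → ℝ → Pt → Prog (Option Pt)), 0 < m →
  (∀ s, IsWalker S n lo hi lo hi A u (sub s)) →
  ∀ (N : ℕ) (c : Fin m → ℕ) (R : ℝ) (p : Pt) (psi : Option Pt → ℝ),
    Dom S n lo hi p → p.1 ≤ R → R ≤ n →
    EV S n (rounds sub (N + 1) c R p) p psi =
      ∑ h, prb c h * EV S n (sub h R p) p (oo (psi none) (fun x =>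
        ∑ s, (1 / (m : ℝ)) * EV S n (sub s x.1 p) p (fun o =>
          EV S n (rounds sub N (upd c (s, o.isSome)) R x) x psi)))

/-- RND: the rounds form a walker. -/
def tRnd : Prop := ∀ (S : Set Rect) (n lo hi A u : ℝ) (m : ℕ)
  (sub : Fin m → ℝ → Pt → Prog (Option Pt)), 0 < m → 0 ≤ A → 0 ≤ u →
  (∀ s, IsWalker S n lo hi lo hi A u (sub s)) →
  ∀ (N : ℕ) (c : Fin m → ℕ),
    IsWalker S n lo hi lo hi (5 * A) (5 * N * u) (fun R p => rounds sub N c R p)

/-- SYM: two independent home runs. `q` is the probability that a home run passes the limit. -/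
def tSym : Prop := ∀ (S : Set Rect) (n lo hi A u : ℝ) (m : ℕ)
  (sub : Fin m → ℝ → Pt → Prog (Option Pt)), 0 < m →
  (∀ s, IsWalker S n lo hi lo hi A u (sub s)) →
  ∀ (c : Fin m → ℕ) (R : ℝ) (p : Pt), Dom S n lo hi p → p.1 ≤ R → R ≤ n →
    (1 - ∑ h, prb c h * EV S n (sub h R p) p (oo 1 (fun _ => 0))) ^ 2 / 2 ≤
      ∑ h, prb c h * EV S n (sub h R p) p (oo 0 (fun x =>
        ∑ s, prb c s * EV S n (sub s x.1 p) p (oo 0 (fun _ => 1))))

/-- The potential: `A0` is the part of the multiplicative weights. -/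
noncomputable def pot {m : ℕ} (c : Fin m → ℕ) (s : Fin m) : ℝ :=
  5 * m * (Real.log (∑ t, wt (c t)) + c s * Real.log 2)

/-- POT: the change of the potential in one probe with loss probabilities `r`. -/
def tPot : Prop := ∀ (m : ℕ) (c : Fin m → ℕ) (s0 : Fin m) (r : Fin m → ℝ),
  (∀ s, 0 ≤ r s) → (∀ s, r s ≤ 1) →
  0 ≤ pot c s0 ∧
  ∑ s, (1 / (m : ℝ)) * (r s * pot (upd c (s, true)) s0 + (1 - r s) * pot (upd c (s, false)) s0) ≤
    pot c s0 - (5 / 2) * ∑ s, prb c s * r s + 5 * Real.log 2 * r s0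

/-- MW: the guarantee of the rounds. -/
def tMW : Prop := ∀ (S : Set Rect) (n lo hi A u : ℝ) (m : ℕ)
  (sub : Fin m → ℝ → Pt → Prog (Option Pt)), 0 < m →
  (∀ s, IsWalker S n lo hi lo hi A u (sub s)) →
  ∀ (th : ℕ → ℝ) (K : ℕ) (s0 : Fin m), Monotone th →
  (∀ j < K, ∀ R p, Dom S n lo hi p → th j ≤ p.1 → p.1 ≤ R → R ≤ n →
    EV S n (sub s0 R p) p (below (th (j + 1))) ≤ 1 / 16) →
  ∀ (N : ℕ) (R : ℝ) (p : Pt), Dom S n lo hi p → th 0 ≤ p.1 → p.1 ≤ R → R ≤ n →
    N * EV S n (rounds sub N (fun _ => 0) R p) p (below (th K)) ≤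
      5 * m * Real.log m + 5 * Real.log 2 * K

/-- The additive cost of level `i`. -/
noncomputable def uu (k N : ℕ) (g0 : ℝ) : ℕ → ℝ
  | 0 => g0
  | i + 1 => 5 * N * ((k : ℝ) ^ (i + 1) * g0 + uu k N g0 i)

/-- LVL: all levels are walkers with their guarantee. -/
def tLvl : Prop := ∀ (S : Set Rect) (n l : ℝ), IsScene S → ∀ (C : Cmp S n l) (k N F : ℕ)
  (g0 : ℝ), 0 < k → 0 < g0 → n < F → 0 < N →
  16 * (5 * ((2 * k - 1 : ℕ) : ℝ) * Real.log ((2 * k - 1 : ℕ) : ℝ) + 5 * Real.log 2 * k) ≤ N →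
  ∀ (i : ℕ), (k : ℝ) ^ i * g0 < F → ∀ a,
    IsWalker S n a (a + (k : ℝ) ^ i * g0) a (a + (k : ℝ) ^ i * g0) (5 ^ i * (1 + g0))
      (uu k N g0 i) (lvl k N F g0 i a) ∧
    Guar C a (a + (k : ℝ) ^ i * g0) ((k : ℝ) ^ i * g0 / (2 * k)) (lvl k N F g0 i a)

/-- LVLW: all levels are walkers (no comparator needed). -/
def tLvlW : Prop := ∀ (S : Set Rect) (n : ℝ), IsScene S → ∀ (k N F : ℕ)
  (g0 : ℝ), 0 < k → 0 < g0 → n < F →
  ∀ (i : ℕ), (k : ℝ) ^ i * g0 < F → ∀ a,
    IsWalker S n a (a + (k : ℝ) ^ i * g0) a (a + (k : ℝ) ^ i * g0) (5 ^ i * (1 + g0))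
      (uu k N g0 i) (lvl k N F g0 i a)

/-- ITER: running a walker `T` times. -/
def tIter : Prop := ∀ (S : Set Rect) (n lo hi A u : ℝ) (P : ℝ → Pt → Prog (Option Pt)),
  0 ≤ A → 0 ≤ u → IsWalker S n lo hi lo hi A u P →
  ∀ T : ℕ, IsWalker S n lo hi lo hi A (T * u) (fun R p => iter P T R p) ∧
  ∀ (th : ℕ → ℝ) (K : ℕ), Monotone th →
    (∀ j < K, ∀ R p, Dom S n lo hi p → th j ≤ p.1 → p.1 ≤ R → R ≤ n →
      EV S n (P R p) p (below (th (j + 1))) ≤ 1 / 16) →
    ∀ (R : ℝ) (p : Pt), Dom S n lo hi p → th 0 ≤ p.1 → p.1 ≤ R → R ≤ n →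
      T * EV S n (iter P T R p) p (below (th K)) ≤ 16 / 15 * K

/-- The constant in the cost of a stage. -/
noncomputable def cc (k N M : ℕ) : ℝ :=
  3 * 5 ^ M + 5 * k * uu k N (2 / (k : ℝ) ^ M) M

/-- STAGE: the stages. -/
def tStage : Prop := ∀ (n : ℝ) (k N M : ℕ), 1 ≤ n → 0 < k → 0 < N → n ≤ (k : ℝ) ^ M →
  16 * (5 * ((2 * k - 1 : ℕ) : ℝ) * Real.log ((2 * k - 1 : ℕ) : ℝ) + 5 * Real.log 2 * k) ≤ N →
  (∀ j p, (stage n k N M j p).Ok) ∧
  ∀ S, IsScene S → ∀ j p, Dom S n (-(2 ^ j * n)) (2 ^ j * n) p →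
    sure S n (stage n k N M j p) p (oprop True (fun a p' => a = p' ∧
      Dom S n (-(2 ^ (j + 1) * n)) (2 ^ (j + 1) * n) a)) ∧
    co S n (stage n k N M j p) p ≤ cc k N M * (2 ^ j * n) ∧
    ∀ l, Nonempty (Cmp S n l) → 0 ≤ l → l ≤ 2 ^ j * n →
      ex S n (stage n k N M j p) p (oext 0 (fun _ _ => 1)) ≤ 1 / 4

/-- MACH, cost part. -/
def tMachC : Prop := ∀ (stg : ℕ → Pt → Prog Pt) (hok : ∀ j p, (stg j p).Ok) (S : Set Rect)
  (n : ℝ) (Inv : ℕ → Pt → Prop) (B : ℕ → ℝ), Inv 0 (0, 0) → (∀ j, 0 ≤ B j) →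
  (∀ j p, Inv j p → p.1 < n ∧
    sure S n (stg j p) p (oprop True (fun a p' => a = p' ∧ Inv (j + 1) a)) ∧
    co S n (stg j p) p + B (j + 1) * ex S n (stg j p) p (oext 0 (fun _ _ => 1)) ≤ B j) →
  ∀ J, (mach stg hok).cost S n J (mach stg hok).start (0, 0) ≤ B 0

/-- MACH, reaching part. -/
def tMachR : Prop := ∀ (stg : ℕ → Pt → Prog Pt) (hok : ∀ j p, (stg j p).Ok) (S : Set Rect)
  (n : ℝ) (Inv : ℕ → Pt → Prop) (j0 : ℕ), Inv 0 (0, 0) →
  (∀ j p, Inv j p → p.1 < n ∧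
    sure S n (stg j p) p (oprop True (fun a p' => a = p' ∧ Inv (j + 1) a)) ∧
    (j0 ≤ j → ex S n (stg j p) p (oext 0 (fun _ _ => 1)) ≤ 1 / 4)) →
  Filter.Tendsto (fun J => (mach stg hok).reach S n J (mach stg hok).start (0, 0))
    Filter.atTop (nhds 1)

/-- NUM: the choice of the parameters. -/
def tNum : Prop := ∃ C : ℝ, 0 < C ∧ ∀ n : ℝ, 16 ≤ n → ∃ k N M : ℕ, 0 < k ∧ 0 < N ∧
  n ≤ (k : ℝ) ^ M ∧
  16 * (5 * ((2 * k - 1 : ℕ) : ℝ) * Real.log ((2 * k - 1 : ℕ) : ℝ) + 5 * Real.log 2 * k) ≤ N ∧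
  6 * cc k N M ≤ Real.exp (C * Real.sqrt (Real.log n * Real.log (Real.log n)))

/-- FINAL: the upper bound on the randomised competitive ratio. -/
def tFinal : Prop := ∃ C : ℝ, 0 < C ∧ ∀ n : ℝ, 16 ≤ n →
  rho n ≤ ENNReal.ofReal (Real.exp (C * Real.sqrt (Real.log n * Real.log (Real.log n))))

end Pool.Agent.WallR
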